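import Pool.Agent.QFano.PartA

/-!
# MP_b24993_co: unipotent automorphisms
-/

set_option autoImplicit false

namespace Pool.Agent.QFano

open Module Submodule

section Kernels

variable {K V : Type*} [Field K] [AddCommGroup V] [Module K V] [FiniteDimensional K V]

/-- the dimension of the kernel of `N ^ i` -/
noncomputable def dk (N : End K V) (i : ℕ) : ℕ := finrank K (LinearMap.ker (N ^ i))

omit [FiniteDimensional K V] in
theorem dk_zero (N : End K V) : dk N 0 = 0 := by
  rw [dk, pow_zero]
  have : LinearMap.ker (1 : End K V) = ⊥ := LinearMap.ker_id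
  rw [this, finrank_bot]

omit [FiniteDimensional K V] in
theorem dk_one (N : End K V) : dk N 1 = finrank K (LinearMap.ker N) := by
  rw [dk, pow_one]

omit [FiniteDimensional K V] in
theorem ker_pow_succ_eq (N : End K V) (i : ℕ) :
    LinearMap.ker (N ^ (i + 1)) = (LinearMap.ker (N ^ i)).comap N := by
  ext x
  rw [mem_comap, LinearMap.mem_ker, LinearMap.mem_ker, pow_succ]
  rfl

/-- the dimension of a preimage -/
theorem finrank_comap (N : End K V) (W : Submodule K V) :
    finrank K (W.comap N) = finrank K (LinearMap.ker N) +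
      finrank K (W ⊓ LinearMap.range N : Submodule K V) := by
  have h1 := LinearMap.finrank_range_add_finrank_ker (N.domRestrict (W.comap N))
  have h2 : LinearMap.range (N.domRestrict (W.comap N)) = W ⊓ LinearMap.range N := by
    ext y
    constructor
    · rintro ⟨⟨x, hx⟩, rfl⟩
      exact ⟨hx, x, rfl⟩
    · rintro ⟨hy, x, rfl⟩
      exact ⟨⟨x, hy⟩, rfl⟩
  have h3 : finrank K (LinearMap.ker (N.domRestrict (W.comap N))) =
      finrank K (LinearMap.ker N) := by
    have hle : LinearMap.ker N ≤ W.comap N := by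
      intro x hx
      rw [mem_comap, LinearMap.mem_ker.1 hx]
      exact zero_mem _
    have h4 : LinearMap.ker (N.domRestrict (W.comap N)) =
        (LinearMap.ker N).comap (W.comap N).subtype := by
      ext x
      rfl
    rw [h4]
    exact LinearEquiv.finrank_eq (Submodule.comapSubtypeEquivOfLe hle)
  rw [h2, h3] at h1
  omega

theorem dk_succ (N : End K V) (i : ℕ) : dk N (i + 1) = dk N 1 +
    finrank K (LinearMap.ker (N ^ i) ⊓ LinearMap.range N : Submodule K V) := by
  rw [dk, ker_pow_succ_eq, finrank_comap, dk_one]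

theorem dk_succ_of_le (N : End K V) (i : ℕ) (h : LinearMap.ker (N ^ i) ≤ LinearMap.range N) :
    dk N (i + 1) = dk N 1 + dk N i := by
  rw [dk_succ, inf_eq_left.2 h]
  rfl

omit [FiniteDimensional K V] in
theorem ker_pow_mono (N : End K V) (i : ℕ) :
    LinearMap.ker (N ^ i) ≤ LinearMap.ker (N ^ (i + 1)) := by
  intro x hx
  rw [LinearMap.mem_ker, pow_succ', Module.End.mul_apply, LinearMap.mem_ker.1 hx, map_zero]

theorem dk_mono (N : End K V) (i : ℕ) : dk N i ≤ dk N (i + 1) :=
  finrank_mono (ker_pow_mono N i)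

theorem dk_conv (N : End K V) (i : ℕ) : dk N (i + 2) + dk N i ≤ 2 * dk N (i + 1) := by
  have h1 := dk_succ N (i + 1)
  have h2 := dk_succ N i
  have h3 := finrank_sup_add_finrank_inf_eq
    (LinearMap.ker (N ^ (i + 1)) ⊓ LinearMap.range N) (LinearMap.ker (N ^ i))
  have h4 : finrank K ((LinearMap.ker (N ^ (i + 1)) ⊓ LinearMap.range N) ⊔
      LinearMap.ker (N ^ i) : Submodule K V) ≤ dk N (i + 1) :=
    finrank_mono (sup_le inf_le_left (ker_pow_mono N i))
  have h5 : (LinearMap.ker (N ^ (i + 1)) ⊓ LinearMap.range N) ⊓ LinearMap.ker (N ^ i) =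
      LinearMap.ker (N ^ i) ⊓ LinearMap.range N := by
    apply le_antisymm
    · exact le_inf inf_le_right (inf_le_left.trans inf_le_right)
    · exact le_inf (le_inf (inf_le_left.trans (ker_pow_mono N i)) inf_le_right) inf_le_left
  rw [h5] at h3
  have h6 : finrank K (LinearMap.ker (N ^ i)) = dk N i := rfl
  have h7 : dk N (i + 2) = dk N (i + 1 + 1) := rfl
  rw [h6] at h3
  rw [h7]
  omega

theorem dk_top {N : End K V} (hN : IsNilpotent N) (i : ℕ) (hi : finrank K V ≤ i) :
    dk N i = finrank K V := by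
  obtain ⟨n, hn⟩ := hN
  have h1 := Module.End.ker_pow_eq_ker_pow_finrank_of_le (f := N) hi
  have h2 := Module.End.ker_pow_eq_ker_pow_finrank_of_le (f := N) (m := n + finrank K V)
    (by omega)
  rw [dk, h1, ← h2, pow_add, hn, zero_mul, LinearMap.ker_zero, finrank_top]

omit [FiniteDimensional K V] in
/-- eigenvalues modulo an invariant subspace of a nilpotent map -/
theorem eig_zero {N : End K V} (hN : IsNilpotent N) {M : Submodule K V} (hM : Inv N M)
    {w : V} (hw : w ∉ M) {a : K} (h : N w - a • w ∈ M) : a = 0 := by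
  have key : ∀ k : ℕ, (N ^ k) w - a ^ k • w ∈ M := by
    intro k
    induction k with
    | zero => simp
    | succ k ih =>
      have h1 : (N ^ (k + 1)) w - a ^ (k + 1) • w =
          N ((N ^ k) w - a ^ k • w) + a ^ k • (N w - a • w) := by
        rw [pow_succ', Module.End.mul_apply, map_sub, map_smul, smul_sub, smul_smul, pow_succ]
        abel
      rw [h1]
      exact M.add_mem (hM _ ih) (M.smul_mem _ h)
  obtain ⟨n, hn⟩ := hN
  have h1 := key n
  rw [hn, LinearMap.zero_apply, zero_sub, neg_mem_iff] at h1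
  by_contra ha
  exact hw ((M.smul_mem_iff (pow_ne_zero n ha)).1 h1)

end Kernels

section

variable {K V : Type*} [Field K] [Finite K] [AddCommGroup V] [Module K V] [FiniteDimensional K V]
  {D : Set (Submodule K V)}

omit [Finite K] in
/-- A block which is a single Jordan block of size three. -/
theorem IsQFano.star (hD : IsQFano D) {g : End K V} (hg : IsAut D g) {s : K}
    (hN : IsNilpotent (sh g s)) {v : V} (h1 : sh g s v ≠ 0) (h2 : sh g s (sh g s v) = 0)
    {U : Submodule K V} (hU : U ∈ D) (hvU : v ∈ U) (hNU : sh g s v ∈ U)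
    (hker : ∀ x ∈ U, sh g s x = 0 → x ∈ K ∙ (sh g s v)) : v ∈ LinearMap.range (sh g s) := by
  have hvN : v ∉ K ∙ (sh g s v) := by
    intro h
    obtain ⟨c, hc⟩ := mem_span_singleton.1 h
    apply h1
    rw [← hc, map_smul, h2, smul_zero]
  set y := sh g s v with hy
  have hM2 : finrank K (span K {y, v}) = 2 := finrank_pair h1 hvN
  have hMU : span K {y, v} ≤ U := pair_le hNU hvU
  have hMinv : Inv (sh g s) (span K {y, v}) := by
    intro x hx
    obtain ⟨a, b, rfl⟩ := mem_span_pair.1 hx
    rw [map_add, map_smul, map_smul, h2, smul_zero, zero_add, ← hy]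
    exact smul_mem _ _ (subset_span (by simp))
  have hMinv' : Inv g (span K {y, v}) := by
    intro x hx
    have h3 : g x = sh g s x + s • x := by rw [sh_apply]; abel
    rw [h3]
    exact add_mem (hMinv x hx) (smul_mem _ _ hx)
  have hUinv := (hD.inv_block hg hM2 hMU hU hMinv').sh s
  obtain ⟨w, hwU, hwM⟩ : ∃ w ∈ U, w ∉ span K {y, v} := by
    by_contra hcon
    push Not at hcon
    have h3 := finrank_mono (s := U) (t := span K {y, v}) hcon
    rw [hD.block U hU, hM2] at h3
    omega
  have hUe : U = span K {y, v} ⊔ (K ∙ w) := by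
    refine (eq_of_le_of_finrank_le (sup_le hMU ((span_singleton_le_iff_mem w U).2 hwU)) ?_).symm
    rw [finrank_sup_span hwM, hM2, hD.block U hU]
  have h3 : sh g s w ∈ span K {y, v} ⊔ (K ∙ w) := hUe ▸ hUinv w hwU
  obtain ⟨m, hm, b, hb, hmb⟩ := mem_sup.1 h3
  obtain ⟨a, rfl⟩ := mem_span_singleton.1 hb
  have ha : a = 0 := by
    refine eig_zero hN hMinv hwM ?_
    rw [← hmb, add_sub_cancel_right]
    exact hm
  rw [ha, zero_smul, add_zero] at hmb
  obtain ⟨c, b, hcb⟩ := mem_span_pair.1 hm
  rw [← hcb] at hmb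
  by_cases hb0 : b = 0
  · exfalso
    rw [hb0, zero_smul, add_zero] at hmb
    have h4 : sh g s (w - c • v) = 0 := by
      rw [map_sub, map_smul, ← hmb, ← hy, sub_self]
    have h5 := hker _ (U.sub_mem hwU (U.smul_mem c hvU)) h4
    apply hwM
    have h6 : w = (w - c • v) + c • v := by abel
    rw [h6]
    refine add_mem ?_ (smul_mem _ _ (subset_span (by simp)))
    exact (span_mono (by simp)) h5
  · refine ⟨b⁻¹ • (w - c • v), ?_⟩
    rw [map_smul, map_sub, map_smul, ← hmb, ← hy, add_sub_cancel_left, smul_smul,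
      inv_mul_cancel₀ hb0, one_smul]

omit [Finite K] in
/-- The kernel does not have dimension `3`. -/
theorem IsQFano.B3 (hD : IsQFano D) {g : End K V} (hg : IsAut D g) {s : K}
    (hN : IsNilpotent (sh g s)) (h3 : dk (sh g s) 1 = 3) : False := by
  have hdim := hD.dim
  set N := sh g s with hNdef
  have hd7 : dk N 7 = 7 := by rw [dk_top hN 7 (by omega), hdim]
  have c1 : dk N 3 + dk N 1 ≤ 2 * dk N 2 := dk_conv N 1
  have c2 : dk N 4 + dk N 2 ≤ 2 * dk N 3 := dk_conv N 2
  have c3 : dk N 5 + dk N 3 ≤ 2 * dk N 4 := dk_conv N 3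
  have c4 : dk N 6 + dk N 4 ≤ 2 * dk N 5 := dk_conv N 4
  have c5 : dk N 7 + dk N 5 ≤ 2 * dk N 6 := dk_conv N 5
  have m1 : dk N 1 ≤ dk N 2 := dk_mono N 1
  have m2 : dk N 2 ≤ dk N 3 := dk_mono N 2
  have m3 : dk N 3 ≤ dk N 4 := dk_mono N 3
  have m4 : dk N 4 ≤ dk N 5 := dk_mono N 4
  have m5 : dk N 5 ≤ dk N 6 := dk_mono N 5
  have m6 : dk N 6 ≤ dk N 7 := dk_mono N 6
  have hE3 : finrank K (LinearMap.ker N) = 3 := by rw [← dk_one]; exact h3
  have hE2 : ∀ v, v ∈ LinearMap.ker (N ^ 2) ↔ N (N v) = 0 := by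
    intro v
    rw [LinearMap.mem_ker, pow_two, Module.End.mul_apply]
  have hker1 : LinearMap.ker N ≤ LinearMap.ker (N ^ 2) := by
    intro v hv
    rw [hE2, LinearMap.mem_ker.1 hv, map_zero]
  have hnot : ¬ LinearMap.ker (N ^ 2) ≤ LinearMap.ker N := by
    intro h
    have h4 : dk N 2 ≤ finrank K (LinearMap.ker N) := finrank_mono h
    omega
  -- a block through `v` and `N v`
  have hsmall : ∀ (U : Submodule K V) (y : V), y ≠ 0 → y ∈ U → N y = 0 →
      finrank K (U ⊓ LinearMap.ker N : Submodule K V) ≤ 1 → ∀ x ∈ U, N x = 0 → x ∈ K ∙ y := by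
    intro U y hy hyU hNy hle x hxU hNx
    have h4 : (K ∙ y) = U ⊓ LinearMap.ker N := by
      refine eq_of_le_of_finrank_le
        ((span_singleton_le_iff_mem y _).2 ⟨hyU, LinearMap.mem_ker.2 hNy⟩) ?_
      rw [finrank_span_singleton hy]
      exact hle
    rw [h4]
    exact ⟨hxU, LinearMap.mem_ker.2 hNx⟩
  by_cases hED : LinearMap.ker N ∈ D
  · have hle : LinearMap.ker (N ^ 2) ≤ LinearMap.range N := by
      by_contra hcon
      obtain ⟨v, hv2, hv1, hvR⟩ := exists_not_mem_two _ _ _ hnot hcon
      apply hvR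
      have hNv : N v ≠ 0 := fun h => hv1 (LinearMap.mem_ker.2 h)
      have hNNv := (hE2 v).1 hv2
      have hvN : v ∉ K ∙ (N v) := by
        intro h
        obtain ⟨c, hc⟩ := mem_span_singleton.1 h
        apply hNv
        rw [← hc, map_smul, hNNv, smul_zero]
      obtain ⟨U, hU, hyU, hvU⟩ := hD.exists_block hNv hvN
      refine hD.star hg hN hNv hNNv hU hvU hyU (hsmall U _ hNv hyU hNNv ?_)
      by_contra hcon2
      have : U = LinearMap.ker N := hD.eq_of_finrank hU hED (by omega)
      exact hv1 (this ▸ hvU)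
    have h4 := dk_succ_of_le N 1 (by
      rw [pow_one]
      exact hker1.trans hle)
    have h5 := dk_succ_of_le N 2 hle
    norm_num at h4 h5
    omega
  · -- the invariant blocks which meet the kernel in a line
    have hline : ∀ (U : Submodule K V), U ∈ D → 2 ≤ finrank K (U ⊓ LinearMap.ker N :
        Submodule K V) → ∃ u ∈ U, u ∉ LinearMap.ker N ∧ N u ≠ 0 ∧ N u ∈ U ∧ N (N u) = 0 ∧
        U = (U ⊓ LinearMap.ker N) ⊔ (K ∙ u) := by
      intro U hU h2
      have hUker : ¬ U ≤ LinearMap.ker N := by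
        intro h
        have h4 : U = LinearMap.ker N :=
          eq_of_le_of_finrank_eq h (by rw [hD.block U hU, hE3])
        exact hED (h4 ▸ hU)
      obtain ⟨u, huU, huk⟩ := Set.not_subset.1 hUker
      have hUinv := (hD.inv_block' hg h2 inf_le_left hU
        (inv_of_le_ker (s := s) inf_le_right)).sh s
      have hu2 : u ∉ U ⊓ LinearMap.ker N := fun h => huk h.2
      have h4 := finrank_lt_of_not_le hUker
      have h5 := hD.block U hU
      have hUe : U = (U ⊓ LinearMap.ker N) ⊔ (K ∙ u) := by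
        refine (eq_of_le_of_finrank_le
          (sup_le inf_le_left ((span_singleton_le_iff_mem u U).2 huU)) ?_).symm
        rw [finrank_sup_span hu2]
        omega
      have hinv2 : Inv N (U ⊓ LinearMap.ker N) := by
        rintro x ⟨-, hx⟩
        rw [LinearMap.mem_ker.1 hx]
        exact zero_mem _
      have h6 : N u ∈ (U ⊓ LinearMap.ker N) ⊔ (K ∙ u) := hUe ▸ hUinv u huU
      obtain ⟨m, hm, b, hb, hmb⟩ := mem_sup.1 h6
      obtain ⟨a, rfl⟩ := mem_span_singleton.1 hb
      have ha : a = 0 := by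
        refine eig_zero hN hinv2 hu2 ?_
        rw [← hmb, add_sub_cancel_right]
        exact hm
      rw [ha, zero_smul, add_zero] at hmb
      refine ⟨u, huU, huk, fun h => huk (LinearMap.mem_ker.2 h), ?_, ?_, hUe⟩
      · rw [← hmb]
        exact hm.1
      · rw [← hmb]
        exact hm.2
    have hle : LinearMap.ker N ≤ LinearMap.range N := by
      by_contra hcon
      -- a vector `r` with `dim (I + K r) ≤ 2`
      obtain ⟨r, hrk, hr0, hr2⟩ : ∃ r ∈ LinearMap.ker N, r ≠ 0 ∧
          finrank K ((LinearMap.ker N ⊓ LinearMap.range N) ⊔ (K ∙ r) : Submodule K V) ≤ 2 := by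
        have h4 := finrank_lt_of_not_le hcon
        by_cases hI : LinearMap.ker N ⊓ LinearMap.range N = ⊥
        · obtain ⟨r, hr, hr0⟩ := exists_ne_zero (W := LinearMap.ker N) (by omega)
          refine ⟨r, hr, hr0, ?_⟩
          rw [hI, bot_sup_eq, finrank_span_singleton hr0]
          omega
        · obtain ⟨r, hr, hr0⟩ := (Submodule.ne_bot_iff _).1 hI
          refine ⟨r, hr.1, hr0, ?_⟩
          rw [sup_eq_left.2 ((span_singleton_le_iff_mem r _).2 hr)]
          omega
      set I' := (LinearMap.ker N ⊓ LinearMap.range N) ⊔ (K ∙ r) with hI'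
      have hI'not : ¬ LinearMap.ker N ≤ I' := by
        intro h
        have := finrank_mono h
        omega
      obtain ⟨x, hxk, hxI⟩ := Set.not_subset.1 hI'not
      have hrx : x ∉ K ∙ r := fun h => hxI (mem_sup_right h)
      have hLnot : ¬ LinearMap.ker N ≤ span K {r, x} := by
        intro h
        have := finrank_mono h
        rw [finrank_pair hr0 hrx] at this
        omega
      obtain ⟨x', hxk', hxI', hxL'⟩ := exists_not_mem_two _ _ _ hI'not hLnot
      have hrx' : x' ∉ K ∙ r := fun h => hxI' (mem_sup_right h)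
      -- the blocks
      have hblk : ∀ z ∈ LinearMap.ker N, z ∉ I' → ∀ U ∈ D, r ∈ U → z ∈ U →
          U ≤ (K ∙ r).comap N := by
        intro z hzk hzI U hU hrU hzU
        have hzr : z ∉ K ∙ r := fun h => hzI (mem_sup_right h)
        have h2 : 2 ≤ finrank K (U ⊓ LinearMap.ker N : Submodule K V) := by
          have h4 := finrank_mono (pair_le (W := U ⊓ LinearMap.ker N) ⟨hrU, hrk⟩ ⟨hzU, hzk⟩)
          rwa [finrank_pair hr0 hzr] at h4
        obtain ⟨u, huU, huk, hNu0, hNuU, hNNu, hUe⟩ := hline U hU h2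
        have hUk : finrank K (U ⊓ LinearMap.ker N : Submodule K V) = 2 := by
          have h4 := finrank_sup_span (E := U ⊓ LinearMap.ker N) (v := u) fun h => huk h.2
          rw [← hUe, hD.block U hU] at h4
          omega
        have h5 : span K {r, z} = U ⊓ LinearMap.ker N := by
          refine eq_of_le_of_finrank_eq (pair_le ⟨hrU, hrk⟩ ⟨hzU, hzk⟩) ?_
          rw [finrank_pair hr0 hzr, hUk]
        have h6 : N u ∈ span K {r, z} := by
          rw [h5]
          exact ⟨hNuU, LinearMap.mem_ker.2 hNNu⟩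
        have h7 : N u ∈ K ∙ r := by
          obtain ⟨a, b, hab⟩ := mem_span_pair.1 h6
          by_cases hb : b = 0
          · rw [← hab, hb, zero_smul, add_zero]
            exact smul_mem _ _ (mem_span_singleton_self r)
          · exfalso
            apply hzI
            have h8 : b • z = N u - a • r := by rw [← hab]; abel
            have h9 : b • z ∈ I' := by
              rw [h8]
              exact sub_mem (mem_sup_left ⟨LinearMap.mem_ker.2 hNNu, u, rfl⟩)
                (mem_sup_right (smul_mem _ _ (mem_span_singleton_self r)))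
            exact (I'.smul_mem_iff hb).1 h9
        rw [hUe]
        refine sup_le ?_ ((span_singleton_le_iff_mem u _).2 h7)
        rintro t ⟨-, ht⟩
        rw [mem_comap, LinearMap.mem_ker.1 ht]
        exact zero_mem _
      have hF : finrank K ((K ∙ r).comap N) ≤ 4 := by
        rw [finrank_comap, hE3]
        have h4 := finrank_mono (inf_le_left : (K ∙ r) ⊓ LinearMap.range N ≤ K ∙ r)
        rw [finrank_span_singleton hr0] at h4
        omega
      obtain ⟨U, hU, hrU, hxU⟩ := hD.exists_block hr0 hrx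
      obtain ⟨U', hU', hrU', hxU'⟩ := hD.exists_block hr0 hrx'
      have hUU' : U = U' := hD.eq_of_le hU hU' hF (hblk x hxk hxI U hU hrU hxU)
        (hblk x' hxk' hxI' U' hU' hrU' hxU')
      have h4 : 2 ≤ finrank K (U ⊓ LinearMap.ker N : Submodule K V) := by
        have h4 := finrank_mono (pair_le (W := U ⊓ LinearMap.ker N) ⟨hrU, hrk⟩ ⟨hxU, hxk⟩)
        rwa [finrank_pair hr0 hrx] at h4
      obtain ⟨u, huU, huk, hNu0, hNuU, hNNu, hUe⟩ := hline U hU h4
      have hUk : finrank K (U ⊓ LinearMap.ker N : Submodule K V) = 2 := by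
        have h5 := finrank_sup_span (E := U ⊓ LinearMap.ker N) (v := u) fun h => huk h.2
        rw [← hUe, hD.block U hU] at h5
        omega
      have h5 : span K {r, x} = U ⊓ LinearMap.ker N := by
        refine eq_of_le_of_finrank_eq (pair_le ⟨hrU, hrk⟩ ⟨hxU, hxk⟩) ?_
        rw [finrank_pair hr0 hrx, hUk]
      apply hxL'
      rw [h5]
      exact ⟨hUU' ▸ hxU', hxk'⟩
    have hd2 := dk_succ_of_le N 1 (by rw [pow_one]; exact hle)
    norm_num at hd2
    have hR : finrank K (LinearMap.range N) = 4 := by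
      have := LinearMap.finrank_range_add_finrank_ker N
      omega
    have hdk2 : finrank K (LinearMap.ker (N ^ 2)) = dk N 2 := rfl
    obtain ⟨v0, hv02, hv0R⟩ : ∃ v0 ∈ LinearMap.ker (N ^ 2), v0 ∉ LinearMap.range N := by
      by_contra hcon
      push Not at hcon
      have := finrank_mono (s := LinearMap.ker (N ^ 2)) (t := LinearMap.range N) hcon
      omega
    have hv0k : v0 ∉ LinearMap.ker N := fun h => hv0R (hle h)
    have hF : finrank K (LinearMap.ker N ⊔ (K ∙ v0) : Submodule K V) = 4 := by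
      rw [finrank_sup_span hv0k, hE3]
    have hNv0 : N v0 ≠ 0 := fun h => hv0k (LinearMap.mem_ker.2 h)
    have hNNv0 := (hE2 v0).1 hv02
    have hblk : ∀ e ∈ LinearMap.ker N, ∃ U ∈ D, v0 + e ∈ U ∧
        U ≤ LinearMap.ker N ⊔ (K ∙ v0) := by
      intro e he
      have hNe : N (v0 + e) = N v0 := by rw [map_add, LinearMap.mem_ker.1 he, add_zero]
      have heR : v0 + e ∉ LinearMap.range N := by
        intro h
        apply hv0R
        have h4 : v0 = (v0 + e) - e := by abel
        rw [h4]
        exact sub_mem h (hle he)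
      have hvN : v0 + e ∉ K ∙ (N v0) := by
        intro h
        exact heR ((span_singleton_le_iff_mem (N v0) (LinearMap.range N)).2 ⟨v0, rfl⟩ h)
      obtain ⟨U, hU, hyU, hvU⟩ := hD.exists_block hNv0 hvN
      have h2 : 2 ≤ finrank K (U ⊓ LinearMap.ker N : Submodule K V) := by
        by_contra hcon
        apply heR
        refine hD.star hg hN (by rw [← hNdef, hNe]; exact hNv0)
          (by rw [← hNdef, hNe]; exact hNNv0) hU hvU (by rw [← hNdef, hNe]; exact hyU) ?_
        rw [← hNdef, hNe]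
        exact hsmall U _ hNv0 hyU hNNv0 (by omega)
      obtain ⟨u, huU, huk, hNu0, hNuU, hNNu, hUe⟩ := hline U hU h2
      have hvek : v0 + e ∉ U ⊓ LinearMap.ker N := fun h => heR (hle h.2)
      have hUk : finrank K (U ⊓ LinearMap.ker N : Submodule K V) = 2 := by
        have h5 := finrank_sup_span (E := U ⊓ LinearMap.ker N) (v := u) fun h => huk h.2
        rw [← hUe, hD.block U hU] at h5
        omega
      refine ⟨U, hU, hvU, ?_⟩
      have h4 : U = (U ⊓ LinearMap.ker N) ⊔ (K ∙ (v0 + e)) := by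
        refine (eq_of_le_of_finrank_le
          (sup_le inf_le_left ((span_singleton_le_iff_mem _ U).2 hvU)) ?_).symm
        rw [finrank_sup_span hvek, hUk, hD.block U hU]
      rw [h4]
      refine sup_le (inf_le_right.trans le_sup_left) ((span_singleton_le_iff_mem _ _).2 ?_)
      exact add_mem (mem_sup_right (mem_span_singleton_self v0)) (mem_sup_left he)
    obtain ⟨U0, hU0, hv0U0, hU0F⟩ := hblk 0 (zero_mem _)
    rw [add_zero] at hv0U0
    have h4 : LinearMap.ker N ⊔ (K ∙ v0) ≤ U0 := by
      refine sup_le ?_ ((span_singleton_le_iff_mem _ _).2 hv0U0)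
      intro e he
      obtain ⟨U, hU, hvU, hUF⟩ := hblk e he
      have h5 : U = U0 := hD.eq_of_le hU hU0 hF.le hUF hU0F
      have h6 : e = (v0 + e) - v0 := by abel
      rw [h6]
      exact sub_mem (h5 ▸ hvU) hv0U0
    have h5 := finrank_mono h4
    rw [hF, hD.block U0 hU0] at h5
    omega

omit [Finite K] in
/-- If the kernel has dimension `2`, the next one has dimension `3`, or `4` and then the third one
has dimension `6`. -/
theorem IsQFano.B2 (hD : IsQFano D) {g : End K V} (hg : IsAut D g) {s : K}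
    (hN : IsNilpotent (sh g s)) (h2 : dk (sh g s) 1 = 2) (h4 : dk (sh g s) 2 = 4) :
    dk (sh g s) 3 = 6 := by
  set N := sh g s with hNdef
  have hE : finrank K (LinearMap.ker N) = 2 := by rw [← dk_one]; exact h2
  have hE2 : ∀ v, v ∈ LinearMap.ker (N ^ 2) ↔ N (N v) = 0 := by
    intro v
    rw [LinearMap.mem_ker, pow_two, Module.End.mul_apply]
  obtain ⟨B, ⟨hB, hEB⟩, -⟩ := hD.cover _ hE
  have hdk2 : finrank K (LinearMap.ker (N ^ 2)) = dk N 2 := rfl
  have hle : LinearMap.ker (N ^ 2) ≤ LinearMap.range N := by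
    by_contra hcon
    obtain ⟨v, hv2, hvB, hvR⟩ := exists_not_mem_two _ B _ (fun h => by
      have h5 := finrank_mono h
      rw [hdk2, h4, hD.block B hB] at h5
      omega) hcon
    apply hvR
    have hNv : N v ≠ 0 := fun h => hvB (hEB (LinearMap.mem_ker.2 h))
    have hNNv := (hE2 v).1 hv2
    have hvN : v ∉ K ∙ (N v) := by
      intro h
      obtain ⟨c, hc⟩ := mem_span_singleton.1 h
      apply hNv
      rw [← hc, map_smul, hNNv, smul_zero]
    obtain ⟨U, hU, hyU, hvU⟩ := hD.exists_block hNv hvN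
    refine hD.star hg hN hNv hNNv hU hvU hyU ?_
    intro x hxU hNx
    by_contra hx
    have h5 : span K {N v, x} = LinearMap.ker N := by
      refine eq_of_le_of_finrank_eq (pair_le (LinearMap.mem_ker.2 hNNv)
        (LinearMap.mem_ker.2 hNx)) ?_
      rw [finrank_pair hNv hx, hE]
    have h6 : U = B := (hD.cover _ hE).unique ⟨hU, h5 ▸ pair_le hyU hxU⟩ ⟨hB, hEB⟩
    exact hvB (h6 ▸ hvU)
  have h5 := dk_succ_of_le N 2 hle
  norm_num at h5
  omega

/-- **(B)** The Jordan type of a unipotent automorphism, up to a scalar factor. -/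
theorem IsQFano.B (hD : IsQFano D) {g : End K V} (hg : IsAut D g) {s : K}
    (hN : IsNilpotent (sh g s)) (hne : ∃ v, g v ≠ s • v) :
    (∀ i, dk (sh g s) i = min 7 (4 * i)) ∨ (∀ i, dk (sh g s) i = min 7 (2 * i)) ∨
    (∀ i, dk (sh g s) (i + 1) = min 7 (i + 2)) ∨ (∀ i, dk (sh g s) i = min 7 i) := by
  have hdim := hD.dim
  have hA := hD.A1 hg s
  have hA2 := hD.A2 hg s
  have hB3 := hD.B3 hg hN
  have hB2 := hD.B2 hg hN
  have hk4 : dk (sh g s) 1 = 4 → dk (sh g s) 2 = 7 := by
    intro h
    rw [dk_one] at h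
    obtain ⟨m, hm⟩ := hA2 h
    have hle : LinearMap.range (sh g s) ≤ LinearMap.ker (sh g s) := by
      obtain ⟨w, hw⟩ : ∃ w, w ∉ LinearMap.ker (sh g s) := by
        obtain ⟨w, hw⟩ := hne
        exact ⟨w, fun h' => hw (mem_ker_sh.1 h')⟩
      have hms : m - s = 0 := by
        refine eig_zero hN (M := LinearMap.ker (sh g s)) ?_ hw ?_
        · intro x hx
          rw [LinearMap.mem_ker.1 hx]
          exact zero_mem _
        · have h1 : sh g s w - (m - s) • w = g w - m • w := by
            rw [sh_apply, sub_smul]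
            abel
          rw [h1]
          exact hm w
      rintro _ ⟨x, rfl⟩
      have h1 : sh g s x = g x - m • x := by
        rw [sh_apply, sub_eq_zero.1 hms]
      rw [h1]
      exact hm x
    have h2 : (sh g s) ^ 2 = 0 := by
      ext x
      rw [pow_two, Module.End.mul_apply, LinearMap.zero_apply]
      exact LinearMap.mem_ker.1 (hle ⟨x, rfl⟩)
    rw [dk, h2, LinearMap.ker_zero, finrank_top, hdim]
  have h5 : dk (sh g s) 1 ≤ 4 := by
    by_contra hcon
    rw [dk_one] at hcon
    obtain ⟨w, hw⟩ := hne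
    exact hw (hA (by omega) w)
  set N := sh g s with hNdef
  have h0 := dk_zero N
  have hd7 : dk N 7 = 7 := by rw [dk_top hN 7 (by omega), hdim]
  have hd : ∀ i, 7 ≤ i → dk N i = 7 := fun i hi => by rw [dk_top hN i (by omega), hdim]
  have c0 : dk N 2 + dk N 0 ≤ 2 * dk N 1 := dk_conv N 0
  have c1 : dk N 3 + dk N 1 ≤ 2 * dk N 2 := dk_conv N 1
  have c2 : dk N 4 + dk N 2 ≤ 2 * dk N 3 := dk_conv N 2
  have c3 : dk N 5 + dk N 3 ≤ 2 * dk N 4 := dk_conv N 3
  have c4 : dk N 6 + dk N 4 ≤ 2 * dk N 5 := dk_conv N 4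
  have c5 : dk N 7 + dk N 5 ≤ 2 * dk N 6 := dk_conv N 5
  have m0 : dk N 0 ≤ dk N 1 := dk_mono N 0
  have m1 : dk N 1 ≤ dk N 2 := dk_mono N 1
  have m2 : dk N 2 ≤ dk N 3 := dk_mono N 2
  have m3 : dk N 3 ≤ dk N 4 := dk_mono N 3
  have m4 : dk N 4 ≤ dk N 5 := dk_mono N 4
  have m5 : dk N 5 ≤ dk N 6 := dk_mono N 5
  have m6 : dk N 6 ≤ dk N 7 := dk_mono N 6
  have hcases : dk N 1 = 4 ∨ dk N 1 = 2 ∧ dk N 2 = 4 ∨ dk N 1 = 2 ∧ dk N 2 = 3 ∨ dk N 1 = 1 := by
    have h6 : dk N 1 ≠ 3 := fun h => hB3 h
    omega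
  rcases hcases with h | ⟨h, h'⟩ | ⟨h, h'⟩ | h
  · left
    have h2 := hk4 h
    intro i
    rcases lt_or_ge i 7 with hi | hi
    · interval_cases i <;> omega
    · rw [hd i hi]
      omega
  · right; left
    have h2 := hB2 h h'
    intro i
    rcases lt_or_ge i 7 with hi | hi
    · interval_cases i <;> omega
    · rw [hd i hi]
      omega
  · right; right; left
    intro i
    rcases lt_or_ge i 6 with hi | hi
    · interval_cases i <;> norm_num <;> omega
    · rw [hd (i + 1) (by omega)]
      omega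
  · right; right; right
    intro i
    rcases lt_or_ge i 7 with hi | hi
    · interval_cases i <;> omega
    · rw [hd i hi]
      omega

end

end Pool.Agent.QFano
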