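import Pool.Agent.QFano.PartC2

/-!
# MP_b24993_co: diagonal groups of automorphisms, the theorem
-/

set_option autoImplicit false
set_option linter.unusedSectionVars false

namespace Pool.Agent.QFano

open Module Submodule

section

variable {K V ι : Type*} [Field K] [Finite K] [AddCommGroup V] [Module K V]
  [FiniteDimensional K V] [Fintype ι] [DecidableEq ι]
  {D : Set (Submodule K V)} {E : ι → Submodule K V} {π : ι → End K V}

theorem le_of_one {W U : Submodule K V} (h : finrank K W = 1) {y : V} (hy : y ∈ W)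
    (hy0 : y ≠ 0) (hyU : y ∈ U) : W ≤ U := by
  have h2 : (K ∙ y) = W := by
    refine eq_of_le_of_finrank_eq ((span_singleton_le_iff_mem _ _).2 hy) ?_
    rw [finrank_span_singleton hy0, h]
  rw [← h2]
  exact (span_singleton_le_iff_mem _ _).2 hyU

theorem le_of_two {W U : Submodule K V} (h : finrank K W = 2) {x y : V} (hx : x ∈ W)
    (hy : y ∈ W) (hx0 : x ≠ 0) (hyx : y ∉ K ∙ x) (hxU : x ∈ U) (hyU : y ∈ U) : W ≤ U := by
  have h2 : span K {x, y} = W := by
    refine eq_of_le_of_finrank_eq (pair_le hx hy) ?_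
    rw [finrank_pair hx0 hyx, h]
  rw [← h2]
  exact pair_le hxU hyU

/-- A block which contains a summand of dimension `2`. -/
theorem block_form (hπ : Proj E π) (hD : IsQFano D) {a k : ι} (ha : finrank K (E a) = 2)
    {U : Submodule K V} (hU : U ∈ D) (haU : E a ≤ U) (hka : k ≠ a) {z : V} (hz : z ∈ E k)
    (hz0 : z ≠ 0) (hzU : z ∈ U) {l : ι} (hla : l ≠ a) (hlk : l ≠ k) {x : V} (hx : x ∈ E l)
    (hxU : x ∈ U) : x = 0 := by
  have hza : z ∉ E a := fun h => hz0 (hπ.disj hka hz h)
  have h1 : U = E a ⊔ (K ∙ z) := by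
    refine (eq_of_le_of_finrank_le (sup_le haU ((span_singleton_le_iff_mem _ _).2 hzU)) ?_).symm
    rw [finrank_sup_span hza, ha, hD.block U hU]
  have h2 : U ≤ LinearMap.ker (π l) := by
    rw [h1]
    refine sup_le (fun v hv => hπ.mem_ker hla hv) ((span_singleton_le_iff_mem _ _).2 ?_)
    exact hπ.mem_ker hlk hz
  rw [← hπ.same l x hx]
  exact LinearMap.mem_ker.1 (h2 hxU)

/-- exactly one summand of dimension two -/
theorem Sep.m1 (hE : Sep D E) (hπ : Proj E π) (hD : IsQFano D) {a : ι}
    (ha : finrank K (E a) = 2) (h1 : ∀ l, l ≠ a → finrank K (E l) = 1)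
    (hcard : Fintype.card ι = 6) : False := by
  obtain ⟨UA, ⟨hUA, haU⟩, hun⟩ := hD.cover (E a) ha
  have hinv : TInv D E UA := hD.tinv_block ha.ge haU hUA (tinv_of_le le_rfl)
  obtain ⟨k, z, hz, hzU, hza⟩ := hE.third hπ hinv (L := E a) (fun h => by
    have := finrank_mono h
    rw [hD.block UA hUA, ha] at this
    omega)
  have hka : k ≠ a := by
    rintro rfl
    exact hza hz
  have hz0 : z ≠ 0 := by
    rintro rfl
    exact hza (zero_mem _)
  obtain ⟨j, hj⟩ : ∃ j, j ∉ ({a, k} : Finset ι) := by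
    by_contra hcon
    push Not at hcon
    have h2 : (Finset.univ : Finset ι) ⊆ {a, k} := fun x _ => hcon x
    have h3 := Finset.card_le_card h2
    rw [Finset.card_univ, hcard] at h3
    have := Finset.card_le_two (a := a) (b := k)
    omega
  simp only [Finset.mem_insert, Finset.mem_singleton, not_or] at hj
  obtain ⟨hja, hjk⟩ := hj
  obtain ⟨c, hc, hc0⟩ := (Submodule.ne_bot_iff _).1 (hE.ne j)
  have h2 : ((Finset.univ : Finset ι) \ {a, j, k}).card = 3 := by
    rw [Finset.card_sdiff_of_subset (Finset.subset_univ _), Finset.card_univ, hcard,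
      Finset.card_eq_three.2 ⟨a, j, k, Ne.symm hja, Ne.symm hka, hjk, rfl⟩]
  have h3 := pig hπ hD ha hja hc hc0 ((Finset.univ : Finset ι) \ {a, j, k}) ?_
  · rw [h2] at h3
    have h4 : (3 : ℤ) ≤ Nat.card K := by exact_mod_cast hE.card_K hja
    push_cast at h3
    linarith
  · intro x hx hx0 U hU hcU hxU
    have hnot : ¬ E a ≤ U := by
      intro h
      have h4 : U = UA := hun U ⟨hU, h⟩
      exact hc0 (block_form hπ hD ha hUA haU hka hz hz0 hzU hja hjk hc (h4 ▸ hcU))
    refine ⟨hnot, ?_⟩
    have hxc : x ∉ K ∙ c := not_mem_span_of_ne hπ hja hc hx hx0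
    obtain ⟨U', hU', hcU', hxU', hinv', l, y, hy, hyU', hy'⟩ := hE.block hπ hD hc hx hc0 hxc
    have h4 : U' = U := hD.eq_of_mem hU' hU hc0 hxc hcU' hxU' hcU hxU
    rw [h4] at hyU'
    have hy0 : y ≠ 0 := by
      rintro rfl
      exact hy' (zero_mem _)
    have hla : l ≠ a := by
      rintro rfl
      exact hnot (le_of_two ha hx hy hx0 (fun h => hy' ((span_mono (by simp)) h)) hxU hyU')
    have hlj : l ≠ j := by
      rintro rfl
      have h5 := le_of_one (h1 l hla) hc hc0 (U := span K {c, x}) (subset_span (by simp))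
      exact hy' (h5 hy)
    have hlk : l ≠ k := by
      rintro rfl
      have h5 := le_of_one (h1 l hla) hy hy0 hyU'
      have hxz : x ∉ K ∙ z := not_mem_span_of_ne hπ hka hz hx hx0
      have h6 : U = UA := hD.eq_of_mem hU hUA hz0 hxz (h5 hz) hxU hzU (haU hx)
      exact hnot (h6 ▸ haU)
    exact ⟨l, by simp [hla, hlj, hlk], hlj, h1 l hla, y, hy, hy0, hyU'⟩

/-- exactly two summands of dimension two -/
theorem Sep.m2_aux (hE : Sep D E) (hπ : Proj E π) (hD : IsQFano D) {a b : ι} (hab : a ≠ b)
    (ha : finrank K (E a) = 2) (hb : finrank K (E b) = 2)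
    (h1 : ∀ l, l ≠ a → l ≠ b → finrank K (E l) = 1)
    (hcard : Fintype.card ι = 5) {UA : Submodule K V} (hUA : UA ∈ D) (haU : E a ≤ UA)
    {k : ι} (hka : k ≠ a) (hkb : k ≠ b) {z : V} (hz : z ∈ E k) (hz0 : z ≠ 0)
    (hzU : z ∈ UA) : False := by
  have hun : ∀ U ∈ D, E a ≤ U → U = UA := fun U hU h =>
    (hD.cover (E a) ha).unique ⟨hU, h⟩ ⟨hUA, haU⟩
  have h2 : ((Finset.univ : Finset ι) \ {a, b, k}).card = 2 := by
    rw [Finset.card_sdiff_of_subset (Finset.subset_univ _), Finset.card_univ, hcard,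
      Finset.card_eq_three.2 ⟨a, b, k, hab, Ne.symm hka, Ne.symm hkb, rfl⟩]
  have hq : (3 : ℤ) ≤ Nat.card K := by exact_mod_cast hE.card_K hab
  have hstep2 : ∃ UB ∈ D, E b ≤ UB ∧ z ∈ UB := by
    by_contra hcon
    have h3 := pig hπ hD hb hkb hz hz0 ((Finset.univ : Finset ι) \ {a, b, k}) ?_
    · rw [h2] at h3
      push_cast at h3
      linarith
    · intro x hx hx0 U hU hzU' hxU
      have hnot : ¬ E b ≤ U := fun h => hcon ⟨U, hU, h, hzU'⟩
      refine ⟨hnot, ?_⟩
      have hxz : x ∉ K ∙ z := not_mem_span_of_ne hπ hkb hz hx hx0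
      obtain ⟨U', hU', hcU', hxU', hinv', l, y, hy, hyU', hy'⟩ := hE.block hπ hD hz hx hz0 hxz
      have h4 : U' = U := hD.eq_of_mem hU' hU hz0 hxz hcU' hxU' hzU' hxU
      rw [h4] at hyU'
      have hy0 : y ≠ 0 := by
        rintro rfl
        exact hy' (zero_mem _)
      have hlb : l ≠ b := by
        rintro rfl
        exact hnot (le_of_two hb hx hy hx0 (fun h => hy' ((span_mono (by simp)) h)) hxU hyU')
      have hla : l ≠ a := by
        rintro rfl
        have hyz : y ∉ K ∙ z := not_mem_span_of_ne hπ hka hz hy hy0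
        have h6 : U = UA := hD.eq_of_mem hU hUA hz0 hyz hzU' hyU' hzU (haU hy)
        exact hx0 (block_form hπ hD ha hUA haU hka hz hz0 hzU (Ne.symm hab) (Ne.symm hkb) hx
          (h6 ▸ hxU))
      have hlk : l ≠ k := by
        rintro rfl
        have h5 := le_of_one (h1 l hla hlb) hz hz0 (U := span K {z, x}) (subset_span (by simp))
        exact hy' (h5 hy)
      exact ⟨l, by simp [hla, hlb, hlk], hlk, h1 l hla hlb, y, hy, hy0, hyU'⟩
  obtain ⟨UB, hUB, hbU, hzUB⟩ := hstep2
  have hunB : ∀ U ∈ D, E b ≤ U → U = UB := fun U hU h =>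
    (hD.cover (E b) hb).unique ⟨hU, h⟩ ⟨hUB, hbU⟩
  obtain ⟨c, hc, hc0⟩ := (Submodule.ne_bot_iff _).1 (hE.ne a)
  have h3 := pig hπ hD hb hab hc hc0 ((Finset.univ : Finset ι) \ {a, b, k}) ?_
  · rw [h2] at h3
    push_cast at h3
    linarith
  · intro x hx hx0 U hU hcU hxU
    have hnot : ¬ E b ≤ U := by
      intro h
      have h4 : U = UB := hunB U hU h
      exact hc0 (block_form hπ hD hb hUB hbU hkb hz hz0 hzUB hab (Ne.symm hka) hc (h4 ▸ hcU))
    refine ⟨hnot, ?_⟩
    have hnotA : U ≠ UA := by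
      intro h
      exact hx0 (block_form hπ hD ha hUA haU hka hz hz0 hzU (Ne.symm hab) (Ne.symm hkb) hx
        (h ▸ hxU))
    have hxc : x ∉ K ∙ c := not_mem_span_of_ne hπ hab hc hx hx0
    obtain ⟨U', hU', hcU', hxU', hinv', l, y, hy, hyU', hy'⟩ := hE.block hπ hD hc hx hc0 hxc
    have h4 : U' = U := hD.eq_of_mem hU' hU hc0 hxc hcU' hxU' hcU hxU
    rw [h4] at hyU'
    have hy0 : y ≠ 0 := by
      rintro rfl
      exact hy' (zero_mem _)
    have hlb : l ≠ b := by
      rintro rfl
      exact hnot (le_of_two hb hx hy hx0 (fun h => hy' ((span_mono (by simp)) h)) hxU hyU')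
    have hla : l ≠ a := by
      rintro rfl
      exact hnotA (hun U hU (le_of_two ha hc hy hc0 (fun h => hy' ((span_mono (by simp)) h))
        hcU hyU'))
    have hlk : l ≠ k := by
      rintro rfl
      have h5 := le_of_one (h1 l hla hlb) hy hy0 hyU'
      have hcz : c ∉ K ∙ z := not_mem_span_of_ne hπ hka hz hc hc0
      exact hnotA (hD.eq_of_mem hU hUA hz0 hcz (h5 hz) hcU hzU (haU hc))
    exact ⟨l, by simp [hla, hlb, hlk], hla, h1 l hla hlb, y, hy, hy0, hyU'⟩

theorem Sep.m2 (hE : Sep D E) (hπ : Proj E π) (hD : IsQFano D) {a b : ι} (hab : a ≠ b)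
    (ha : finrank K (E a) = 2) (hb : finrank K (E b) = 2)
    (h1 : ∀ l, l ≠ a → l ≠ b → finrank K (E l) = 1)
    (hcard : Fintype.card ι = 5) : False := by
  have hblock : ∀ a', finrank K (E a') = 2 → ∃ U ∈ D, E a' ≤ U ∧ ∃ k, k ≠ a' ∧ ∃ z ∈ E k,
      z ≠ 0 ∧ z ∈ U := by
    intro a' ha'
    obtain ⟨U, ⟨hU, haU⟩, -⟩ := hD.cover (E a') ha'
    have hinv : TInv D E U := hD.tinv_block ha'.ge haU hU (tinv_of_le le_rfl)
    obtain ⟨k, z, hz, hzU, hza⟩ := hE.third hπ hinv (L := E a') (fun h => by
      have := finrank_mono h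
      rw [hD.block U hU, ha'] at this
      omega)
    refine ⟨U, hU, haU, k, ?_, z, hz, ?_, hzU⟩
    · rintro rfl
      exact hza hz
    · rintro rfl
      exact hza (zero_mem _)
  obtain ⟨UA, hUA, haU, k, hka, z, hz, hz0, hzU⟩ := hblock a ha
  obtain ⟨UB, hUB, hbU, k', hkb', z', hz', hz0', hzU'⟩ := hblock b hb
  by_cases hkb : k = b
  · by_cases hka' : k' = a
    · subst hkb hka'
      have hz'z : z' ∉ K ∙ z := not_mem_span_of_ne hπ hka hz hz' hz0'
      have h2 : UA = UB := hD.eq_of_mem hUA hUB hz0 hz'z hzU (haU hz') (hbU hz) hzU'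
      have h3 := finrank_mono (sup_le haU (h2 ▸ hbU))
      have h4 := finrank_sup_add_finrank_inf_eq (E k') (E k)
      have h5 : E k' ⊓ E k = ⊥ := by
        rw [eq_bot_iff]
        rintro v ⟨h6, h7⟩
        exact hπ.disj hab h6 h7
      rw [h5, finrank_bot] at h4
      rw [hD.block UA hUA] at h3
      omega
    · exact hE.m2_aux hπ hD (Ne.symm hab) hb ha (fun l h h' => h1 l h' h) hcard hUB hbU hkb'
        hka' hz' hz0' hzU'
  · exact hE.m2_aux hπ hD hab ha hb h1 hcard hUA haU hka hkb hz hz0 hzU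

/-- **(C)** The dimensions of the joint eigenspaces of a diagonal group of automorphisms. -/
theorem Sep.C (hE : Sep D E) (hD : IsQFano D) [Nontrivial ι] :
    (Fintype.card ι = 2 ∧ ∃ i, finrank K (E i) = 4 ∧ ∀ j, j ≠ i → finrank K (E j) = 3) ∨
    (Fintype.card ι = 4 ∧ ∃ i, finrank K (E i) = 1 ∧ ∀ j, j ≠ i → finrank K (E j) = 2) ∨
    (Fintype.card ι = 7 ∧ ∀ i, finrank K (E i) = 1) := by
  classical
  obtain ⟨π, hπ⟩ := exists_proj hE.int
  have hsum := sum_finrank hE.int
  rw [hD.dim] at hsum
  have hpos : ∀ i, 1 ≤ finrank K (E i) := by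
    intro i
    by_contra hcon
    exact hE.ne i (Submodule.finrank_eq_zero.1 (by omega))
  by_cases h4 : ∃ i, finrank K (E i) = 4
  · obtain ⟨i, hi⟩ := h4
    left
    obtain ⟨j, hj⟩ := exists_ne i
    have huniv : (Finset.univ : Finset ι) = {i, j} := by
      ext l
      simp only [Finset.mem_univ, Finset.mem_insert, Finset.mem_singleton, true_iff]
      by_cases hl : l = i
      · exact Or.inl hl
      · exact Or.inr ((hE.four hπ hD i).2 hi l j hl hj)
    have hc : Fintype.card ι = 2 := by
      rw [← Finset.card_univ, huniv, Finset.card_pair hj.symm]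
    rw [huniv, Finset.sum_pair hj.symm, hi] at hsum
    refine ⟨hc, i, hi, fun l hl => ?_⟩
    have : l = j := (hE.four hπ hD i).2 hi l j hl hj
    rw [this]
    omega
  · have hle3 : ∀ i, finrank K (E i) ≤ 3 := by
      intro i
      have h5 := (hE.four hπ hD i).1
      have h6 : finrank K (E i) ≠ 4 := fun h => h4 ⟨i, h⟩
      omega
    have hle2 : ∀ i, finrank K (E i) ≤ 2 := by
      intro i
      by_contra hcon
      have hi3 : finrank K (E i) = 3 := by
        have := hle3 i
        omega
      have h5 := Finset.add_sum_erase Finset.univ (fun l => finrank K (E l)) (Finset.mem_univ i)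
      rw [hsum, hi3] at h5
      have h6 : ∑ l ∈ Finset.univ.erase i, finrank K (E l) = 4 := by omega
      -- a summand of dimension at most two
      have h7 : ∃ k1 ∈ Finset.univ.erase i, finrank K (E k1) ≤ 2 := by
        by_contra hcon2
        push Not at hcon2
        have h8 : ∀ l ∈ Finset.univ.erase i, finrank K (E l) = 3 := by
          intro l hl
          have h9 := hcon2 l hl
          have h10 := hle3 l
          omega
        rw [Finset.sum_congr rfl h8, Finset.sum_const, smul_eq_mul] at h6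
        omega
      obtain ⟨k1, hk1, hk12⟩ := h7
      have h8 := Finset.add_sum_erase (Finset.univ.erase i) (fun l => finrank K (E l)) hk1
      rw [h6] at h8
      have h9 : ((Finset.univ.erase i).erase k1).Nonempty := by
        rw [Finset.nonempty_iff_ne_empty]
        intro h
        rw [h, Finset.sum_empty] at h8
        have : finrank K (E k1) = 4 := by simpa using h8
        omega
      obtain ⟨j, hj⟩ := h9
      rw [Finset.mem_erase, Finset.mem_erase] at hj
      exact hE.three hπ hD hi3 (Finset.ne_of_mem_erase hk1) hj.2.1 hj.1 hk12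
    -- the number of the summands of dimension two
    set M : Finset ι := Finset.univ.filter fun i => finrank K (E i) = 2 with hM
    have hd : ∀ i, finrank K (E i) = 1 + if i ∈ M then 1 else 0 := by
      intro i
      have h5 := hle2 i
      have h6 := hpos i
      by_cases hi : i ∈ M
      · rw [if_pos hi]
        rw [hM, Finset.mem_filter] at hi
        omega
      · rw [if_neg hi]
        have h7 : finrank K (E i) ≠ 2 := fun h => hi (Finset.mem_filter.2 ⟨Finset.mem_univ _, h⟩)
        omega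
    have hcount : Fintype.card ι + M.card = 7 := by
      rw [← hsum, Finset.sum_congr rfl fun i _ => hd i, Finset.sum_add_distrib, Finset.sum_const,
        Finset.card_univ, smul_eq_mul, mul_one, Finset.sum_ite_mem, Finset.univ_inter,
        Finset.sum_const, smul_eq_mul, mul_one]
    have hMle : M.card ≤ Fintype.card ι := Finset.card_le_univ _
    have hmem : ∀ i, i ∈ M ↔ finrank K (E i) = 2 := by
      intro i
      rw [hM, Finset.mem_filter]
      simp
    have hnm : ∀ i, i ∉ M → finrank K (E i) = 1 := by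
      intro i hi
      rw [hd i, if_neg hi]
    rcases (by omega : M.card = 0 ∨ M.card = 1 ∨ M.card = 2 ∨ M.card = 3) with h | h | h | h
    · right; right
      rw [Finset.card_eq_zero] at h
      refine ⟨by rw [h, Finset.card_empty] at hcount; omega, fun i => hnm i ?_⟩
      rw [h]
      exact Finset.notMem_empty i
    · exfalso
      obtain ⟨a, ha⟩ := Finset.card_eq_one.1 h
      refine hE.m1 hπ hD (a := a) ((hmem a).1 (by rw [ha]; simp)) (fun l hl => hnm l ?_)
        (by omega)
      rw [ha]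
      simpa using hl
    · exfalso
      obtain ⟨a, b, hab, hMab⟩ := Finset.card_eq_two.1 h
      refine hE.m2 hπ hD hab ((hmem a).1 (by rw [hMab]; simp)) ((hmem b).1 (by rw [hMab]; simp))
        (fun l hl hl' => hnm l ?_) (by omega)
      rw [hMab]
      simp [hl, hl']
    · right; left
      have hc : Fintype.card ι = 4 := by omega
      have h5 : (Finset.univ \ M).card = 1 := by
        rw [Finset.card_sdiff_of_subset (Finset.subset_univ _), Finset.card_univ]
        omega
      obtain ⟨i, hi⟩ := Finset.card_eq_one.1 h5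
      have h6 : ∀ j, j ∉ M ↔ j = i := by
        intro j
        have h7 : j ∈ Finset.univ \ M ↔ j = i := by rw [hi]; simp
        rw [← h7]
        simp
      refine ⟨hc, i, hnm i ((h6 i).2 rfl), fun j hj => (hmem j).1 ?_⟩
      by_contra hcon
      exact hj ((h6 j).1 hcon)

end

end Pool.Agent.QFano
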