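import Pool.Agent.QFano.PartD4

set_option autoImplicit false
set_option linter.unusedSectionVars false

/-!
# Automorphisms of prime order modulo scalars
-/

namespace Pool.Agent.QFano

open Module Submodule

section

variable {K V : Type*} [Field K] [Finite K] [AddCommGroup V] [Module K V]
  [FiniteDimensional K V] {D : Set (Submodule K V)} {g : End K V} {r : ℕ}

theorem IsAut.smul (hg : IsAut D g) {a : K} (ha : a ≠ 0) : IsAut D (a • g) := by
  refine ⟨?_, fun U hU => ?_⟩
  · intro x y h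
    rw [LinearMap.smul_apply, LinearMap.smul_apply] at h
    exact hg.1 (smul_right_injective V ha h)
  · rw [Submodule.map_smul _ _ _ ha]
    exact hg.2 U hU

/-- **(D)**, modulo scalars -/
theorem IsQFano.primeOrder' (hD : IsQFano D) (hg : IsAut D g) (hrp : r.Prime) {c : K}
    (hgr : g ^ r = algebraMap K (End K V) c) (hg1 : ∀ s : K, g ≠ algebraMap K (End K V) s)
    (hrq : ¬ r ∣ Nat.card K) (hq1 : ¬ (r : ℤ) ∣ (Nat.card K : ℤ) - 1) :
    ∃ s : K, s ^ r = c ∧
    ((finrank K (LinearMap.ker (sh g s)) = 0 ∧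
      (r : ℤ) ∣ ∑ i ∈ Finset.range 7, (Nat.card K : ℤ) ^ i) ∨
    (finrank K (LinearMap.ker (sh g s)) = 3 ∧ (r : ℤ) ∣ (Nat.card K : ℤ) ^ 2 + 1) ∨
    (finrank K (LinearMap.ker (sh g s)) = 1 ∧
      ((r : ℤ) ∣ (Nat.card K : ℤ) + 1 ∨ (r : ℤ) ∣ (Nat.card K : ℤ) ^ 2 - (Nat.card K : ℤ) + 1 ∨
        ((r : ℤ) ∣ (Nat.card K : ℤ) ^ 2 + (Nat.card K : ℤ) + 1 ∧
          ∃ p : Polynomial K, p.Monic ∧ p.natDegree = 3 ∧
            Polynomial.aeval g ((Polynomial.X - Polynomial.C s) * p) = 0)))) := by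
  classical
  have hdim := hD.dim
  have hnt : Nontrivial V := by
    rw [← Module.finrank_pos_iff (R := K), hdim]
    norm_num
  have hc : c ≠ 0 := by
    rintro rfl
    rw [map_zero] at hgr
    obtain ⟨v, hv⟩ := exists_ne (0 : V)
    have h1 : ∀ n : ℕ, (g ^ n) v ≠ 0 := by
      intro n
      induction n with
      | zero => exact hv
      | succ n ih =>
        rw [pow_succ', Module.End.mul_apply]
        intro h0
        exact ih (hg.1 (by rw [h0, map_zero]))
    apply h1 r
    rw [hgr, LinearMap.zero_apply]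
  -- the root of `c`
  have hcop : (Nat.card Kˣ).Coprime r := by
    have h2 : Nat.card Kˣ = Nat.card K - 1 := Nat.card_units K
    rw [Nat.coprime_comm, hrp.coprime_iff_not_dvd, h2]
    intro h3
    apply hq1
    have h4 : 1 ≤ Nat.card K := two_le_card.trans' (by norm_num)
    have h5 : ((Nat.card K - 1 : ℕ) : ℤ) = (Nat.card K : ℤ) - 1 := by
      push_cast [Nat.cast_sub h4]
      ring
    rw [← h5]
    exact_mod_cast h3
  obtain ⟨u, hu⟩ := (powCoprime hcop).surjective (Units.mk0 c hc)
  have hu' : (u : K) ^ r = c := by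
    have h1 : u ^ r = Units.mk0 c hc := hu
    have h2 := congrArg Units.val h1
    rwa [Units.val_pow_eq_pow_val, Units.val_mk0] at h2
  set s : K := (u : K) with hs
  have hs0 : s ≠ 0 := u.ne_zero
  have hs1 : s⁻¹ ≠ 0 := inv_ne_zero hs0
  set g' := s⁻¹ • g with hg'
  have hgs : g = s • g' := by rw [hg', smul_smul, mul_inv_cancel₀ hs0, one_smul]
  have hgr' : g' ^ r = 1 := by
    rw [hg', smul_pow, hgr, ← hu', Algebra.algebraMap_eq_smul_one, smul_smul, ← mul_pow,
      inv_mul_cancel₀ hs0, one_pow, one_smul]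
  have hg1' : g' ≠ 1 := by
    intro h
    apply hg1 s
    rw [hgs, h, Algebra.algebraMap_eq_smul_one]
  have hsh : sh g s = s • sh g' 1 := by
    change g - algebraMap K (End K V) s = s • (g' - algebraMap K (End K V) 1)
    rw [map_one, smul_sub, ← hgs, Algebra.algebraMap_eq_smul_one]
  have hker : LinearMap.ker (sh g s) = LinearMap.ker (sh g' 1) := by
    rw [hsh, LinearMap.ker_smul _ _ hs0]
  refine ⟨s, hu', ?_⟩
  rw [hker]
  rcases hD.primeOrder (hg.smul hs1) hrp hgr' hg1' hrq hq1 with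
    h | h | ⟨h, h' | h' | ⟨h', p, hp, hpd, hP⟩⟩
  · exact Or.inl h
  · exact Or.inr (Or.inl h)
  · exact Or.inr (Or.inr ⟨h, Or.inl h'⟩)
  · exact Or.inr (Or.inr ⟨h, Or.inr (Or.inl h')⟩)
  · refine Or.inr (Or.inr ⟨h, Or.inr (Or.inr ⟨h', p.scaleRoots s, ?_, ?_, ?_⟩)⟩)
    · rw [Polynomial.monic_scaleRoots_iff]
      exact hp
    · rw [Polynomial.natDegree_scaleRoots, hpd]
    · have e1 : Polynomial.aeval g (p.scaleRoots s) = s ^ 3 • Polynomial.aeval g' p := by
        rw [Polynomial.aeval_eq_sum_range, Polynomial.aeval_eq_sum_range,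
          Polynomial.natDegree_scaleRoots, Finset.smul_sum]
        refine Finset.sum_congr rfl fun i hi => ?_
        have hi' : i ≤ 3 := by
          rw [hpd, Finset.mem_range] at hi
          omega
        rw [Polynomial.coeff_scaleRoots, hgs, smul_pow, smul_smul, smul_smul, hpd]
        congr 1
        have h3 : s ^ 3 = s ^ (3 - i) * s ^ i := by rw [← pow_add, Nat.sub_add_cancel hi']
        rw [h3]
        ring
      have e2 : Polynomial.aeval g (Polynomial.X - Polynomial.C s) = s •
          Polynomial.aeval g' (Polynomial.X - 1 : Polynomial K) := by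
        rw [map_sub, map_sub, Polynomial.aeval_X, Polynomial.aeval_X, Polynomial.aeval_C, map_one]
        rw [smul_sub, ← hgs, Algebra.algebraMap_eq_smul_one]
      rw [map_mul, e1, e2, smul_mul_smul_comm, ← map_mul, hP, smul_zero]

end

end Pool.Agent.QFano
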