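import Pool.Agent.QFano.Types
import Pool.Agent.QFano.PartB
import Pool.Agent.QFano.PartC3
import Pool.Agent.QFano.PartD5

set_option autoImplicit false
set_option linter.unusedSectionVars false

/-!
# Automorphisms of prime order: the order divides `q`
-/

namespace Pool.Agent.QFano

open Module Submodule

section

variable {K V : Type*} [Field K] [AddCommGroup V] [Module K V]

theorem mem_eig {f : End K V} {s : K} {v : V} : v ∈ eig f s ↔ f v = s • v := by
  rw [eig, LinearMap.mem_ker, LinearMap.sub_apply, Module.algebraMap_end_apply, sub_eq_zero]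

theorem pow_ne {g : End K V} (hinj : Function.Injective g) {v : V} (hv : v ≠ 0) (n : ℕ) :
    (g ^ n) v ≠ 0 := by
  induction n with
  | zero => exact hv
  | succ n ih =>
    rw [pow_succ', Module.End.mul_apply]
    intro h0
    exact ih (hinj (by rw [h0, map_zero]))

theorem scalar_ne_zero [Nontrivial V] {g : End K V} (hinj : Function.Injective g) {r : ℕ} {c : K}
    (hgr : g ^ r = algebraMap K (End K V) c) : c ≠ 0 := by
  rintro rfl
  rw [map_zero] at hgr
  obtain ⟨v, hv⟩ := exists_ne (0 : V)
  apply pow_ne hinj hv r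
  rw [hgr, LinearMap.zero_apply]

variable [Finite K] [FiniteDimensional K V] {D : Set (Submodule K V)}

theorem IsQFano.nontrivial (hD : IsQFano D) : Nontrivial V := by
  rw [← Module.finrank_pos_iff (R := K), hD.dim]
  norm_num

theorem charP_of_dvd {r : ℕ} (hr : r.Prime) (h : r ∣ Nat.card K) : CharP K r := by
  have := Fintype.ofFinite K
  obtain ⟨p, hp, n, hpp, hn⟩ := FiniteField.card' K
  rw [Nat.card_eq_fintype_card, hn] at h
  have h1 := hr.dvd_of_dvd_pow h
  rw [Nat.prime_dvd_prime_iff_eq hr hpp] at h1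
  rw [h1]
  exact hp

theorem IsQFano.allUnip (hD : IsQFano D) {g : End K V} (hg : IsAut D g) {r : ℕ} (hr : r.Prime)
    {c : K} (hgr : g ^ r = algebraMap K (End K V) c) (hg1 : ∀ s : K, g ≠ algebraMap K (End K V) s)
    (h : r ∣ Nat.card K) : UnipType g r := by
  have hnt := hD.nontrivial
  have hdim := hD.dim
  have hch := charP_of_dvd hr h
  have hfact : Fact r.Prime := ⟨hr⟩
  refine ⟨h, ?_⟩
  obtain ⟨s, hs⟩ : ∃ s : K, s ^ r = c := by
    obtain ⟨s, hs⟩ := (frobeniusEquiv K r).surjective c
    exact ⟨s, hs⟩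
  refine ⟨s, ?_⟩
  have hchE : CharP (End K V) r :=
    charP_of_injective_algebraMap (FaithfulSMul.algebraMap_injective K (End K V)) r
  have hN : (g - algebraMap K (End K V) s) ^ r = 0 := by
    rw [sub_pow_char_of_commute r (Algebra.commutes s g).symm, hgr, ← map_pow, hs, sub_self]
  have hker : dk (sh g s) r = 7 := by
    change finrank K (LinearMap.ker ((g - algebraMap K (End K V) s) ^ r)) = 7
    rw [hN, LinearMap.ker_zero, finrank_top, hdim]
  have hne : ∃ v, g v ≠ s • v := by
    by_contra hcon
    push Not at hcon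
    apply hg1 s
    ext v
    rw [hcon v, Module.algebraMap_end_apply]
  rcases hD.B hg ⟨r, hN⟩ hne with h | h | h | h
  · exact Or.inl h
  · refine Or.inr (Or.inl ⟨?_, h⟩)
    have h1 := h r
    rw [hker] at h1
    have h2 : r ≠ 4 := by
      rintro rfl
      revert hr
      norm_num
    omega
  · refine Or.inr (Or.inr (Or.inl ⟨?_, fun i hi => ?_⟩))
    · obtain ⟨j, hj⟩ : ∃ j, r = j + 1 := ⟨r - 1, by have := hr.pos; omega⟩
      have h1 := h j
      rw [← hj, hker] at h1
      have h2 : r ≠ 6 := by
        rintro rfl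
        revert hr
        norm_num
      omega
    · obtain ⟨j, rfl⟩ : ∃ j, i = j + 1 := ⟨i - 1, by omega⟩
      exact h j
  · refine Or.inr (Or.inr (Or.inr ⟨?_, h⟩))
    have h1 := h r
    rw [hker] at h1
    omega

end

end Pool.Agent.QFano
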