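import Pool.Agent.QFano.All1

set_option autoImplicit false
set_option linter.unusedSectionVars false

/-!
# Automorphisms of prime order: the order divides `q - 1`
-/

namespace Pool.Agent.QFano

open Module Submodule Polynomial

section

variable {K V : Type*} [Field K] [AddCommGroup V] [Module K V]

theorem ker_prod (f : End K V) (S : Finset K) :
    LinearMap.ker (aeval f (∏ s ∈ S, (X - C s))) = ⨆ s ∈ S, eig f s := by
  classical
  induction S using Finset.induction_on with
  | empty =>
    simp only [Finset.prod_empty, map_one, Finset.notMem_empty, iSup_false, iSup_bot]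
    rw [LinearMap.ker_eq_bot']
    intro m hm
    simpa using hm
  | insert a S ha ih =>
    rw [Finset.prod_insert ha, ← sup_ker_aeval_eq_ker_aeval_mul_of_coprime, ih,
      Finset.iSup_insert]
    · congr 1
      rw [eig, map_sub, aeval_X, aeval_C]
    · refine IsCoprime.prod_right fun i hi => ?_
      refine isCoprime_X_sub_C_of_isUnit_sub ?_
      rw [isUnit_iff_ne_zero, sub_ne_zero]
      rintro rfl
      exact ha hi

variable [Finite K]

theorem iSup_eig_eq_top {f : End K V} (hf : f ^ Nat.card K = f) : ⨆ s : K, eig f s = ⊤ := by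
  classical
  have := Fintype.ofFinite K
  have h1 : (∏ s : K, (X - C s) : K[X]) = X ^ Fintype.card K - X := by
    have hm : (X ^ Fintype.card K - X : K[X]).Monic :=
      monic_X_pow_sub (by rw [degree_X]; exact_mod_cast Fintype.one_lt_card)
    have h2 := prod_multiset_X_sub_C_of_monic_of_roots_card_eq hm (by
      rw [FiniteField.roots_X_pow_card_sub_X,
        FiniteField.X_pow_card_sub_X_natDegree_eq K Fintype.one_lt_card]
      rfl)
    rw [FiniteField.roots_X_pow_card_sub_X] at h2
    exact h2
  have h3 := ker_prod f Finset.univ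
  rw [h1, map_sub, map_pow, aeval_X, ← Nat.card_eq_fintype_card, hf, sub_self,
    LinearMap.ker_zero] at h3
  simpa using h3.symm

theorem eig_eq (f : End K V) (s : K) : eig f s = f.eigenspace s := by
  ext v
  rw [mem_eig, Module.End.mem_eigenspace_iff]

/-- the eigenvalues -/
abbrev EV (f : End K V) : Type _ := {s : K // eig f s ≠ ⊥}

theorem isInternal_eig [DecidableEq K] {f : End K V} (hf : f ^ Nat.card K = f) :
    DirectSum.IsInternal (fun s : EV f => eig f s.1) := by
  classical
  refine DirectSum.isInternal_submodule_of_iSupIndep_of_iSup_eq_top ?_ ?_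
  · have h := f.eigenspaces_iSupIndep
    have h1 := h.comp (Subtype.val_injective (p := fun s : K => eig f s ≠ ⊥))
    convert h1 using 2 with s
    rw [eig_eq]
    rfl
  · rw [eq_top_iff, ← iSup_eig_eq_top hf]
    refine iSup_le fun s => ?_
    by_cases h : eig f s = ⊥
    · rw [h]
      exact bot_le
    · exact le_iSup (fun s : EV f => eig f s.1) ⟨s, h⟩

variable [FiniteDimensional K V] {D : Set (Submodule K V)}

theorem IsQFano.diag (hD : IsQFano D) {g : End K V} (hg : IsAut D g) {r : ℕ} (hr : r.Prime)
    {c : K} (hgr : g ^ r = algebraMap K (End K V) c) (hg1 : ∀ s : K, g ≠ algebraMap K (End K V) s)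
    (h : (r : ℤ) ∣ (Nat.card K : ℤ) - 1) (hc : ∃ s : K, s ^ r = c) : DiagType g r := by
  classical
  have := Fintype.ofFinite K
  have hnt := hD.nontrivial
  have hdim := hD.dim
  have hc0 := scalar_ne_zero hg.1 hgr
  obtain ⟨s₀, hs₀⟩ := hc
  have hs0 : s₀ ≠ 0 := by
    rintro rfl
    rw [zero_pow hr.ne_zero] at hs₀
    exact hc0 hs₀.symm
  have hq1 : 1 ≤ Nat.card K := Nat.card_pos
  obtain ⟨m, hm⟩ : r ∣ Nat.card K - 1 := by
    rw [← Int.natCast_dvd_natCast]
    push_cast [Nat.cast_sub hq1]
    exact h
  have hgq : g ^ Nat.card K = g := by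
    have h1 : g ^ (Nat.card K - 1) = 1 := by
      rw [hm, pow_mul, hgr, ← map_pow, ← hs₀, ← pow_mul, ← hm, Nat.card_eq_fintype_card,
        FiniteField.pow_card_sub_one_eq_one _ hs0, map_one]
    calc g ^ Nat.card K = g ^ (Nat.card K - 1 + 1) := by rw [Nat.sub_add_cancel hq1]
      _ = g := by rw [pow_succ, h1, one_mul]
  have hint := isInternal_eig (f := g) hgq
  -- two eigenvalues
  have hnt' : Nontrivial (EV g) := by
    by_contra hcon
    rw [not_nontrivial_iff_subsingleton] at hcon
    have htop : ⨆ s : K, eig g s = ⊤ := iSup_eig_eq_top hgq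
    obtain ⟨v, hv⟩ := exists_ne (0 : V)
    have hex : ∃ s : K, eig g s ≠ ⊥ := by
      by_contra h0
      push Not at h0
      simp only [h0, iSup_bot] at htop
      have : v ∈ (⊥ : Submodule K V) := by
        rw [htop]
        trivial
      exact hv (by simpa using this)
    obtain ⟨s, hs⟩ := hex
    have h1 : eig g s = ⊤ := by
      rw [eq_top_iff, ← htop]
      refine iSup_le fun t => ?_
      by_cases ht : eig g t = ⊥
      · rw [ht]
        exact bot_le
      · have h2 : (⟨t, ht⟩ : EV g) = ⟨s, hs⟩ := Subsingleton.elim _ _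
        have h3 : t = s := congrArg Subtype.val h2
        rw [h3]
    apply hg1 s
    ext w
    have h2 : w ∈ eig g s := by
      rw [h1]
      trivial
    rw [mem_eig.1 h2, Module.algebraMap_end_apply]
  have hsep : ∀ i j : EV g, i ≠ j → ∃ (g' : End K V) (c : EV g → K), IsAut D g' ∧
      (∀ k, ∀ v ∈ eig g k.1, g' v = c k • v) ∧ c i ≠ c j :=
    fun i j hij => ⟨g, fun k => k.1, hg, fun k v hv => mem_eig.1 hv,
      fun h0 => hij (Subtype.ext h0)⟩
  have hC := Sep.C (E := fun s : EV g => eig g s.1) ⟨fun i => i.2, hint, hsep⟩ hD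
  -- the number of eigenvalues
  have hcard : Fintype.card (EV g) ≤ r := by
    have h1 : ∀ s : EV g, s.1 ∈ (nthRoots r c).toFinset := by
      intro s
      rw [Multiset.mem_toFinset, mem_nthRoots hr.pos]
      obtain ⟨v, hv, hv0⟩ := (Submodule.ne_bot_iff _).1 s.2
      have h2 : ∀ n : ℕ, (g ^ n) v = s.1 ^ n • v := by
        intro n
        induction n with
        | zero => simp
        | succ n ih =>
          rw [pow_succ', Module.End.mul_apply, ih, map_smul, mem_eig.1 hv, smul_smul, pow_succ]
      have h3 := h2 r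
      rw [hgr, Module.algebraMap_end_apply] at h3
      exact (smul_left_injective K hv0 h3).symm
    have h2 : Fintype.card (EV g) ≤ (nthRoots r c).toFinset.card := by
      rw [← Fintype.card_coe]
      exact Fintype.card_le_of_injective (fun s => (⟨s.1, h1 s⟩ : {x // x ∈ (nthRoots r c).toFinset}))
        (fun a b hab => Subtype.ext (Subtype.mk.inj hab))
    exact h2.trans ((Multiset.toFinset_card_le _).trans (card_nthRoots r c))
  refine ⟨h, ?_⟩
  -- a list of the eigenvalues which begins with a given one at the end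
  have hlist : ∀ (n : ℕ) (i : EV g), Fintype.card (EV g) = n + 1 →
      ∃ s : Fin (n + 1) → EV g, Function.Injective s ∧ s (Fin.last n) = i := by
    intro n i hn
    let e : EV g ≃ Fin (n + 1) := Fintype.equivFinOfCardEq hn
    refine ⟨fun j => (e.trans (Equiv.swap (e i) (Fin.last n))).symm j, Equiv.injective _, ?_⟩
    simp
  have hlist0 : ∀ (n : ℕ) (i : EV g), Fintype.card (EV g) = n + 1 →
      ∃ s : Fin (n + 1) → EV g, Function.Injective s ∧ s 0 = i := by
    intro n i hn
    let e : EV g ≃ Fin (n + 1) := Fintype.equivFinOfCardEq hn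
    refine ⟨fun j => (e.trans (Equiv.swap (e i) 0)).symm j, Equiv.injective _, ?_⟩
    simp
  rcases hC with ⟨h2, i, hi, hj⟩ | ⟨h4, i, hi, hj⟩ | ⟨h7, hall⟩
  · obtain ⟨s, hs, hsi⟩ := hlist0 1 i h2
    refine ⟨[4, 3], by simp, by simp; omega, fun j => (s j).1,
      fun a b hab => hs (Subtype.ext hab), ?_⟩
    intro j
    change Fin 2 at j
    fin_cases j
    · change finrank K (eig g (s 0).1) = 4
      rw [hsi]
      exact hi
    · change finrank K (eig g (s 1).1) = 3
      refine hj _ fun h0 => ?_
      have := hs (h0.trans hsi.symm)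
      exact absurd this (by decide)
  · obtain ⟨s, hs, hsi⟩ := hlist 3 i h4
    refine ⟨[2, 2, 2, 1], by simp, by simp; omega, fun j => (s j).1,
      fun a b hab => hs (Subtype.ext hab), ?_⟩
    have hlt : ∀ j : Fin 4, j ≠ Fin.last 3 → finrank K (eig g (s j).1) = 2 := by
      intro j hj'
      refine hj _ fun h0 => hj' (hs (h0.trans hsi.symm))
    intro j
    change Fin 4 at j
    fin_cases j
    · exact hlt 0 (by decide)
    · exact hlt 1 (by decide)
    · exact hlt 2 (by decide)
    · change finrank K (eig g (s (Fin.last 3)).1) = 1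
      rw [hsi]
      exact hi
  · obtain ⟨s, hs, hsi⟩ := hlist 6 (Classical.arbitrary _) h7
    refine ⟨[1, 1, 1, 1, 1, 1, 1], by simp, by simp; omega, fun j => (s j).1,
      fun a b hab => hs (Subtype.ext hab), ?_⟩
    intro j
    change Fin 7 at j
    fin_cases j <;> exact hall _

end

end Pool.Agent.QFano
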