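import Pool.Agent.QFano.All2

set_option autoImplicit false
set_option linter.unusedSectionVars false

/-!
# Automorphisms of prime order: irreducible ones, and orders prime to `q (q - 1)`
-/

namespace Pool.Agent.QFano

open Module Submodule Polynomial

section

variable {K V : Type*} [Field K] [AddCommGroup V] [Module K V]

/-- `c` is not an `r`-th power: the dimension of every invariant subspace is divisible by `r` -/
theorem dvd_finrank [FiniteDimensional K V] {g : End K V} {r : ℕ} (hr : r.Prime) {c : K}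
    (hc0 : c ≠ 0) (hgr : g ^ r = algebraMap K (End K V) c) (hc : ¬ ∃ s : K, s ^ r = c)
    {U : Submodule K V} (hU : ∀ u ∈ U, g u ∈ U) : r ∣ finrank K U := by
  by_contra hcon
  apply hc
  set d := finrank K U with hd
  set gU : End K U := g.restrict hU with hgU
  have h1 : gU ^ r = c • (1 : End K U) := by
    rw [hgU, Module.End.pow_restrict r hU]
    ext v
    simp [hgr, Module.algebraMap_end_apply]
  have h2 : (LinearMap.det gU) ^ r = c ^ d := by
    rw [← map_pow, h1, LinearMap.det_smul, map_one, mul_one]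
  have hcop : IsCoprime (d : ℤ) (r : ℤ) := by
    rw [Nat.isCoprime_iff_coprime]
    exact ((Nat.Prime.coprime_iff_not_dvd hr).2 hcon).symm
  obtain ⟨a, b, hab⟩ := hcop
  refine ⟨(LinearMap.det gU) ^ a * c ^ b, ?_⟩
  have hdet : LinearMap.det gU ≠ 0 := by
    intro h0
    rw [h0, zero_pow hr.ne_zero] at h2
    exact pow_ne_zero d hc0 h2.symm
  calc ((LinearMap.det gU) ^ a * c ^ b) ^ r = ((LinearMap.det gU) ^ r) ^ a * c ^ (b * r) := by
        rw [mul_pow, ← zpow_natCast, ← zpow_natCast, ← zpow_natCast, ← zpow_mul, ← zpow_mul,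
          ← zpow_mul, mul_comm a]
    _ = c ^ (a * d + b * r) := by
        rw [h2, ← zpow_natCast, ← zpow_mul, zpow_add₀ hc0, mul_comm a]
    _ = c := by rw [hab, zpow_one]

variable [Finite K] [FiniteDimensional K V] {D : Set (Submodule K V)} {g : End K V} {r : ℕ}

theorem IsQFano.nonpower (hD : IsQFano D) (hg : IsAut D g) (hr : r.Prime) {c : K}
    (hgr : g ^ r = algebraMap K (End K V) c) (h : (r : ℤ) ∣ (Nat.card K : ℤ) - 1)
    (hc : ¬ ∃ s : K, s ^ r = c) : SingerType g r := by
  have hnt := hD.nontrivial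
  have hdim := hD.dim
  have hc0 := scalar_ne_zero hg.1 hgr
  have h7 : r = 7 := by
    have h1 := dvd_finrank hr hc0 hgr hc (U := ⊤) (fun _ _ => trivial)
    rw [finrank_top, hdim] at h1
    exact (Nat.prime_dvd_prime_iff_eq hr (by norm_num)).1 h1
  subst h7
  refine ⟨?_, ?_⟩
  · have h2 : (Nat.card K : ℤ) ≡ 1 [ZMOD 7] := by
      rw [Int.modEq_comm, Int.modEq_iff_dvd]
      exact h
    have h3 : ∑ i ∈ Finset.range 7, (Nat.card K : ℤ) ^ i ≡ ∑ i ∈ Finset.range 7, (1 : ℤ) ^ i
        [ZMOD 7] := by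
      simp only [Finset.sum_range_succ, Finset.sum_range_zero]
      gcongr
    have h4 : ∑ i ∈ Finset.range 7, (Nat.card K : ℤ) ^ i ≡ 0 [ZMOD 7] := h3.trans (by decide)
    exact (Int.modEq_zero_iff_dvd.1 h4)
  · intro U hU
    obtain ⟨k, hk⟩ := dvd_finrank hr hc0 hgr hc hU
    have h1 := finrank_le U
    rw [hdim] at h1
    have h2 : k = 0 ∨ k = 1 := by omega
    rcases h2 with rfl | rfl
    · left
      exact finrank_eq_zero.1 (by omega)
    · right
      exact eq_top_of_finrank_eq (by omega)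

theorem zmod_two_aux' : ∀ y : ZMod 2, y ≠ 1 → y ≠ 0 → False := by decide

/-- the orders of `q` modulo `r` -/
theorem order_cases (hr : r.Prime) (hrq : ¬ r ∣ Nat.card K)
    (hq1 : ¬ (r : ℤ) ∣ (Nat.card K : ℤ) - 1) :
    ((r : ℤ) ∣ (Nat.card K : ℤ) + 1 → orderOf ((Nat.card K : ℕ) : ZMod r) = 2) ∧
    ((r : ℤ) ∣ (Nat.card K : ℤ) ^ 2 + 1 → orderOf ((Nat.card K : ℕ) : ZMod r) = 4) ∧
    ((r : ℤ) ∣ (Nat.card K : ℤ) ^ 2 + (Nat.card K : ℤ) + 1 →
      orderOf ((Nat.card K : ℕ) : ZMod r) = 3) ∧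
    ((r : ℤ) ∣ (Nat.card K : ℤ) ^ 2 - (Nat.card K : ℤ) + 1 →
      orderOf ((Nat.card K : ℕ) : ZMod r) = 2 ∨ orderOf ((Nat.card K : ℕ) : ZMod r) = 6) := by
  have : Fact r.Prime := ⟨hr⟩
  have hf2 : Fact (Nat.Prime 2) := ⟨by norm_num⟩
  have hf3 : Fact (Nat.Prime 3) := ⟨by norm_num⟩
  set x : ZMod r := ((Nat.card K : ℕ) : ZMod r) with hx
  have hcast : ∀ z : ℤ, (r : ℤ) ∣ z ↔ (z : ZMod r) = 0 := fun z =>
    (ZMod.intCast_zmod_eq_zero_iff_dvd z r).symm
  have hx1 : x ≠ 1 := by
    intro h0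
    apply hq1
    rw [hcast]
    push_cast
    rw [← hx, h0, sub_self]
  have hx0 : x ≠ 0 := by
    intro h0
    apply hrq
    rwa [hx, ZMod.natCast_eq_zero_iff] at h0
  -- `r` is odd
  have h2 : (-1 : ZMod r) ≠ 1 := by
    intro h0
    have h3 : r = 2 := by
      have h4 : ((2 : ℕ) : ZMod r) = 0 := by
        have : (2 : ZMod r) = 1 - (-1) := by ring
        push_cast
        rw [this, h0, sub_self]
      rw [ZMod.natCast_eq_zero_iff] at h4
      exact (Nat.prime_dvd_prime_iff_eq hr (by norm_num)).1 h4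
    subst h3
    exact zmod_two_aux' x hx1 hx0
  refine ⟨fun h => ?_, fun h => ?_, fun h => ?_, fun h => ?_⟩
  · rw [hcast] at h
    push_cast at h
    rw [← hx] at h
    have h3 : x = -1 := eq_neg_of_add_eq_zero_left h
    refine orderOf_eq_prime ?_ hx1
    rw [h3]
    ring
  · rw [hcast] at h
    push_cast at h
    rw [← hx] at h
    have h3 : x ^ 2 = -1 := eq_neg_of_add_eq_zero_left h
    refine orderOf_eq_prime_pow (p := 2) (n := 1) ?_ ?_
    · rw [pow_one, h3]
      exact h2
    · norm_num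
      calc x ^ 4 = (x ^ 2) ^ 2 := by ring
        _ = 1 := by rw [h3]; ring
  · rw [hcast] at h
    push_cast at h
    rw [← hx] at h
    refine orderOf_eq_prime ?_ hx1
    have h3 : x ^ 3 - 1 = (x - 1) * (x ^ 2 + x + 1) := by ring
    rw [h, mul_zero] at h3
    exact sub_eq_zero.1 h3
  · rw [hcast] at h
    push_cast at h
    rw [← hx] at h
    have h3 : x ^ 3 = -1 := by
      have h4 : x ^ 3 + 1 = (x + 1) * (x ^ 2 - x + 1) := by ring
      rw [h, mul_zero] at h4
      exact eq_neg_of_add_eq_zero_left h4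
    have h6 : x ^ 6 = 1 := by
      calc x ^ 6 = (x ^ 3) ^ 2 := by ring
        _ = 1 := by rw [h3]; ring
    by_cases h4 : x ^ 2 = 1
    · left
      exact orderOf_eq_prime h4 hx1
    · right
      have h5 := orderOf_dvd_of_pow_eq_one h6
      have h7 : orderOf x ≠ 1 := by
        rw [Ne, orderOf_eq_one_iff]
        exact hx1
      have h8 : orderOf x ≠ 2 := by
        intro h0
        apply h4
        rw [← h0, pow_orderOf_eq_one]
      have h9 : orderOf x ≠ 3 := by
        intro h0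
        apply h2
        rw [← h3, ← h0, pow_orderOf_eq_one]
      have h10 : orderOf x ∈ Nat.divisors 6 := Nat.mem_divisors.2 ⟨h5, by norm_num⟩
      have h11 : Nat.divisors 6 = {1, 2, 3, 6} := by decide
      rw [h11] at h10
      simp only [Finset.mem_insert, Finset.mem_singleton] at h10
      omega

theorem IsQFano.coprime (hD : IsQFano D) (hg : IsAut D g) (hr : r.Prime) {c : K}
    (hgr : g ^ r = algebraMap K (End K V) c) (hg1 : ∀ s : K, g ≠ algebraMap K (End K V) s)
    (hrq : ¬ r ∣ Nat.card K) (hq1 : ¬ (r : ℤ) ∣ (Nat.card K : ℤ) - 1) :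
    SingerType g r ∨ CoprimeType D g r := by
  have hnt := hD.nontrivial
  have hdim := hD.dim
  have hc0 := scalar_ne_zero hg.1 hgr
  have hrK : (r : K) ≠ 0 := cast_ne_zero hr hrq
  obtain ⟨s, hs, hcases⟩ := hD.primeOrder' hg hr hgr hg1 hrq hq1
  have hs0 : s ≠ 0 := by
    rintro rfl
    rw [zero_pow hr.ne_zero] at hs
    exact hc0 hs.symm
  have hs1 : s⁻¹ ≠ 0 := inv_ne_zero hs0
  set g' := s⁻¹ • g with hg'
  have hgs : g = s • g' := by rw [hg', smul_smul, mul_inv_cancel₀ hs0, one_smul]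
  have hgr' : g' ^ r = 1 := by
    rw [hg', _root_.smul_pow, hgr, ← hs, Algebra.algebraMap_eq_smul_one, smul_smul, ← mul_pow,
      inv_mul_cancel₀ hs0, one_pow, one_smul]
  have hg'' : IsAut D g' := hg.smul hs1
  have hsh : sh g s = s • sh g' 1 := by
    change g - algebraMap K (End K V) s = s • (g' - algebraMap K (End K V) 1)
    rw [map_one, smul_sub, ← hgs, Algebra.algebraMap_eq_smul_one]
  have hker : LinearMap.ker (sh g s) = LinearMap.ker (sh g' 1) := by
    rw [hsh, LinearMap.ker_smul _ _ hs0]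
  have heig : eig g s = LinearMap.ker (sh g' 1) := hker
  have hinv : ∀ U : Submodule K V, (∀ u ∈ U, g u ∈ U) → Inv g' U := by
    intro U hU u hu
    rw [hg', LinearMap.smul_apply]
    exact U.smul_mem _ (hU u hu)
  have hord := order_cases (K := K) hr hrq hq1
  have hrp' : Prime (r : ℤ) := Nat.prime_iff_prime_int.1 hr
  rcases hcases with ⟨h, h'⟩ | ⟨h, h'⟩ | ⟨h, h'⟩
  · left
    refine ⟨h', fun U hU => ?_⟩
    by_contra hcon
    push Not at hcon
    obtain ⟨hb, ht⟩ := hcon
    have hW : LinearMap.ker (av g' r) = ⊤ := by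
      have h1 := finrank_split (g := g') hgr' hrK
      rw [← hker, h, zero_add] at h1
      exact eq_top_of_finrank_eq h1
    have hd := free_dvd hg''.1 hr hgr' hrK (hinv U hU) (by rw [hW]; exact le_top)
    have h1 : finrank K U ≠ 0 := fun h0 => hb (finrank_eq_zero.1 h0)
    have h2 : finrank K U ≠ 7 := fun h0 => ht (eq_top_of_finrank_eq (h0.trans hdim.symm))
    have h3 := finrank_le U
    rw [hdim] at h3
    set d := finrank K U with hdd
    -- the order of `q` modulo `r`
    have hfact : Fact r.Prime := ⟨hr⟩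
    have hf7 : Fact (Nat.Prime 7) := ⟨by norm_num⟩
    set x : ZMod r := ((Nat.card K : ℕ) : ZMod r) with hx
    have hcast : ∀ z : ℤ, (r : ℤ) ∣ z ↔ (z : ZMod r) = 0 := fun z =>
      (ZMod.intCast_zmod_eq_zero_iff_dvd z r).symm
    have hx1 : x ≠ 1 := by
      intro h0
      apply hq1
      rw [hcast]
      push_cast
      rw [← hx, h0, sub_self]
    have h7 : orderOf x = 7 := by
      refine orderOf_eq_prime ?_ hx1
      have h4 : (Nat.card K : ℤ) ^ 7 - 1 =
          ((Nat.card K : ℤ) - 1) * ∑ i ∈ Finset.range 7, (Nat.card K : ℤ) ^ i := by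
        simp only [Finset.sum_range_succ, Finset.sum_range_zero]
        ring
      have h5 : (r : ℤ) ∣ (Nat.card K : ℤ) ^ 7 - 1 := by
        rw [h4]
        exact h'.mul_left _
      rw [hcast] at h5
      push_cast at h5
      exact sub_eq_zero.1 h5
    have h8 : x ^ d = 1 := by
      rw [hcast] at hd
      push_cast at hd
      exact sub_eq_zero.1 hd
    have h9 := orderOf_dvd_of_pow_eq_one h8
    rw [h7] at h9
    have := Nat.le_of_dvd (by omega) h9
    omega
  · right
    refine ⟨s, Or.inl ⟨h, hord.2.1 h', ?_⟩⟩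
    have h3 : finrank K (LinearMap.ker (sh g' 1)) = 3 := by rw [← hker, h]
    -- a line of the eigenspace and its block
    obtain ⟨x, hx, hx0⟩ := exists_ne_zero (W := LinearMap.ker (sh g' 1)) (by omega)
    obtain ⟨y, hy, hyx⟩ := exists_pair (W := LinearMap.ker (sh g' 1)) (by omega) x
    obtain ⟨U, ⟨hU, hLU⟩, -⟩ := hD.cover _ (finrank_pair hx0 hyx)
    have hLF : span K {x, y} ≤ LinearMap.ker (sh g' 1) := pair_le hx hy
    have hi : Inv g' U := hD.inv_block hg'' (finrank_pair hx0 hyx) hLU hU (inv_of_le_ker hLF)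
    have h4 := split_of_inv hi hgr' hrK
    rw [hD.block U hU] at h4
    have h5 := no_one hr hgr' hrK hq1 (inv_inf hi (inv_av hgr')) inf_le_right
    have h6 : 2 ≤ finrank K (U ⊓ LinearMap.ker (sh g' 1) : Submodule K V) := by
      rw [← finrank_pair hx0 hyx]
      exact finrank_mono (le_inf hLU hLF)
    have h7 : finrank K (U ⊓ LinearMap.ker (sh g' 1) : Submodule K V) = 3 := by omega
    have h8 : U ⊓ LinearMap.ker (sh g' 1) = U :=
      eq_of_le_of_finrank_eq inf_le_left (by rw [h7, hD.block U hU])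
    have h9 : U ⊓ LinearMap.ker (sh g' 1) = LinearMap.ker (sh g' 1) :=
      eq_of_le_of_finrank_eq inf_le_right (by rw [h7, h3])
    rw [heig, ← h9, h8]
    exact hU
  · right
    refine ⟨s, Or.inr ⟨h, ?_⟩⟩
    rcases h' with h' | h' | ⟨h', hp⟩
    · exact Or.inl (hord.1 h')
    · rcases hord.2.2.2 h' with h'' | h''
      · exact Or.inl h''
      · exact Or.inr (Or.inl h'')
    · exact Or.inr (Or.inr ⟨hord.2.2.1 h', hp⟩)

/-- all primes `r`, linear automorphisms -/
theorem IsQFano.allLinear (hD : IsQFano D) (hg : IsAut D g) (hr : r.Prime) {c : K}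
    (hgr : g ^ r = algebraMap K (End K V) c) (hg1 : ∀ s : K, g ≠ algebraMap K (End K V) s) :
    UnipType g r ∨ DiagType g r ∨ SingerType g r ∨ CoprimeType D g r := by
  by_cases hrq : r ∣ Nat.card K
  · exact Or.inl (hD.allUnip hg hr hgr hg1 hrq)
  · right
    by_cases hq1 : (r : ℤ) ∣ (Nat.card K : ℤ) - 1
    · by_cases hc : ∃ s : K, s ^ r = c
      · exact Or.inl (hD.diag hg hr hgr hg1 hq1 hc)
      · exact Or.inr (Or.inl (hD.nonpower hg hr hgr hq1 hc))
    · exact Or.inr (hD.coprime hg hr hgr hg1 hrq hq1)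

end

end Pool.Agent.QFano
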