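import Pool.Agent.QFano.All3

set_option autoImplicit false
set_option linter.unusedSectionVars false

/-!
# Semilinear automorphisms of prime order: preparations
-/

namespace Pool.Agent.QFano

open Module Submodule

section Field

variable {K : Type*} [Field K]

theorem mem_fixedSub {σ : K →+* K} {x : K} : x ∈ fixedSub σ ↔ σ x = x := Iff.rfl

variable [Finite K] {σ : K →+* K} {r : ℕ}

/-- `σ` as an automorphism over its fixed field -/
noncomputable def toEquiv (σ : K →+* K) : K ≃ₐ[fixedSub σ] K :=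
  AlgEquiv.ofBijective
    { σ with
      commutes' := fun x => x.2 }
    (Finite.injective_iff_bijective.1 σ.injective)

theorem toEquiv_apply (x : K) : toEquiv σ x = σ x := rfl

theorem toEquiv_pow (n : ℕ) (x : K) : (toEquiv σ ^ n) x = σ^[n] x := by
  induction n with
  | zero => rfl
  | succ n ih =>
    rw [pow_succ', AlgEquiv.mul_apply, ih, toEquiv_apply, Function.iterate_succ_apply']

theorem orderOf_toEquiv (hr : r.Prime) (hσ : σ ≠ RingHom.id K) (h : ∀ x, σ^[r] x = x) :
    orderOf (toEquiv σ) = r := by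
  have : Fact r.Prime := ⟨hr⟩
  refine orderOf_eq_prime ?_ ?_
  · ext x
    rw [toEquiv_pow, h]
    rfl
  · intro h0
    apply hσ
    ext x
    rw [← toEquiv_apply, h0]
    rfl

theorem zpowers_top (hr : r.Prime) (hσ : σ ≠ RingHom.id K) (h : ∀ x, σ^[r] x = x) :
    finrank (fixedSub σ) K = r ∧ Subgroup.zpowers (toEquiv σ) = ⊤ := by
  classical
  have h1 : IntermediateField.fixedField (Subgroup.zpowers (toEquiv σ)) = ⊥ := by
    rw [eq_bot_iff]
    intro x hx
    have h2 := (IntermediateField.mem_fixedField_iff _ x).1 hx (toEquiv σ)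
      (Subgroup.mem_zpowers _)
    rw [IntermediateField.mem_bot]
    exact ⟨⟨x, h2⟩, rfl⟩
  have h2 := IntermediateField.finrank_fixedField_eq_card (Subgroup.zpowers (toEquiv σ))
  rw [h1] at h2
  have h3 : finrank (fixedSub σ) K = r := by
    rw [IntermediateField.finrank_bot'] at h2
    rw [h2, Nat.card_zpowers, orderOf_toEquiv hr hσ h]
  refine ⟨h3, ?_⟩
  have hG : IsGalois (fixedSub σ) K := inferInstance
  refine (Subgroup.card_eq_iff_eq_top _).1 ?_
  rw [Nat.card_zpowers, orderOf_toEquiv hr hσ h, IsGalois.card_aut_eq_finrank, h3]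

/-- the powers of `σ` are independent -/
theorem indep_pow (hr : r.Prime) (hσ : σ ≠ RingHom.id K) (h : ∀ x, σ^[r] x = x) (b : ℕ → K)
    (hb : ∀ y, ∑ j ∈ Finset.range r, b j * σ^[j] y = 0) : ∀ j < r, b j = 0 := by
  have h1 := linearIndependent_monoidHom K K
  let F : Fin r → (K →* K) := fun j =>
    ((toEquiv σ ^ (j : ℕ) : K ≃ₐ[fixedSub σ] K) : K →* K)
  have hF : Function.Injective F := by
    intro i j hij
    have h2 : toEquiv σ ^ (i : ℕ) = toEquiv σ ^ (j : ℕ) := by
      ext x
      exact DFunLike.congr_fun hij x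
    have h3 := orderOf_toEquiv hr hσ h
    exact Fin.ext (pow_injOn_Iio_orderOf (by rw [h3]; exact i.2) (by rw [h3]; exact j.2) h2)
  have h2 := (h1.comp F hF)
  rw [Fintype.linearIndependent_iff] at h2
  intro j hj
  refine h2 (fun i => b i) ?_ ⟨j, hj⟩
  ext y
  have h3 := hb y
  rw [Finset.sum_range] at h3
  rw [Pi.zero_apply, ← h3, Finset.sum_apply]
  refine Finset.sum_congr rfl fun i _ => ?_
  rw [Pi.smul_apply, smul_eq_mul, ← toEquiv_pow]
  rfl

theorem exists_norm (hr : r.Prime) (hσ : σ ≠ RingHom.id K) (h : ∀ x, σ^[r] x = x) {c : K}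
    (hc : σ c = c) : ∃ a : K, ∏ i ∈ Finset.range r, σ^[i] a = c := by
  classical
  obtain ⟨a, ha⟩ := FiniteField.norm_surjective (fixedSub σ) K ⟨c, hc⟩
  refine ⟨a, ?_⟩
  have h1 := congrArg (algebraMap (fixedSub σ) K) ha
  rw [Algebra.norm_eq_prod_automorphisms] at h1
  have h2 : algebraMap (fixedSub σ) K ⟨c, hc⟩ = c := rfl
  rw [h2] at h1
  rw [← h1, Finset.prod_range]
  have hord := orderOf_toEquiv hr hσ h
  have htop := (zpowers_top hr hσ h).2
  refine Finset.prod_bij (fun i _ => toEquiv σ ^ (i : ℕ)) (fun _ _ => Finset.mem_univ _) ?_ ?_ ?_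
  · intro i _ j _ hij
    exact Fin.ext (pow_injOn_Iio_orderOf (by rw [hord]; exact i.2) (by rw [hord]; exact j.2) hij)
  · intro τ _
    have h3 : τ ∈ Subgroup.zpowers (toEquiv σ) := by
      rw [htop]
      trivial
    rw [mem_zpowers_iff_mem_range_orderOf, Finset.mem_image] at h3
    obtain ⟨i, hi, hi'⟩ := h3
    rw [Finset.mem_range, hord] at hi
    exact ⟨⟨i, hi⟩, Finset.mem_univ _, hi'⟩
  · intro i _
    rw [toEquiv_pow]

end Field

end Pool.Agent.QFano
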