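import Pool.Agent.QFano.All4

set_option autoImplicit false
set_option linter.unusedSectionVars false

/-!
# Semilinear automorphisms of prime order: descent
-/

namespace Pool.Agent.QFano

open Module Submodule

section Descent

variable {K V : Type*} [Field K] [AddCommGroup V] [Module K V] {σ : K →+* K}
  {h : V →ₛₗ[σ] V} {r : ℕ}

theorem iter_add (n : ℕ) (v w : V) : h^[n] (v + w) = h^[n] v + h^[n] w := by
  induction n with
  | zero => rfl
  | succ n ih => rw [Function.iterate_succ_apply', ih, map_add, Function.iterate_succ_apply',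
      Function.iterate_succ_apply']

theorem iter_zero (n : ℕ) : h^[n] (0 : V) = 0 := by
  induction n with
  | zero => rfl
  | succ n ih => rw [Function.iterate_succ_apply', ih, map_zero]

theorem iter_smul (n : ℕ) (x : K) (v : V) : h^[n] (x • v) = σ^[n] x • h^[n] v := by
  induction n with
  | zero => rfl
  | succ n ih => rw [Function.iterate_succ_apply', ih, LinearMap.map_smulₛₗ,
      Function.iterate_succ_apply', Function.iterate_succ_apply']

theorem iter_sum {ι : Type*} (n : ℕ) (s : Finset ι) (v : ι → V) :
    h^[n] (∑ i ∈ s, v i) = ∑ i ∈ s, h^[n] (v i) := by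
  classical
  induction s using Finset.induction_on with
  | empty => simp [iter_zero]
  | insert a s ha ih => rw [Finset.sum_insert ha, Finset.sum_insert ha, iter_add, ih]

theorem iter_fix (n : ℕ) {v : V} (hv : h v = v) : h^[n] v = v := by
  induction n with
  | zero => rfl
  | succ n ih => rw [Function.iterate_succ_apply', ih, hv]

/-- the fixed vectors -/
def fixV (h : V →ₛₗ[σ] V) : Submodule (fixedSub σ) V where
  carrier := {v | h v = v}
  add_mem' := fun {a b} ha hb => by
    simp only [Set.mem_setOf_eq] at ha hb ⊢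
    rw [map_add, ha, hb]
  zero_mem' := map_zero h
  smul_mem' := fun c x hx => by
    simp only [Set.mem_setOf_eq] at hx ⊢
    have h1 : c • x = (c : K) • x := rfl
    have h2 : σ (c : K) = c := c.2
    rw [h1, LinearMap.map_smulₛₗ, hx, h2]

theorem mem_fixV {v : V} : v ∈ fixV h ↔ h v = v := Iff.rfl

variable [Finite K]

/-- **(i)** -/
theorem indep_of_fixed (hr : r.Prime) (hσ : σ ≠ RingHom.id K) (hσr : ∀ x, σ^[r] x = x)
    {ι : Type*} {v : ι → V} (hv : ∀ i, h (v i) = v i)
    (hli : LinearIndependent (fixedSub σ) v) : LinearIndependent K v := by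
  classical
  rw [linearIndependent_iff']
  intro s x hx i hi
  -- the trace
  have htr : ∀ y : K, σ (∑ j ∈ Finset.range r, σ^[j] y) = ∑ j ∈ Finset.range r, σ^[j] y := by
    intro y
    rw [map_sum]
    have h1 := Finset.sum_range_succ' (fun j => σ^[j] y) r
    have h2 := Finset.sum_range_succ (fun j => σ^[j] y) r
    rw [h2] at h1
    simp only [hσr, Function.iterate_zero, id, add_left_inj] at h1
    rw [h1]
    exact Finset.sum_congr rfl fun j _ => (Function.iterate_succ_apply' _ _ _).symm
  have key : ∀ y : K, ∑ j ∈ Finset.range r, σ^[j] (x i) * σ^[j] y = 0 := by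
    intro y
    have h1 : ∀ j : ℕ, ∑ k ∈ s, σ^[j] (y * x k) • v k = 0 := by
      intro j
      have h2 : h^[j] (y • ∑ k ∈ s, x k • v k) = 0 := by rw [hx, smul_zero, iter_zero]
      rw [Finset.smul_sum, iter_sum] at h2
      rw [← h2]
      refine Finset.sum_congr rfl fun k _ => ?_
      rw [smul_smul, iter_smul, iter_fix j (hv k)]
    have h3 : ∑ k ∈ s, (⟨∑ j ∈ Finset.range r, σ^[j] (y * x k), htr _⟩ : fixedSub σ) • v k
        = 0 := by
      have h4 : ∑ k ∈ s, (∑ j ∈ Finset.range r, σ^[j] (y * x k)) • v k = 0 := by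
        simp only [Finset.sum_smul]
        rw [Finset.sum_comm]
        exact Finset.sum_eq_zero fun j _ => h1 j
      exact h4
    have h5 := (linearIndependent_iff'.1 hli) s _ h3 i hi
    have h6 : ∑ j ∈ Finset.range r, σ^[j] (y * x i) = 0 := congrArg Subtype.val h5
    rw [← h6]
    refine Finset.sum_congr rfl fun j _ => ?_
    rw [iterate_map_mul, mul_comm]
  exact indep_pow hr hσ hσr _ key 0 hr.pos

/-- **(ii)** an invariant subspace is spanned by its fixed vectors -/
theorem mem_span_fixed (hr : r.Prime) (hσ : σ ≠ RingHom.id K) (hσr : ∀ x, σ^[r] x = x)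
    (hh : ∀ v, h^[r] v = v) {U : Submodule K V} (hU : ∀ u ∈ U, h u ∈ U) {v : V} (hv : v ∈ U) :
    v ∈ span K {w : V | w ∈ U ∧ h w = w} := by
  by_contra hcon
  obtain ⟨φ, hφ, hle⟩ := Submodule.exists_le_ker_of_notMem hcon
  apply hφ
  have hUn : ∀ (n : ℕ) u, u ∈ U → h^[n] u ∈ U := by
    intro n
    induction n with
    | zero => exact fun u hu => hu
    | succ n ih =>
      intro u hu
      rw [Function.iterate_succ_apply']
      exact hU _ (ih u hu)
  have key : ∀ y : K, ∑ j ∈ Finset.range r, φ (h^[j] v) * σ^[j] y = 0 := by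
    intro y
    set w := ∑ j ∈ Finset.range r, h^[j] (y • v) with hw
    have h1 : w ∈ U := sum_mem fun j _ => hUn j _ (U.smul_mem y hv)
    have h2 : h w = w := by
      rw [hw, map_sum]
      have h3 := Finset.sum_range_succ' (fun j => h^[j] (y • v)) r
      have h4 := Finset.sum_range_succ (fun j => h^[j] (y • v)) r
      rw [h4] at h3
      simp only [hh, Function.iterate_zero, id, add_left_inj] at h3
      rw [h3]
      exact Finset.sum_congr rfl fun j _ => (Function.iterate_succ_apply' _ _ _).symm
    have h5 : φ w = 0 := hle (subset_span ⟨h1, h2⟩)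
    rw [hw, map_sum] at h5
    rw [← h5]
    refine Finset.sum_congr rfl fun j _ => ?_
    rw [iter_smul, map_smul, smul_eq_mul, mul_comm]
  exact indep_pow hr hσ hσr _ key 0 hr.pos

/-- dimensions -/
theorem finrank_span_fixed [FiniteDimensional K V] (hr : r.Prime) (hσ : σ ≠ RingHom.id K)
    (hσr : ∀ x, σ^[r] x = x) (W : Submodule (fixedSub σ) V) (hW : W ≤ fixV h) :
    finrank K (span K (W : Set V)) = finrank (fixedSub σ) W := by
  classical
  have : Finite V := Module.finite_of_finite K
  have hfin : Module.Finite (fixedSub σ) V := Module.Finite.of_finite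
  let b := Module.finBasis (fixedSub σ) W
  have h1 : LinearIndependent (fixedSub σ) (fun i => (b i : V)) :=
    b.linearIndependent.map' W.subtype (ker_subtype W)
  have h2 : LinearIndependent K (fun i => (b i : V)) :=
    indep_of_fixed (h := h) hr hσ hσr (fun i => hW (b i).2) h1
  have h3 : span K (W : Set V) = span K (Set.range fun i => (b i : V)) := by
    apply le_antisymm
    · rw [span_le]
      intro w hw
      have h4 := b.sum_repr ⟨w, hw⟩
      have h5 := congrArg Subtype.val h4
      rw [AddSubmonoidClass.coe_finset_sum] at h5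
      change ∑ i, (((b.repr ⟨w, hw⟩ i) • b i : W) : V) = w at h5
      rw [← h5]
      refine sum_mem fun i _ => ?_
      exact smul_mem _ ((b.repr ⟨w, hw⟩ i : fixedSub σ) : K) (subset_span ⟨i, rfl⟩)
    · rw [span_le]
      rintro _ ⟨i, rfl⟩
      exact subset_span (b i).2
  rw [h3, finrank_span_eq_card h2, Fintype.card_fin]

end Descent

end Pool.Agent.QFano
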