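import Pool.Agent.QFano.All5

set_option autoImplicit false
set_option linter.unusedSectionVars false

/-!
# Automorphisms of prime order, all of them
-/

namespace Pool.Agent.QFano

open Module Submodule

section

variable {K V : Type*} [Field K] [AddCommGroup V] [Module K V]

variable [Finite K] [FiniteDimensional K V] {D : Set (Submodule K V)}

theorem IsQFano.baer (hD : IsQFano D) {σ : K →+* K} (g : V →ₛₗ[σ] V)
    (hg : Function.Injective g) (hgD : ∀ U ∈ D, ∃ U' ∈ D, ∀ u ∈ U, g u ∈ U')
    {r : ℕ} (hr : r.Prime) {c : K} (hgr : ∀ v, g^[r] v = c • v) (hσ : σ ≠ RingHom.id K) :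
    BaerType D g r := by
  classical
  have hnt := hD.nontrivial
  have hdim := hD.dim
  have : Finite V := Module.finite_of_finite K
  have hfin : Module.Finite (fixedSub σ) V := Module.Finite.of_finite
  obtain ⟨v₀, hv₀⟩ := exists_ne (0 : V)
  have hiter : ∀ (n : ℕ) v, v ≠ 0 → g^[n] v ≠ 0 := by
    intro n
    induction n with
    | zero => exact fun v hv => hv
    | succ n ih =>
      intro v hv h0
      rw [Function.iterate_succ_apply'] at h0
      exact ih v hv (hg (by rw [h0, map_zero]))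
  have hc0 : c ≠ 0 := by
    rintro rfl
    exact hiter r v₀ hv₀ (by rw [hgr, zero_smul])
  have hσr : ∀ x, σ^[r] x = x := by
    intro x
    have h1 := iter_smul (h := g) r x v₀
    rw [hgr, hgr, smul_smul, smul_smul] at h1
    have h2 : c * x = σ^[r] x * c := smul_left_injective K hv₀ h1
    rw [mul_comm] at h2
    exact (mul_right_cancel₀ hc0 h2).symm
  have hσc : σ c = c := by
    have h1 : g (g^[r] v₀) = g^[r] (g v₀) := by
      rw [← Function.iterate_succ_apply' g, Function.iterate_succ_apply g]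
    rw [hgr, hgr, LinearMap.map_smulₛₗ] at h1
    have hgv : g v₀ ≠ 0 := hiter 1 v₀ hv₀
    exact smul_left_injective K hgv h1
  obtain ⟨a, ha⟩ := exists_norm hr hσ hσr hσc
  have ha0 : a ≠ 0 := by
    rintro rfl
    apply hc0
    rw [← ha]
    refine Finset.prod_eq_zero (Finset.mem_range.2 hr.pos) ?_
    rfl
  have ha1 : a⁻¹ ≠ 0 := inv_ne_zero ha0
  set h : V →ₛₗ[σ] V := a⁻¹ • g with hh
  have happ : ∀ v, h v = a⁻¹ • g v := fun v => rfl
  have hfix : ∀ v, h v = v ↔ g v = a • v := by
    intro v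
    rw [happ]
    constructor
    · intro h1
      rw [← h1, smul_smul, mul_inv_cancel₀ ha0, one_smul, h1]
    · intro h1
      rw [h1, smul_smul, inv_mul_cancel₀ ha0, one_smul]
  have hpow : ∀ (n : ℕ) v, h^[n] v = (∏ i ∈ Finset.range n, σ^[i] a)⁻¹ • g^[n] v := by
    intro n
    induction n with
    | zero => intro v; simp
    | succ n ih =>
      intro v
      rw [Function.iterate_succ_apply', ih, happ, LinearMap.map_smulₛₗ, smul_smul,
        ← Function.iterate_succ_apply' g, map_inv₀, map_prod, ← mul_inv]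
      congr 2
      rw [Finset.prod_range_succ' , mul_comm]
      congr 1
      exact Finset.prod_congr rfl fun j _ => (Function.iterate_succ_apply' _ _ _).symm
  have hhr : ∀ v, h^[r] v = v := by
    intro v
    rw [hpow, ha, hgr, smul_smul, inv_mul_cancel₀ hc0, one_smul]
  -- invariant subspaces
  have hinvU : ∀ U : Submodule K V, (∀ u ∈ U, g u ∈ U) → ∀ u ∈ U, h u ∈ U :=
    fun U hU u hu => U.smul_mem _ (hU u hu)
  have hspanU : ∀ U : Submodule K V, (∀ u ∈ U, g u ∈ U) →
      span K {w : V | w ∈ U ∧ h w = w} = U := by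
    intro U hU
    apply le_antisymm
    · rw [span_le]
      exact fun w hw => hw.1
    · exact fun v hv => mem_span_fixed hr hσ hσr hhr (hinvU U hU) hv
  refine ⟨(zpowers_top hr hσ hσr).1, a, ha0, fixV h, fun v => hfix v, ?_, ?_⟩
  · rw [← hspanU ⊤ (fun _ _ => trivial)]
    congr 1
    ext v
    exact ⟨fun hv => ⟨trivial, hv⟩, fun hv => hv.2⟩
  -- the restriction of an invariant subspace
  have hrestr : ∀ (U : Submodule K V) (B₀ : Submodule (fixedSub σ) (fixV h)),
      (∀ u ∈ U, g u ∈ U) → (∀ v : fixV h, v ∈ B₀ ↔ (v : V) ∈ U) →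
      finrank (fixedSub σ) B₀ = finrank K U := by
    intro U B₀ hU hB₀
    have h1 := finrank_span_fixed (h := h) hr hσ hσr (B₀.map (fixV h).subtype) (by
      rintro _ ⟨w, -, rfl⟩
      exact w.2)
    have h2 : span K ((B₀.map (fixV h).subtype : Submodule (fixedSub σ) V) : Set V) = U := by
      rw [← hspanU U hU]
      congr 1
      ext v
      constructor
      · rintro ⟨w, hw, rfl⟩
        exact ⟨(hB₀ w).1 hw, w.2⟩
      · rintro ⟨hv, hv'⟩
        exact ⟨⟨v, hv'⟩, (hB₀ ⟨v, hv'⟩).2 hv, rfl⟩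
    rw [LinearEquiv.finrank_eq (Submodule.equivMapOfInjective (fixV h).subtype
      (injective_subtype _) B₀), ← h1, h2]
  refine ⟨?_, ?_, ?_⟩
  · rw [← finrank_top, hrestr ⊤ ⊤ (fun _ _ => trivial) (fun _ => by simp), finrank_top, hdim]
  · rintro B₀ ⟨B, hB, hBi, hB₀⟩
    rw [hrestr B B₀ hBi hB₀, hD.block B hB]
  · intro W hW
    set L : Submodule K V :=
      span K ((W.map (fixV h).subtype : Submodule (fixedSub σ) V) : Set V) with hL
    have hL2 : finrank K L = 2 := by
      rw [hL, finrank_span_fixed (h := h) hr hσ hσr (W.map (fixV h).subtype) (by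
        rintro _ ⟨w, -, rfl⟩
        exact w.2), ← LinearEquiv.finrank_eq (Submodule.equivMapOfInjective (fixV h).subtype
        (injective_subtype _) W), hW]
    have hWL : ∀ w : fixV h, w ∈ W → (w : V) ∈ L := fun w hw => subset_span ⟨w, hw, rfl⟩
    obtain ⟨B, ⟨hB, hLB⟩, huniq⟩ := hD.cover L hL2
    have hBi : ∀ u ∈ B, g u ∈ B := by
      obtain ⟨B', hB', hBB'⟩ := hgD B hB
      have hLB' : L ≤ B' := by
        rw [hL, span_le]
        rintro _ ⟨w, hw, rfl⟩
        have h1 : g (w : V) = a • (w : V) := (hfix w).1 w.2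
        have h2 : g (w : V) ∈ B' := hBB' _ (hLB (hWL w hw))
        rw [h1] at h2
        exact (B'.smul_mem_iff ha0).1 h2
      have h3 := huniq B' ⟨hB', hLB'⟩
      intro u hu
      rw [← h3]
      exact hBB' u hu
    refine ⟨{ carrier := {v | (v : V) ∈ B}
              add_mem' := fun {x y} hx hy => B.add_mem hx hy
              zero_mem' := B.zero_mem
              smul_mem' := fun c x hx => B.smul_mem (c : K) hx }, ⟨⟨B, hB, hBi, fun v => Iff.rfl⟩,
      fun w hw => hLB (hWL w hw)⟩, ?_⟩
    rintro B₁ ⟨⟨B', hB', -, hB₁⟩, hWB₁⟩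
    have h3 : B' = B := by
      refine huniq B' ⟨hB', ?_⟩
      rw [hL, span_le]
      rintro _ ⟨w, hw, rfl⟩
      exact (hB₁ w).1 (hWB₁ hw)
    ext v
    rw [hB₁ v, h3]
    exact Iff.rfl

end

end Pool.Agent.QFano
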