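import Mathlib

/-!
# MP_b24993_co: basic facts on 2-(7,3,1)_q designs (q-analogs of the Fano plane)
-/

set_option autoImplicit false

namespace Pool.Agent.QFano

open Module Submodule

variable {K V : Type*} [Field K] [AddCommGroup V] [Module K V]

/-- `D` is the set of blocks of a subspace design with parameters `2-(7,3,1)_q` on `V`. -/
structure IsQFano (D : Set (Submodule K V)) : Prop where
  dim : finrank K V = 7
  block : ∀ U ∈ D, finrank K U = 3
  cover : ∀ W : Submodule K V, finrank K W = 2 → ∃! U : Submodule K V, U ∈ D ∧ W ≤ U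

/-- `g` is an automorphism of `D`. -/
def IsAut (D : Set (Submodule K V)) (g : End K V) : Prop :=
  Function.Injective g ∧ ∀ U ∈ D, U.map g ∈ D

/-- `U` is invariant under `g`. -/
def Inv (g : End K V) (U : Submodule K V) : Prop := ∀ u ∈ U, g u ∈ U

section General

/-- A subspace which is covered by two subspaces is contained in one of them. -/
theorem exists_not_mem_two (E A B : Submodule K V) (hA : ¬ E ≤ A) (hB : ¬ E ≤ B) :
    ∃ x ∈ E, x ∉ A ∧ x ∉ B := by
  obtain ⟨x, hxE, hxA⟩ := Set.not_subset.1 hA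
  obtain ⟨y, hyE, hyB⟩ := Set.not_subset.1 hB
  by_cases hxB : x ∈ B
  · by_cases hyA : y ∈ A
    · refine ⟨x + y, E.add_mem hxE hyE, ?_, ?_⟩
      · intro h
        exact hxA (by simpa using A.sub_mem h hyA)
      · intro h
        exact hyB (by simpa using B.sub_mem h hxB)
    · exact ⟨y, hyE, hyA, hyB⟩
  · exact ⟨x, hxE, hxA, hxB⟩

theorem finrank_pair {x y : V} (hx : x ≠ 0) (hy : y ∉ K ∙ x) :
    finrank K (span K {x, y}) = 2 := by
  have h : LinearIndependent K ![x, y] := by
    rw [LinearIndependent.pair_iff' hx]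
    intro a ha
    exact hy (mem_span_singleton.2 ⟨a, ha⟩)
  have h2 := finrank_span_eq_card h
  have hr : Set.range ![x, y] = {x, y} := by
    ext z
    simp only [Set.mem_range, Fin.exists_fin_two, Matrix.cons_val_zero, Matrix.cons_val_one,
      Set.mem_insert_iff, Set.mem_singleton_iff, eq_comm]
  rw [hr, Fintype.card_fin] at h2
  exact h2

theorem exists_pair {W : Submodule K V} (h : 2 ≤ finrank K W) (x : V) :
    ∃ y ∈ W, y ∉ K ∙ x := by
  by_contra hcon
  push Not at hcon
  have h1 : W ≤ K ∙ x := hcon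
  have h2 := finrank_mono h1
  have h3 := finrank_span_le_card (R := K) ({x} : Set V)
  simp at h3
  omega

theorem exists_ne_zero {W : Submodule K V} (h : 1 ≤ finrank K W) : ∃ x ∈ W, x ≠ 0 := by
  by_contra hcon
  push Not at hcon
  have : W = ⊥ := by
    rw [eq_bot_iff]
    exact fun x hx => by simpa using hcon x hx
  rw [this, finrank_bot] at h
  omega

theorem pair_le {W : Submodule K V} {x y : V} (hx : x ∈ W) (hy : y ∈ W) :
    span K {x, y} ≤ W := by
  rw [span_le]
  rintro z (rfl | rfl)
  · exact hx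
  · exact hy

variable [FiniteDimensional K V]

theorem finrank_inf_ge (A B : Submodule K V) :
    finrank K A + finrank K B ≤ finrank K (A ⊓ B : Submodule K V) + finrank K V := by
  have h := finrank_sup_add_finrank_inf_eq A B
  have h2 := finrank_le (A ⊔ B)
  omega

theorem finrank_inf_ge' (A B F : Submodule K V) (hA : A ≤ F) (hB : B ≤ F) :
    finrank K A + finrank K B ≤ finrank K (A ⊓ B : Submodule K V) + finrank K F := by
  have h := finrank_sup_add_finrank_inf_eq A B
  have h2 := finrank_mono (sup_le hA hB)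
  omega

theorem finrank_lt_of_not_le {A B : Submodule K V} (h : ¬ A ≤ B) :
    finrank K (A ⊓ B : Submodule K V) < finrank K A := by
  refine finrank_lt_finrank_of_lt (lt_of_le_of_ne inf_le_left ?_)
  intro he
  exact h (inf_eq_left.1 he)

/-- complement decomposition with respect to a hyperplane -/
theorem hyperplane_decomp {H : Submodule K V} (hH : finrank K H + 1 = finrank K V) {v : V}
    (hv : v ∉ H) (x : V) : ∃ c : K, ∃ h ∈ H, x = c • v + h := by
  have h1 : H ⊔ (K ∙ v) = ⊤ := by
    refine eq_top_of_finrank_eq ?_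
    have h2 : finrank K H < finrank K (H ⊔ (K ∙ v) : Submodule K V) := by
      refine finrank_lt_finrank_of_lt (lt_of_le_of_ne le_sup_left ?_)
      intro he
      apply hv
      rw [he]
      exact mem_sup_right (mem_span_singleton_self v)
    have h3 := finrank_le (H ⊔ (K ∙ v))
    omega
  have hx : x ∈ H ⊔ (K ∙ v) := by
    rw [h1]
    trivial
  obtain ⟨h, hh, w, hw, rfl⟩ := mem_sup.1 hx
  obtain ⟨c, rfl⟩ := mem_span_singleton.1 hw
  exact ⟨c, h, hh, add_comm _ _⟩

end General

section Design

variable {D : Set (Submodule K V)}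

theorem IsQFano.exists_block (hD : IsQFano D) {x y : V} (hx : x ≠ 0) (hy : y ∉ K ∙ x) :
    ∃ U ∈ D, x ∈ U ∧ y ∈ U := by
  obtain ⟨U, ⟨hU, hle⟩, -⟩ := hD.cover _ (finrank_pair hx hy)
  exact ⟨U, hU, hle (subset_span (by simp)), hle (subset_span (by simp))⟩

theorem IsQFano.eq_of_mem (hD : IsQFano D) {U U' : Submodule K V} (hU : U ∈ D) (hU' : U' ∈ D)
    {x y : V} (hx : x ≠ 0) (hy : y ∉ K ∙ x) (h1 : x ∈ U) (h2 : y ∈ U) (h3 : x ∈ U')
    (h4 : y ∈ U') : U = U' :=
  (hD.cover _ (finrank_pair hx hy)).unique ⟨hU, pair_le h1 h2⟩ ⟨hU', pair_le h3 h4⟩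

theorem IsQFano.eq_of_finrank (hD : IsQFano D) {U U' : Submodule K V} (hU : U ∈ D)
    (hU' : U' ∈ D) (h : 2 ≤ finrank K (U ⊓ U' : Submodule K V)) : U = U' := by
  obtain ⟨x, hx, hx0⟩ := exists_ne_zero (W := U ⊓ U') (by omega)
  obtain ⟨y, hy, hyx⟩ := exists_pair h x
  exact hD.eq_of_mem hU hU' hx0 hyx hx.1 hy.1 hx.2 hy.2

variable [FiniteDimensional K V]

/-- Two blocks in a common subspace of dimension at most `4` are equal. -/
theorem IsQFano.eq_of_le (hD : IsQFano D) {U U' F : Submodule K V} (hU : U ∈ D)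
    (hU' : U' ∈ D) (hF : finrank K F ≤ 4) (h1 : U ≤ F) (h2 : U' ≤ F) : U = U' := by
  refine hD.eq_of_finrank hU hU' ?_
  have h3 := finrank_inf_ge' U U' F h1 h2
  have h4 := hD.block U hU
  have h5 := hD.block U' hU'
  omega

/-- The block of an invariant `2`-space is invariant. -/
theorem IsQFano.inv_block (hD : IsQFano D) {g : End K V} (hg : IsAut D g)
    {L U : Submodule K V} (hL : finrank K L = 2) (hLU : L ≤ U) (hU : U ∈ D)
    (hinv : Inv g L) : Inv g U := by
  have h1 : L.map g = L := by
    refine eq_of_le_of_finrank_eq ?_ ?_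
    · rintro _ ⟨x, hx, rfl⟩
      exact hinv x hx
    · exact LinearEquiv.finrank_eq (Submodule.equivMapOfInjective g hg.1 L).symm
  have h2 : U.map g = U := by
    refine (hD.cover L hL).unique ⟨hg.2 U hU, ?_⟩ ⟨hU, hLU⟩
    rw [← h1]
    exact map_mono hLU
  intro u hu
  rw [← h2]
  exact ⟨u, hu, rfl⟩

theorem IsQFano.inv_block' (hD : IsQFano D) {g : End K V} (hg : IsAut D g)
    {L U : Submodule K V} (hL : 2 ≤ finrank K L) (hLU : L ≤ U) (hU : U ∈ D)
    (hinv : Inv g L) : Inv g U := by
  have h3 := hD.block U hU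
  have h4 := finrank_mono hLU
  rcases Nat.lt_or_ge 2 (finrank K L) with h | h
  · have : L = U := eq_of_le_of_finrank_eq hLU (by omega)
    rw [← this]
    exact hinv
  · exact hD.inv_block hg (by omega) hLU hU hinv

/-- **L1** -/
theorem IsQFano.L1 (hD : IsQFano D) {g : End K V} (hg : IsAut D g) {p : V} (hp : p ≠ 0)
    {H : Submodule K V} (hH : finrank K H = 6) (hpH : p ∈ H) (s : K)
    (hs : ∀ h ∈ H, g h - s • h ∈ K ∙ p) (v : V) : g v - s • v ∈ K ∙ p := by
  by_contra hv
  have hvH : v ∉ H := fun h => hv (hs v h)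
  set y := g v - s • v with hy
  obtain ⟨B', hB', hpB', hyB'⟩ := hD.exists_block hp hv
  have hdim := hD.dim
  have key : ∀ X, X ∉ H → X ∈ B' := by
    intro X hX
    have hXp : X ∉ K ∙ p := fun h => hX ((span_singleton_le_iff_mem p H).2 hpH h)
    obtain ⟨B, hB, hpB, hXB⟩ := hD.exists_block hp hXp
    have hBH : ¬ B ≤ H := fun h => hX (h hXB)
    have h3 := hD.block B hB
    have h4 := finrank_inf_ge B H
    have h5 := finrank_lt_of_not_le hBH
    have hL : finrank K (B ⊓ H : Submodule K V) = 2 := by omega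
    have hle : (K ∙ p) ≤ B := (span_singleton_le_iff_mem p B).2 hpB
    have hle2 : (K ∙ p) ≤ H := (span_singleton_le_iff_mem p H).2 hpH
    have hinv : Inv g (B ⊓ H) := by
      intro h hh
      have h6 := hs h hh.2
      have h7 : g h = (g h - s • h) + s • h := by abel
      rw [h7]
      exact ⟨B.add_mem (hle h6) (B.smul_mem s hh.1), H.add_mem (hle2 h6) (H.smul_mem s hh.2)⟩
    have hBinv := hD.inv_block hg hL inf_le_left hB hinv
    obtain ⟨c, h, hh, hXe⟩ := hyperplane_decomp (H := H) (by omega) hvH X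
    have hc : c ≠ 0 := by
      rintro rfl
      apply hX
      rw [hXe]
      simpa using hh
    have hmem : g X - s • X ∈ B := B.sub_mem (hBinv X hXB) (B.smul_mem s hXB)
    have he : g X - s • X = c • y + (g h - s • h) := by
      rw [hXe, hy, map_add, map_smul, smul_sub, smul_add, smul_comm s c v]
      abel
    have hcy : c • y ∈ B := by
      have h8 : c • y = (g X - s • X) - (g h - s • h) := by rw [he]; abel
      rw [h8]
      exact B.sub_mem hmem (hle (hs h hh))
    have hyB : y ∈ B := (B.smul_mem_iff hc).1 hcy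
    have : B = B' := hD.eq_of_mem hB hB' hp hv hpB hyB hpB' hyB'
    rw [← this]
    exact hXB
  obtain ⟨x, -, hxH, hxB⟩ := exists_not_mem_two (⊤ : Submodule K V) H B'
    (fun h => by
      have := finrank_mono h
      rw [finrank_top] at this
      omega)
    (fun h => by
      have := finrank_mono h
      have h2 := hD.block B' hB'
      rw [finrank_top] at this
      omega)
  exact hxB (key x hxH)

/-- **L2** -/
theorem IsQFano.L2 (hD : IsQFano D) {g : End K V} (hg : IsAut D g) {p : V} (hp : p ≠ 0)
    {H : Submodule K V} (hH : finrank K H = 6) (hpH : p ∈ H) (s : K)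
    (hs : ∀ h ∈ H, g h - s • h ∈ K ∙ p) (v : V) : g v = s • v := by
  have hdim := hD.dim
  have h1 := hD.L1 hg hp hH hpH s hs
  set N : End K V := g - algebraMap K (End K V) s with hN
  have hNv : ∀ v, N v = g v - s • v := fun v => by simp [hN]
  have hrange : LinearMap.range N ≤ K ∙ p := by
    rintro _ ⟨w, rfl⟩
    rw [hNv]
    exact h1 w
  by_cases hN0 : N = 0
  · have := hNv v
    rw [hN0] at this
    have h2 : g v - s • v = 0 := by simpa using this.symm
    exact sub_eq_zero.1 h2
  · exfalso
    have hk : finrank K (LinearMap.range N) + finrank K (LinearMap.ker N) = finrank K V :=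
      LinearMap.finrank_range_add_finrank_ker N
    have hr := finrank_mono hrange
    have hr2 := finrank_span_le_card (R := K) ({p} : Set V)
    simp only [Set.toFinset_singleton, Finset.card_singleton] at hr2
    have hker : 6 ≤ finrank K (LinearMap.ker N) := by omega
    have hr0 : finrank K (LinearMap.range N) ≠ 0 := by
      intro h
      apply hN0
      have := Submodule.finrank_eq_zero.1 h
      exact LinearMap.range_eq_bot.1 this
    have hker6 : finrank K (LinearMap.ker N) = 6 := by omega
    -- a point of the kernel different from `p`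
    obtain ⟨p', hp'1, hp'2⟩ : ∃ p' ∈ LinearMap.ker N, p' ∉ K ∙ p := by
      by_contra hcon
      push Not at hcon
      have := finrank_mono (s := LinearMap.ker N) (t := K ∙ p) hcon
      omega
    have hp'0 : p' ≠ 0 := by
      rintro rfl
      exact hp'2 (zero_mem _)
    have h5 : ∀ h ∈ LinearMap.ker N, g h - s • h ∈ K ∙ p' := by
      intro h hh
      rw [← hNv, LinearMap.mem_ker.1 hh]
      exact zero_mem _
    have h6 := hD.L1 hg hp'0 hker6 hp'1 s h5
    apply hN0
    ext w
    have h7 := h1 w
    have h8 := h6 w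
    rw [hNv, LinearMap.zero_apply]
    obtain ⟨a, ha⟩ := mem_span_singleton.1 h7
    obtain ⟨b, hb⟩ := mem_span_singleton.1 h8
    by_cases hb0 : b = 0
    · rw [← hb, hb0, zero_smul]
    · exfalso
      apply hp'2
      have h9 : p' = (b⁻¹ * a) • p := by
        rw [mul_smul, ha, ← hb, smul_smul, inv_mul_cancel₀ hb0, one_smul]
      rw [h9]
      exact smul_mem _ _ (mem_span_singleton_self p)

end Design

end Pool.Agent.QFano
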