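import Pool.Agent.QFano.Basic

/-!
# MP_b24993_co: automorphisms with a large eigenspace
-/

set_option autoImplicit false

namespace Pool.Agent.QFano

open Module Submodule

section Count

variable {K V : Type*} [Field K] [Finite K] [AddCommGroup V] [Module K V] [FiniteDimensional K V]

omit [Finite K] in
theorem card_sub (W : Submodule K V) : Nat.card W = Nat.card K ^ finrank K W :=
  Module.natCard_eq_pow_finrank

theorem two_le_card : 2 ≤ Nat.card K := Finite.one_lt_card

/-- the number of the vectors of `A` outside `B`, for `B ≤ A` -/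
theorem card_diff [Fintype V] [DecidableEq V] {A B : Submodule K V} (h : B ≤ A)
    [DecidablePred fun v => v ∈ A ∧ v ∉ B] :
    ((Finset.univ.filter fun v => v ∈ A ∧ v ∉ B).card : ℤ) =
      (Nat.card K : ℤ) ^ finrank K A - (Nat.card K : ℤ) ^ finrank K B := by
  classical
  have h1 : (Finset.univ.filter fun v => v ∈ A ∧ v ∉ B) =
      (Finset.univ.filter fun v => v ∈ A) \ (Finset.univ.filter fun v => v ∈ B) := by
    ext v
    simp
  have hA : (Finset.univ.filter fun v => v ∈ A).card = Nat.card K ^ finrank K A := by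
    rw [← card_sub, Nat.card_eq_fintype_card]
    exact (Fintype.card_of_subtype _ (by simp)).symm
  have hB : (Finset.univ.filter fun v => v ∈ B).card = Nat.card K ^ finrank K B := by
    rw [← card_sub, Nat.card_eq_fintype_card]
    exact (Fintype.card_of_subtype _ (by simp)).symm
  have h2 : (Finset.univ.filter fun v => v ∈ B) ⊆ (Finset.univ.filter fun v => v ∈ A) := by
    intro v hv
    simp only [Finset.mem_filter, Finset.mem_univ, true_and] at hv ⊢
    exact h hv
  rw [h1, Finset.card_sdiff_of_subset h2, Nat.cast_sub (Finset.card_le_card h2), hA, hB]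
  push_cast
  rfl

end Count

section

variable {K V : Type*} [Field K] [Finite K] [AddCommGroup V] [Module K V] [FiniteDimensional K V]
  {D : Set (Submodule K V)}

/-- **L3** -/
theorem IsQFano.L3 (hD : IsQFano D) {E : Submodule K V} (hE : finrank K E = 5)
    (h : ∀ U ∈ D, 2 ≤ finrank K (U ⊓ E : Submodule K V) → U ≤ E) : False := by
  classical
  have : Finite V := Module.finite_of_finite K
  let _ : Fintype V := Fintype.ofFinite V
  obtain ⟨x, hxE, hx0⟩ := exists_ne_zero (W := E) (by omega)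
  obtain ⟨y, hyE, hyx⟩ := exists_pair (W := E) (by omega) x
  obtain ⟨B0, hB0, hxB, hyB⟩ := hD.exists_block hx0 hyx
  have hpair : ∀ (U : Submodule K V) (a b : V), a ≠ 0 → b ∉ K ∙ a → a ∈ U → b ∈ U →
      a ∈ E → b ∈ E → 2 ≤ finrank K (U ⊓ E : Submodule K V) := by
    intro U a b ha hb h1 h2 h3 h4
    have h5 : span K {a, b} ≤ U ⊓ E := pair_le ⟨h1, h3⟩ ⟨h2, h4⟩
    have h6 := finrank_mono h5
    rw [finrank_pair ha hb] at h6
    exact h6
  have hB0E : B0 ≤ E := h B0 hB0 (hpair B0 x y hx0 hyx hxB hyB hxE hyE)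
  have hB03 := hD.block B0 hB0
  obtain ⟨z, hzE, hzB⟩ : ∃ z ∈ E, z ∉ B0 := by
    by_contra hcon
    push Not at hcon
    have := finrank_mono (s := E) (t := B0) hcon
    omega
  have hz0 : z ≠ 0 := by
    rintro rfl
    exact hzB (zero_mem _)
  have hzE' : (K ∙ z) ≤ E := (span_singleton_le_iff_mem z E).2 hzE
  have hz1 : finrank K (K ∙ z) = 1 := finrank_span_singleton hz0
  let S : Finset V := Finset.univ.filter fun v => v ∈ E ∧ v ∉ K ∙ z
  let T : Finset V := Finset.univ.filter fun v => v ∈ B0 ∧ v ∉ (⊥ : Submodule K V)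
  let R : V → V → Prop := fun r w => ∃ U ∈ D, z ∈ U ∧ r ∈ U ∧ w ∈ U
  have hcount := Finset.sum_card_bipartiteAbove_eq_sum_card_bipartiteBelow (s := T) (t := S) R
  have hS : (S.card : ℤ) = (Nat.card K : ℤ) ^ 5 - (Nat.card K : ℤ) := by
    rw [card_diff hzE', hE, hz1, pow_one]
  have hT : (T.card : ℤ) = (Nat.card K : ℤ) ^ 3 - 1 := by
    rw [card_diff bot_le, hB03, finrank_bot, pow_zero]
  -- for fixed `r`
  have h1 : ∀ r ∈ T, ((S.bipartiteAbove R r).card : ℤ) = (Nat.card K : ℤ) ^ 3 - Nat.card K := by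
    intro r hr
    simp only [T, Finset.mem_filter, Finset.mem_univ, true_and, mem_bot] at hr
    have hrz : r ∉ K ∙ z := by
      intro hmem
      obtain ⟨c, hc⟩ := mem_span_singleton.1 hmem
      have hc0 : c ≠ 0 := by
        rintro rfl
        exact hr.2 (by rw [← hc, zero_smul])
      apply hzB
      have : z = c⁻¹ • r := by rw [← hc, smul_smul, inv_mul_cancel₀ hc0, one_smul]
      rw [this]
      exact B0.smul_mem _ hr.1
    obtain ⟨U, hU, hzU, hrU⟩ := hD.exists_block hz0 hrz
    have hUE : U ≤ E := h U hU (hpair U z r hz0 hrz hzU hrU hzE (hB0E hr.1))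
    have he : S.bipartiteAbove R r = Finset.univ.filter fun v => v ∈ U ∧ v ∉ K ∙ z := by
      ext v
      simp only [S, Finset.bipartiteAbove, Finset.mem_filter, Finset.mem_univ, true_and, R]
      constructor
      · rintro ⟨⟨hvE, hvz⟩, U', hU', hzU', hrU', hvU'⟩
        have : U = U' := hD.eq_of_mem hU hU' hz0 hrz hzU hrU hzU' hrU'
        exact ⟨this ▸ hvU', hvz⟩
      · rintro ⟨hvU, hvz⟩
        exact ⟨⟨hUE hvU, hvz⟩, U, hU, hzU, hrU, hvU⟩
    rw [he, card_diff ((span_singleton_le_iff_mem z U).2 hzU), hD.block U hU, hz1, pow_one]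
  -- for fixed `w`
  have h2 : ∀ w ∈ S, ((T.bipartiteBelow R w).card : ℤ) = (Nat.card K : ℤ) - 1 := by
    intro w hw
    simp only [S, Finset.mem_filter, Finset.mem_univ, true_and] at hw
    obtain ⟨U, hU, hzU, hwU⟩ := hD.exists_block hz0 hw.2
    have hUE : U ≤ E := h U hU (hpair U z w hz0 hw.2 hzU hwU hzE hw.1)
    have h3 := hD.block U hU
    have h4 : 1 ≤ finrank K (U ⊓ B0 : Submodule K V) := by
      have := finrank_inf_ge' U B0 E hUE hB0E
      omega
    have h5 : finrank K (U ⊓ B0 : Submodule K V) < 2 := by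
      by_contra hcon
      have : U = B0 := hD.eq_of_finrank hU hB0 (by omega)
      exact hzB (this ▸ hzU)
    have he : T.bipartiteBelow R w =
        Finset.univ.filter fun v => v ∈ U ⊓ B0 ∧ v ∉ (⊥ : Submodule K V) := by
      ext v
      simp only [T, Finset.bipartiteBelow, Finset.mem_filter, Finset.mem_univ, true_and, R,
        mem_inf]
      constructor
      · rintro ⟨⟨hvB, hv0⟩, U', hU', hzU', hvU', hwU'⟩
        have : U = U' := hD.eq_of_mem hU hU' hz0 hw.2 hzU hwU hzU' hwU'
        exact ⟨⟨this ▸ hvU', hvB⟩, hv0⟩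
      · rintro ⟨⟨hvU, hvB⟩, hv0⟩
        exact ⟨⟨hvB, hv0⟩, U, hU, hzU, hvU, hwU⟩
    rw [he, card_diff bot_le, finrank_bot, pow_zero]
    have : finrank K (U ⊓ B0 : Submodule K V) = 1 := by omega
    rw [this, pow_one]
  have h3 : ((∑ a ∈ T, (S.bipartiteAbove R a).card : ℕ) : ℤ) =
      ((Nat.card K : ℤ) ^ 3 - 1) * ((Nat.card K : ℤ) ^ 3 - Nat.card K) := by
    push_cast
    rw [Finset.sum_congr rfl h1, Finset.sum_const, nsmul_eq_mul, hT]
  have h4 : ((∑ b ∈ S, (T.bipartiteBelow R b).card : ℕ) : ℤ) =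
      ((Nat.card K : ℤ) ^ 5 - Nat.card K) * ((Nat.card K : ℤ) - 1) := by
    push_cast
    rw [Finset.sum_congr rfl h2, Finset.sum_const, nsmul_eq_mul, hS]
  rw [hcount, h4] at h3
  have hq : (2 : ℤ) ≤ Nat.card K := by exact_mod_cast two_le_card (K := K)
  generalize (Nat.card K : ℤ) = q at h3 hq
  have h5 : q * (q - 1) * (q ^ 3 - q) = 0 := by linear_combination -h3
  have h6 : 0 < q * (q - 1) * (q ^ 3 - q) := by
    have h7 : q ^ 3 - q = q * ((q - 1) * (q + 1)) := by ring
    rw [h7]
    have : 0 < q - 1 := by linarith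
    positivity
  omega

/-- `g - s` -/
abbrev sh (g : End K V) (s : K) : End K V := g - algebraMap K (End K V) s

omit [Finite K] [FiniteDimensional K V] in
theorem sh_apply (g : End K V) (s : K) (v : V) : sh g s v = g v - s • v := by
  simp [sh]

omit [Finite K] [FiniteDimensional K V] in
theorem mem_ker_sh {g : End K V} {s : K} {v : V} :
    v ∈ LinearMap.ker (sh g s) ↔ g v = s • v := by
  rw [LinearMap.mem_ker, sh_apply, sub_eq_zero]

omit [Finite K] [FiniteDimensional K V] in
theorem inv_of_le_ker {g : End K V} {s : K} {L : Submodule K V}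
    (h : L ≤ LinearMap.ker (sh g s)) : Inv g L := by
  intro u hu
  rw [mem_ker_sh.1 (h hu)]
  exact L.smul_mem s hu

omit [Finite K] [FiniteDimensional K V] in
theorem Inv.sh {g : End K V} {L : Submodule K V} (h : Inv g L) (s : K) : Inv (sh g s) L := by
  intro u hu
  rw [sh_apply]
  exact L.sub_mem (h u hu) (L.smul_mem s hu)

omit [Finite K] in
theorem finrank_sup_span {E : Submodule K V} {v : V} (hv : v ∉ E) :
    finrank K (E ⊔ (K ∙ v) : Submodule K V) = finrank K E + 1 := by
  have hv0 : v ≠ 0 := by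
    rintro rfl
    exact hv (zero_mem _)
  have h1 := finrank_sup_add_finrank_inf_eq E (K ∙ v)
  have h2 : E ⊓ (K ∙ v) = ⊥ := by
    rw [eq_bot_iff]
    rintro x ⟨hx1, hx2⟩
    obtain ⟨c, rfl⟩ := mem_span_singleton.1 hx2
    by_cases hc : c = 0
    · simp [hc]
    · exact absurd ((E.smul_mem_iff hc).1 hx1) hv
  rw [h2, finrank_bot, finrank_span_singleton hv0] at h1
  omega

/-- **(A)**, first part: an automorphism with an eigenspace of dimension at least `5` is scalar. -/
theorem IsQFano.A1 (hD : IsQFano D) {g : End K V} (hg : IsAut D g) (s : K)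
    (h5 : 5 ≤ finrank K (LinearMap.ker (sh g s))) (v : V) : g v = s • v := by
  have hdim := hD.dim
  have hle := finrank_le (LinearMap.ker (sh g s))
  rcases (by omega : finrank K (LinearMap.ker (sh g s)) = 5 ∨
    finrank K (LinearMap.ker (sh g s)) = 6 ∨ finrank K (LinearMap.ker (sh g s)) = 7) with
    h | h | h
  · set E := LinearMap.ker (sh g s) with hE
    by_cases hex : ∃ w, w ∉ E ∧ sh g s w ∈ E ⊔ (K ∙ w)
    · obtain ⟨w, hw, hNw⟩ := hex
      have he0 : sh g s w ≠ 0 := fun h0 => hw (LinearMap.mem_ker.2 h0)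
      refine hD.L2 hg he0 (H := E ⊔ (K ∙ w)) (by rw [finrank_sup_span hw, h]) hNw s ?_ v
      intro x hx
      obtain ⟨a, ha, b, hb, rfl⟩ := mem_sup.1 hx
      obtain ⟨c, rfl⟩ := mem_span_singleton.1 hb
      rw [← sh_apply, map_add, map_smul, LinearMap.mem_ker.1 ha, zero_add]
      exact smul_mem _ _ (mem_span_singleton_self _)
    · exfalso
      push Not at hex
      refine hD.L3 h fun U hU hUE => ?_
      by_contra hnot
      have hinv : Inv g U := hD.inv_block' hg hUE inf_le_left hU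
        (inv_of_le_ker (s := s) inf_le_right)
      obtain ⟨w, hwU, hwE⟩ := Set.not_subset.1 hnot
      refine hex w hwE ?_
      have h1 : E ⊔ (K ∙ w) = E ⊔ U := by
        refine eq_of_le_of_finrank_le
          (sup_le_sup_left ((span_singleton_le_iff_mem w U).2 hwU) E) ?_
        have h2 := finrank_sup_add_finrank_inf_eq U E
        have h3 := hD.block U hU
        rw [finrank_sup_span hwE, sup_comm E U]
        omega
      rw [h1]
      exact mem_sup_right (hinv.sh s w hwU)
  · obtain ⟨p, hp, hp0⟩ := exists_ne_zero (W := LinearMap.ker (sh g s)) (by omega)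
    refine hD.L2 hg hp0 h hp s ?_ v
    intro x hx
    rw [← sh_apply, LinearMap.mem_ker.1 hx]
    exact zero_mem _
  · have h1 : LinearMap.ker (sh g s) = ⊤ := eq_top_of_finrank_eq (by omega)
    refine mem_ker_sh.1 ?_
    rw [h1]
    trivial

omit [Finite K] [FiniteDimensional K V] in
/-- A linear map which maps every `v` into `E + K v` is scalar modulo `E`. -/
theorem exists_scalar_mod {g : End K V} {E : Submodule K V} (hE : Inv g E)
    (h : ∀ v, v ∉ E → g v ∈ E ⊔ (K ∙ v)) : ∃ m : K, ∀ v, g v - m • v ∈ E := by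
  let f : (V ⧸ E) →ₗ[K] (V ⧸ E) := E.mapQ E g hE
  obtain ⟨m, hm⟩ := LinearMap.exists_eq_smul_id_of_forall_notLinearIndependent (f := f) (by
    intro x
    obtain ⟨v, rfl⟩ := Submodule.mkQ_surjective E x
    by_cases hv : v ∈ E
    · have h0 : E.mkQ v = 0 := by simpa using hv
      rw [h0, LinearIndependent.pair_iff]
      intro hcon
      have := hcon 1 0 (by simp)
      exact one_ne_zero this.1
    · obtain ⟨a, ha, b, hb, hab⟩ := mem_sup.1 (h v hv)
      obtain ⟨c, rfl⟩ := mem_span_singleton.1 hb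
      rw [LinearIndependent.pair_iff]
      intro hcon
      have h1 : f (E.mkQ v) = c • E.mkQ v := by
        change E.mkQ (g v) = _
        rw [← hab, map_add, map_smul]
        have : E.mkQ a = 0 := by simpa using ha
        rw [this, zero_add]
      have := hcon (-c) 1 (by rw [h1]; simp)
      exact one_ne_zero this.2)
  refine ⟨m, fun v => ?_⟩
  have h1 : f (E.mkQ v) = m • E.mkQ v := by rw [hm]; rfl
  have h2 : E.mkQ (g v - m • v) = 0 := by
    rw [map_sub, map_smul, ← h1]
    exact sub_self _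
  exact (Submodule.Quotient.mk_eq_zero E).1 h2

/-- **(A)**, second part: if an eigenspace `E` has dimension `4`, then `g` is scalar on `V / E`. -/
theorem IsQFano.A2 (hD : IsQFano D) {g : End K V} (hg : IsAut D g) (s : K)
    (h4 : finrank K (LinearMap.ker (sh g s)) = 4) :
    ∃ m : K, ∀ v, g v - m • v ∈ LinearMap.ker (sh g s) := by
  classical
  have : Finite V := Module.finite_of_finite K
  let _ : Fintype V := Fintype.ofFinite V
  have hdim := hD.dim
  set E := LinearMap.ker (sh g s) with hE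
  have hrk : finrank K (LinearMap.range (sh g s)) = 3 := by
    have h1 := LinearMap.finrank_range_add_finrank_ker (sh g s)
    rw [← hE] at h1
    omega
  obtain ⟨B0, hB03, hB0⟩ : ∃ B0 : Submodule K V, finrank K B0 ≤ 3 ∧
      ∀ U ∈ D, U ≤ E → U ≤ B0 := by
    by_cases hex : ∃ B ∈ D, B ≤ E
    · obtain ⟨B, hB, hBE⟩ := hex
      refine ⟨B, (hD.block B hB).le, fun U hU hUE => ?_⟩
      rw [hD.eq_of_le hU hB h4.le hUE hBE]
    · push Not at hex
      exact ⟨⊥, by simp, fun U hU hUE => absurd hUE (hex U hU)⟩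
  obtain ⟨z, hzE, hzB, hzR⟩ := exists_not_mem_two E B0 (LinearMap.range (sh g s))
    (fun h => by have := finrank_mono h; omega) (fun h => by have := finrank_mono h; omega)
  have hz0 : z ≠ 0 := by
    rintro rfl
    exact hzB (zero_mem _)
  have hzE' : (K ∙ z) ≤ E := (span_singleton_le_iff_mem z E).2 hzE
  have hz1 : finrank K (K ∙ z) = 1 := finrank_span_singleton hz0
  -- the blocks through `z` and another vector of `E`
  have key : ∀ w ∈ E, w ∉ K ∙ z → ∀ U ∈ D, z ∈ U → w ∈ U →
      Inv g U ∧ ¬ U ≤ E ∧ finrank K (U ⊓ E : Submodule K V) = 2 ∧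
        finrank K (U ⊔ E : Submodule K V) = 5 := by
    intro w hwE hwz U hU hzU hwU
    have h1 : span K {z, w} ≤ U ⊓ E := pair_le ⟨hzU, hzE⟩ ⟨hwU, hwE⟩
    have h2 := finrank_mono h1
    rw [finrank_pair hz0 hwz] at h2
    have hnot : ¬ U ≤ E := fun h => hzB (hB0 U hU h hzU)
    have h3 := finrank_lt_of_not_le hnot
    have h5 := hD.block U hU
    have h6 := finrank_sup_add_finrank_inf_eq U E
    refine ⟨hD.inv_block' hg h2 inf_le_left hU (inv_of_le_ker (s := s) inf_le_right), hnot,
      by omega, by omega⟩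
  let S : Finset V := Finset.univ.filter fun v => v ∈ E ∧ v ∉ K ∙ z
  let T : Finset V := Finset.univ.filter fun v => v ∈ (⊤ : Submodule K V) ∧ v ∉ E
  let R : V → V → Prop := fun w v => ∃ U ∈ D, z ∈ U ∧ w ∈ U ∧ v ∈ U ⊔ E
  have hcount := Finset.sum_card_bipartiteAbove_eq_sum_card_bipartiteBelow (s := S) (t := T) R
  have hS : (S.card : ℤ) = (Nat.card K : ℤ) ^ 4 - (Nat.card K : ℤ) := by
    rw [card_diff hzE', h4, hz1, pow_one]
  have hT : (T.card : ℤ) = (Nat.card K : ℤ) ^ 7 - (Nat.card K : ℤ) ^ 4 := by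
    rw [card_diff le_top, h4, finrank_top, hdim]
  -- for fixed `w`
  have h1 : ∀ w ∈ S, ((T.bipartiteAbove R w).card : ℤ) =
      (Nat.card K : ℤ) ^ 5 - (Nat.card K : ℤ) ^ 4 := by
    intro w hw
    simp only [S, Finset.mem_filter, Finset.mem_univ, true_and] at hw
    obtain ⟨U, hU, hzU, hwU⟩ := hD.exists_block hz0 hw.2
    obtain ⟨-, -, -, h5⟩ := key w hw.1 hw.2 U hU hzU hwU
    have he : T.bipartiteAbove R w = Finset.univ.filter fun v => v ∈ U ⊔ E ∧ v ∉ E := by
      ext v
      simp only [T, Finset.bipartiteAbove, Finset.mem_filter, Finset.mem_univ, true_and, R,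
        mem_top]
      constructor
      · rintro ⟨hvE, U', hU', hzU', hwU', hv⟩
        have : U = U' := hD.eq_of_mem hU hU' hz0 hw.2 hzU hwU hzU' hwU'
        exact ⟨this ▸ hv, hvE⟩
      · rintro ⟨hv, hvE⟩
        exact ⟨hvE, U, hU, hzU, hwU, hv⟩
    rw [he, card_diff le_sup_right, h5, h4]
  -- for fixed `v`
  have h2 : ∀ v ∈ T, ((S.bipartiteBelow R v).card : ℤ) ≤
      (Nat.card K : ℤ) ^ 2 - (Nat.card K : ℤ) := by
    intro v hv
    simp only [T, Finset.mem_filter, Finset.mem_univ, true_and, mem_top] at hv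
    have hq : (2 : ℤ) ≤ Nat.card K := by exact_mod_cast two_le_card (K := K)
    rcases (S.bipartiteBelow R v).eq_empty_or_nonempty with he | ⟨w0, hw0⟩
    · rw [he, Finset.card_empty]
      push_cast
      nlinarith
    · simp only [S, Finset.bipartiteBelow, Finset.mem_filter, Finset.mem_univ, true_and, R] at hw0
      obtain ⟨⟨hw0E, hw0z⟩, U0, hU0, hzU0, hw0U0, hvU0⟩ := hw0
      have hNv0 : sh g s v ≠ 0 := fun h0 => hv (LinearMap.mem_ker.2 h0)
      have hmem : ∀ w ∈ E, w ∉ K ∙ z → ∀ U ∈ D, z ∈ U → w ∈ U → v ∈ U ⊔ E →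
          sh g s v ∈ U := by
        intro w hwE hwz U hU hzU hwU hvU
        obtain ⟨hinv, hnot, h3, h5⟩ := key w hwE hwz U hU hzU hwU
        obtain ⟨u, huU, huE⟩ := Set.not_subset.1 hnot
        have h6 : E ⊔ (K ∙ v) = U ⊔ E := by
          refine eq_of_le_of_finrank_le
            (sup_le le_sup_right ((span_singleton_le_iff_mem v _).2 hvU)) ?_
          rw [finrank_sup_span hv, h5, h4]
        have h7 : u ∈ E ⊔ (K ∙ v) := by
          rw [h6]
          exact mem_sup_left huU
        obtain ⟨a, ha, b, hb, rfl⟩ := mem_sup.1 h7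
        obtain ⟨c, rfl⟩ := mem_span_singleton.1 hb
        have hc : c ≠ 0 := by
          rintro rfl
          apply huE
          simpa using ha
        have h8 := hinv.sh s _ huU
        rw [map_add, map_smul, LinearMap.mem_ker.1 ha, zero_add] at h8
        exact (U.smul_mem_iff hc).1 h8
      have hNU0 := hmem w0 hw0E hw0z U0 hU0 hzU0 hw0U0 hvU0
      have hNz : sh g s v ∉ K ∙ z := by
        intro h3
        obtain ⟨c, hc⟩ := mem_span_singleton.1 h3
        have hc0 : c ≠ 0 := by
          rintro rfl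
          exact hNv0 (by rw [← hc, zero_smul])
        apply hzR
        have h5 : z = c⁻¹ • (sh g s v) := by rw [← hc, smul_smul, inv_mul_cancel₀ hc0, one_smul]
        rw [h5]
        exact smul_mem _ _ ⟨v, rfl⟩
      have hsub : S.bipartiteBelow R v ⊆
          Finset.univ.filter fun w => w ∈ U0 ⊓ E ∧ w ∉ K ∙ z := by
        intro w hw
        simp only [S, Finset.bipartiteBelow, Finset.mem_filter, Finset.mem_univ, true_and, R]
          at hw
        obtain ⟨⟨hwE, hwz⟩, U, hU, hzU, hwU, hvU⟩ := hw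
        have h3 := hmem w hwE hwz U hU hzU hwU hvU
        have h5 : U = U0 := hD.eq_of_mem hU hU0 hz0 hNz hzU h3 hzU0 hNU0
        simp only [Finset.mem_filter, Finset.mem_univ, true_and, mem_inf]
        exact ⟨⟨h5 ▸ hwU, hwE⟩, hwz⟩
      have h3 := Finset.card_le_card hsub
      have h5 : ((Finset.univ.filter fun w => w ∈ U0 ⊓ E ∧ w ∉ K ∙ z).card : ℤ) =
          (Nat.card K : ℤ) ^ 2 - (Nat.card K : ℤ) := by
        rw [card_diff (le_inf ((span_singleton_le_iff_mem z U0).2 hzU0) hzE'),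
          (key w0 hw0E hw0z U0 hU0 hzU0 hw0U0).2.2.1, hz1, pow_one]
      rw [← h5]
      exact_mod_cast h3
  refine exists_scalar_mod (inv_of_le_ker (s := s) le_rfl) fun v hv => ?_
  by_contra hcon
  have hvT : v ∈ T := by simp [T, hv]
  have hq : (2 : ℤ) ≤ Nat.card K := by exact_mod_cast two_le_card (K := K)
  have h3 : ((S.bipartiteBelow R v).card : ℤ) < (Nat.card K : ℤ) ^ 2 - (Nat.card K : ℤ) := by
    have he : S.bipartiteBelow R v = ∅ := by
      rw [Finset.eq_empty_iff_forall_notMem]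
      intro w hw
      simp only [S, Finset.bipartiteBelow, Finset.mem_filter, Finset.mem_univ, true_and, R] at hw
      obtain ⟨⟨hwE, hwz⟩, U, hU, hzU, hwU, hvU⟩ := hw
      obtain ⟨hinv, hnot, h3, h5⟩ := key w hwE hwz U hU hzU hwU
      apply hcon
      have h6 : E ⊔ (K ∙ v) = U ⊔ E := by
        refine eq_of_le_of_finrank_le
          (sup_le le_sup_right ((span_singleton_le_iff_mem v _).2 hvU)) ?_
        rw [finrank_sup_span hv, h5, h4]
      rw [h6]
      obtain ⟨a, ha, b, hb, rfl⟩ := mem_sup.1 hvU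
      rw [map_add]
      exact add_mem (mem_sup_left (hinv a ha))
        (mem_sup_right (inv_of_le_ker (s := s) (L := E) le_rfl b hb))
    rw [he, Finset.card_empty]
    push_cast
    nlinarith
  have h5 : ∑ v ∈ T, ((S.bipartiteBelow R v).card : ℤ) <
      ∑ v ∈ T, ((Nat.card K : ℤ) ^ 2 - (Nat.card K : ℤ)) :=
    Finset.sum_lt_sum h2 ⟨v, hvT, h3⟩
  have h6 : ((∑ a ∈ S, (T.bipartiteAbove R a).card : ℕ) : ℤ) =
      ((Nat.card K : ℤ) ^ 4 - Nat.card K) * ((Nat.card K : ℤ) ^ 5 - (Nat.card K : ℤ) ^ 4) := by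
    push_cast
    rw [Finset.sum_congr rfl h1, Finset.sum_const, nsmul_eq_mul, hS]
  rw [hcount] at h6
  push_cast at h6
  rw [h6, Finset.sum_const, nsmul_eq_mul, hT] at h5
  generalize (Nat.card K : ℤ) = q at h5
  have h7 : (q ^ 4 - q) * (q ^ 5 - q ^ 4) = (q ^ 7 - q ^ 4) * (q ^ 2 - q) := by ring
  omega

end

end Pool.Agent.QFano
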