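import Pool.Agent.QFano.PartB

/-!
# MP_b24993_co: diagonal groups of automorphisms
-/

set_option autoImplicit false
set_option linter.unusedSectionVars false

namespace Pool.Agent.QFano

open Module Submodule

section Proj

variable {K V ι : Type*} [Field K] [AddCommGroup V] [Module K V] [FiniteDimensional K V]
  [Fintype ι] [DecidableEq ι]

/-- the projections of a direct sum decomposition -/
structure Proj (E : ι → Submodule K V) (π : ι → End K V) : Prop where
  mem : ∀ i v, π i v ∈ E i
  sum : ∀ v, ∑ i, π i v = v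
  same : ∀ i, ∀ v ∈ E i, π i v = v
  ne : ∀ i j, i ≠ j → ∀ v ∈ E j, π i v = 0

omit [FiniteDimensional K V] in
theorem exists_proj {E : ι → Submodule K V} (h : DirectSum.IsInternal E) :
    ∃ π : ι → End K V, Proj E π := by
  classical
  let _ := h.chooseDecomposition
  refine ⟨fun i => (E i).subtype ∘ₗ (DirectSum.component K ι (fun i => E i) i) ∘ₗ
    (DirectSum.decomposeLinearEquiv E).toLinearMap, ?_, ?_, ?_, ?_⟩
  · intro i v
    exact (DirectSum.decompose E v i).2
  · intro v
    have h1 := DirectSum.sum_support_decompose E v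
    have h2 : ∑ i ∈ (DirectSum.decompose E v).support, ((DirectSum.decompose E v i : E i) : V) =
        ∑ i, ((DirectSum.decompose E v i : E i) : V) := by
      refine Finset.sum_subset (Finset.subset_univ _) fun i _ hi => ?_
      rw [DFinsupp.notMem_support_iff.1 hi]
      rfl
    rw [h2] at h1
    exact h1
  · intro i v hv
    exact DirectSum.decompose_of_mem_same E hv
  · intro i j hij v hv
    exact DirectSum.decompose_of_mem_ne E hv hij.symm

theorem sum_finrank {E : ι → Submodule K V} (h : DirectSum.IsInternal E) :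
    ∑ i, finrank K (E i) = finrank K V := by
  have h1 := LinearEquiv.finrank_eq (LinearEquiv.ofBijective (DirectSum.coeLinearMap E) h)
  rw [← h1, Module.finrank_directSum]

variable {E : ι → Submodule K V} {π : ι → End K V}

omit [FiniteDimensional K V] in
theorem Proj.disj (hπ : Proj E π) {i j : ι} (hij : i ≠ j) {v : V} (hi : v ∈ E i)
    (hj : v ∈ E j) : v = 0 := by
  rw [← hπ.same i v hi, hπ.ne i j hij v hj]

omit [FiniteDimensional K V] in
theorem Proj.range (hπ : Proj E π) (i : ι) : LinearMap.range (π i) = E i := by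
  apply le_antisymm
  · rintro _ ⟨v, rfl⟩
    exact hπ.mem i v
  · intro v hv
    exact ⟨v, hπ.same i v hv⟩

omit [FiniteDimensional K V] in
theorem Proj.mem_ker (hπ : Proj E π) {i j : ι} (hij : i ≠ j) {v : V} (hv : v ∈ E j) :
    v ∈ LinearMap.ker (π i) := LinearMap.mem_ker.2 (hπ.ne i j hij v hv)

theorem Proj.finrank_ker (hπ : Proj E π) (i : ι) :
    finrank K (E i) + finrank K (LinearMap.ker (π i)) = finrank K V := by
  rw [← hπ.range i]
  exact LinearMap.finrank_range_add_finrank_ker _

theorem Proj.finrank_ker2 (hπ : Proj E π) {i j : ι} (hij : i ≠ j) :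
    finrank K (E i) + finrank K (E j) +
      finrank K (LinearMap.ker (π i) ⊓ LinearMap.ker (π j) : Submodule K V) = finrank K V := by
  have h1 := LinearMap.finrank_range_add_finrank_ker (π i + π j)
  have h2 : LinearMap.range (π i + π j) = E i ⊔ E j := by
    apply le_antisymm
    · rintro _ ⟨v, rfl⟩
      exact add_mem (mem_sup_left (hπ.mem i v)) (mem_sup_right (hπ.mem j v))
    · refine sup_le ?_ ?_
      · intro v hv
        refine ⟨v, ?_⟩
        rw [LinearMap.add_apply, hπ.same i v hv, hπ.ne j i hij.symm v hv, add_zero]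
      · intro v hv
        refine ⟨v, ?_⟩
        rw [LinearMap.add_apply, hπ.same j v hv, hπ.ne i j hij v hv, zero_add]
  have h3 : LinearMap.ker (π i + π j) = LinearMap.ker (π i) ⊓ LinearMap.ker (π j) := by
    ext v
    simp only [LinearMap.mem_ker, mem_inf, LinearMap.add_apply]
    constructor
    · intro h
      have h4 : π i v = 0 := by
        refine hπ.disj hij (hπ.mem i v) ?_
        have : π i v = -π j v := eq_neg_of_add_eq_zero_left h
        rw [this]
        exact neg_mem (hπ.mem j v)
      refine ⟨h4, ?_⟩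
      rwa [h4, zero_add] at h
    · rintro ⟨h4, h5⟩
      rw [h4, h5, add_zero]
  have h4 := finrank_sup_add_finrank_inf_eq (E i) (E j)
  have h5 : E i ⊓ E j = ⊥ := by
    rw [eq_bot_iff]
    rintro v ⟨h6, h7⟩
    exact hπ.disj hij h6 h7
  rw [h5, finrank_bot] at h4
  rw [h2, h3] at h1
  omega

end Proj

section

variable {K V ι : Type*} [Field K] [AddCommGroup V] [Module K V] [FiniteDimensional K V]
  [Fintype ι] [DecidableEq ι]

/-- The decomposition `V = ⨁ E i` is separated by automorphisms which are scalar on every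
`E i`. -/
structure Sep (D : Set (Submodule K V)) (E : ι → Submodule K V) : Prop where
  ne : ∀ i, E i ≠ ⊥
  int : DirectSum.IsInternal E
  sep : ∀ i j, i ≠ j → ∃ (g : End K V) (c : ι → K), IsAut D g ∧
    (∀ k, ∀ v ∈ E k, g v = c k • v) ∧ c i ≠ c j

/-- `U` is invariant under all automorphisms which are scalar on every `E i`. -/
def TInv (D : Set (Submodule K V)) (E : ι → Submodule K V) (U : Submodule K V) : Prop :=
  ∀ (g : End K V) (c : ι → K), IsAut D g → (∀ k, ∀ v ∈ E k, g v = c k • v) → Inv g U

variable {D : Set (Submodule K V)} {E : ι → Submodule K V} {π : ι → End K V}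

omit [FiniteDimensional K V] in
theorem Sep.proj_mem (hE : Sep D E) (hπ : Proj E π) {U : Submodule K V} (hU : TInv D E U)
    {u : V} (hu : u ∈ U) (i : ι) : π i u ∈ U := by
  classical
  have key : ∀ s : Finset ι, i ∉ s → ∃ a : ι → K, a i ≠ 0 ∧ (∀ k ∈ s, a k = 0) ∧
      ∑ k, a k • π k u ∈ U := by
    intro s
    induction s using Finset.induction_on with
    | empty =>
      intro _
      refine ⟨fun _ => 1, one_ne_zero, by simp, ?_⟩
      simp only [one_smul]
      rw [hπ.sum]
      exact hu
    | insert j s hj ih =>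
      intro hi
      rw [Finset.mem_insert, not_or] at hi
      obtain ⟨a, hai, has, hmem⟩ := ih hi.2
      obtain ⟨g, c, hg, hgc, hcij⟩ := hE.sep i j hi.1
      have hinv := hU g c hg hgc
      refine ⟨fun k => (c k - c j) * a k, ?_, ?_, ?_⟩
      · exact mul_ne_zero (sub_ne_zero.2 hcij) hai
      · intro k hk
        rcases Finset.mem_insert.1 hk with rfl | hk
        · simp
        · change (c k - c j) * a k = 0
          rw [has k hk, mul_zero]
      · have h1 : ∑ k, ((c k - c j) * a k) • π k u =
            g (∑ k, a k • π k u) - c j • ∑ k, a k • π k u := by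
          rw [map_sum, Finset.smul_sum, ← Finset.sum_sub_distrib]
          refine Finset.sum_congr rfl fun k _ => ?_
          rw [map_smul, hgc k _ (hπ.mem k u), smul_smul, smul_smul, ← sub_smul]
          congr 1
          ring
        rw [h1]
        exact U.sub_mem (hinv _ hmem) (U.smul_mem _ hmem)
  obtain ⟨a, hai, has, hmem⟩ := key (Finset.univ.erase i) (Finset.notMem_erase i _)
  rw [Finset.sum_eq_single i] at hmem
  · exact (U.smul_mem_iff hai).1 hmem
  · intro k _ hk
    rw [has k (Finset.mem_erase.2 ⟨hk, Finset.mem_univ k⟩), zero_smul]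
  · intro h
    exact absurd (Finset.mem_univ i) h

omit [FiniteDimensional K V] [Fintype ι] [DecidableEq ι] in
theorem tinv_of_le {L : Submodule K V} {i : ι} (h : L ≤ E i) : TInv D E L := by
  intro g c _ hgc u hu
  rw [hgc i u (h hu)]
  exact L.smul_mem _ hu

omit [FiniteDimensional K V] [Fintype ι] [DecidableEq ι] in
theorem tinv_pair {x y : V} {i j : ι} (hx : x ∈ E i) (hy : y ∈ E j) :
    TInv D E (span K {x, y}) := by
  intro g c _ hgc u hu
  obtain ⟨a, b, rfl⟩ := mem_span_pair.1 hu
  rw [map_add, map_smul, map_smul, hgc i x hx, hgc j y hy]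
  exact add_mem (smul_mem _ _ (smul_mem _ _ (subset_span (by simp))))
    (smul_mem _ _ (smul_mem _ _ (subset_span (by simp))))

theorem IsQFano.tinv_block (hD : IsQFano D) {L U : Submodule K V} (hL : 2 ≤ finrank K L)
    (hLU : L ≤ U) (hU : U ∈ D) (h : TInv D E L) : TInv D E U :=
  fun g c hg hgc => hD.inv_block' hg hL hLU hU (h g c hg hgc)

/-- a further homogeneous vector in an invariant block -/
theorem Sep.third (hE : Sep D E) (hπ : Proj E π) {U L : Submodule K V}
    (hinv : TInv D E U) (hL : ¬ U ≤ L) : ∃ (k : ι) (z : V), z ∈ E k ∧ z ∈ U ∧ z ∉ L := by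
  obtain ⟨u, huU, huL⟩ := Set.not_subset.1 hL
  have h1 : ∃ k, π k u ∉ L := by
    by_contra hcon
    push Not at hcon
    apply huL
    rw [SetLike.mem_coe, ← hπ.sum u]
    exact sum_mem fun k _ => hcon k
  obtain ⟨k, hk⟩ := h1
  exact ⟨k, π k u, hπ.mem k u, hE.proj_mem hπ hinv huU k, hk⟩

/-- The block through two independent homogeneous vectors. -/
theorem Sep.block (hE : Sep D E) (hπ : Proj E π) (hD : IsQFano D) {x y : V} {i j : ι}
    (hx : x ∈ E i) (hy : y ∈ E j) (hx0 : x ≠ 0) (hyx : y ∉ K ∙ x) :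
    ∃ U ∈ D, x ∈ U ∧ y ∈ U ∧ TInv D E U ∧ ∃ (k : ι) (z : V), z ∈ E k ∧ z ∈ U ∧
      z ∉ span K {x, y} := by
  obtain ⟨U, hU, hxU, hyU⟩ := hD.exists_block hx0 hyx
  have h2 := finrank_pair hx0 hyx
  have hinv : TInv D E U := hD.tinv_block h2.ge (pair_le hxU hyU) hU (tinv_pair hx hy)
  refine ⟨U, hU, hxU, hyU, hinv, hE.third hπ hinv fun h => ?_⟩
  have := finrank_mono h
  rw [hD.block U hU, h2] at this
  omega

end

section

variable {K V ι : Type*} [Field K] [Finite K] [AddCommGroup V] [Module K V]
  [FiniteDimensional K V] [Fintype ι] [DecidableEq ι]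
  {D : Set (Submodule K V)} {E : ι → Submodule K V} {π : ι → End K V}

/-- dimensions are at most four, and a four implies exactly two summands -/
theorem Sep.four (hE : Sep D E) (hπ : Proj E π) (hD : IsQFano D) [Nontrivial ι] (i : ι) :
    finrank K (E i) ≤ 4 ∧ (finrank K (E i) = 4 → ∀ j k, j ≠ i → k ≠ i → j = k) := by
  have hscal : ∀ (g : End K V) (c : ι → K), IsAut D g → (∀ k, ∀ v ∈ E k, g v = c k • v) →
      (∃ j k, c j ≠ c k) → finrank K (LinearMap.ker (sh g (c i))) ≤ 4 := by
    intro g c hg hgc ⟨j, k, hjk⟩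
    by_contra hcon
    have h1 := hD.A1 hg (c i) (by omega)
    have h2 : ∀ l, c l = c i := by
      intro l
      obtain ⟨v, hv, hv0⟩ := (Submodule.ne_bot_iff _).1 (hE.ne l)
      have h3 := h1 v
      rw [hgc l v hv] at h3
      exact smul_left_injective K hv0 h3
    exact hjk ((h2 j).trans (h2 k).symm)
  have hle : ∀ (g : End K V) (c : ι → K), (∀ k, ∀ v ∈ E k, g v = c k • v) →
      E i ≤ LinearMap.ker (sh g (c i)) := fun g c hgc v hv => mem_ker_sh.2 (hgc i v hv)
  constructor
  · obtain ⟨j, hj⟩ := exists_ne i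
    obtain ⟨g, c, hg, hgc, hcij⟩ := hE.sep i j hj.symm
    exact (finrank_mono (hle g c hgc)).trans (hscal g c hg hgc ⟨i, j, hcij⟩)
  · intro h4 j k hj hk
    by_contra hjk
    obtain ⟨g, c, hg, hgc, hcjk⟩ := hE.sep j k hjk
    have h1 := hscal g c hg hgc ⟨j, k, hcjk⟩
    have h2 := hle g c hgc
    have h3 : E i = LinearMap.ker (sh g (c i)) :=
      eq_of_le_of_finrank_le h2 (by omega)
    obtain ⟨m, hm⟩ := hD.A2 hg (c i) (by rw [← h3]; exact h4)
    have h5 : ∀ l, l ≠ i → c l = m := by
      intro l hl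
      obtain ⟨v, hv, hv0⟩ := (Submodule.ne_bot_iff _).1 (hE.ne l)
      have h6 := hm v
      rw [← h3, hgc l v hv, ← sub_smul] at h6
      have h7 : (c l - m) • v = 0 := hπ.disj hl ((E l).smul_mem _ hv) h6
      rcases smul_eq_zero.1 h7 with h8 | h8
      · exact sub_eq_zero.1 h8
      · exact absurd h8 hv0
    exact hcjk ((h5 j hj).trans (h5 k hk).symm)

omit [Finite K] in
theorem Sep.card_K (hE : Sep D E) [Finite K] {i j : ι} (hij : i ≠ j) : 3 ≤ Nat.card K := by
  classical
  obtain ⟨g, c, hg, hgc, hcij⟩ := hE.sep i j hij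
  have h0 : ∀ l, c l ≠ 0 := by
    intro l h
    obtain ⟨v, hv, hv0⟩ := (Submodule.ne_bot_iff _).1 (hE.ne l)
    apply hv0
    apply hg.1
    rw [hgc l v hv, h, zero_smul, map_zero]
  have : Fintype K := Fintype.ofFinite K
  rw [Nat.card_eq_fintype_card]
  have h1 : ({0, c i, c j} : Finset K).card = 3 := by
    rw [Finset.card_eq_three]
    exact ⟨0, c i, c j, (h0 i).symm, (h0 j).symm, hcij, rfl⟩
  rw [← h1]
  exact Finset.card_le_univ _

end

end Pool.Agent.QFano
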