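import Pool.Agent.QFano.PartC

/-!
# MP_b24993_co: diagonal groups of automorphisms, the possible dimensions
-/

set_option autoImplicit false
set_option linter.unusedSectionVars false

namespace Pool.Agent.QFano

open Module Submodule

section

variable {K V ι : Type*} [Field K] [Finite K] [AddCommGroup V] [Module K V]
  [FiniteDimensional K V] [Fintype ι] [DecidableEq ι]
  {D : Set (Submodule K V)} {E : ι → Submodule K V} {π : ι → End K V}

theorem not_mem_span_of_ne {i j : ι} (hπ : Proj E π) (hij : i ≠ j) {x y : V} (hx : x ∈ E i)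
    (hy : y ∈ E j) (hy0 : y ≠ 0) : y ∉ K ∙ x := by
  intro h
  obtain ⟨c, hc⟩ := mem_span_singleton.1 h
  exact hy0 (hπ.disj hij (by rw [← hc]; exact (E i).smul_mem c hx) hy)

/-- **(C3)**: no summand of dimension three besides at least two other summands. -/
theorem Sep.three (hE : Sep D E) (hπ : Proj E π) (hD : IsQFano D) {i k1 j : ι}
    (hi : finrank K (E i) = 3) (hk1i : k1 ≠ i) (hji : j ≠ i) (hjk : j ≠ k1)
    (hk1 : finrank K (E k1) ≤ 2) : False := by
  classical
  have : Finite V := Module.finite_of_finite K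
  let _ : Fintype V := Fintype.ofFinite V
  have hdim := hD.dim
  obtain ⟨p, hp, hp0⟩ := (Submodule.ne_bot_iff _).1 (hE.ne j)
  have hpk : ∀ l, l ≠ j → p ∈ LinearMap.ker (π l) := fun l hl => hπ.mem_ker hl hp
  have hpi : p ∉ E i := fun h => hp0 (hπ.disj hji hp h)
  have hp1 : finrank K (K ∙ p) = 1 := finrank_span_singleton hp0
  have hpE : ∀ x ∈ E i, x ≠ 0 → x ∉ K ∙ p := fun x hx hx0 =>
    not_mem_span_of_ne hπ hji hp hx hx0
  set A : Submodule K V := LinearMap.ker (π i) ⊓ LinearMap.ker (π k1) with hA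
  set C : Submodule K V := E k1 ⊔ (K ∙ p) with hC
  have hpA : p ∈ A := ⟨hpk i hji.symm, hpk k1 hjk.symm⟩
  have hAf : finrank K (E k1) + finrank K A = 4 := by
    have h1 := hπ.finrank_ker2 hk1i.symm
    rw [← hA] at h1
    omega
  have hCf : finrank K C = finrank K (E k1) + 1 :=
    finrank_sup_span fun h => hp0 (hπ.disj hjk hp h)
  have hk10 : 1 ≤ finrank K (E k1) := by
    by_contra hcon
    exact hE.ne k1 (Submodule.finrank_eq_zero.1 (by omega))
  -- the line in which blocks through `p` meet `E i` in two dimensions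
  obtain ⟨L, hLf, hL⟩ : ∃ L : Submodule K V, finrank K L ≤ 2 ∧ ∀ U ∈ D, p ∈ U →
      2 ≤ finrank K (U ⊓ E i : Submodule K V) → U ⊓ E i ≤ L := by
    by_cases hex : ∃ U ∈ D, p ∈ U ∧ 2 ≤ finrank K (U ⊓ E i : Submodule K V)
    · obtain ⟨U, hU, hpU, hU2⟩ := hex
      refine ⟨U ⊓ E i, ?_, fun U' hU' hpU' hU2' => ?_⟩
      · have h1 := finrank_lt_of_not_le (fun h : U ≤ E i => hpi (h hpU))
        rw [hD.block U hU] at h1
        omega
      · have h1 := finrank_inf_ge' (U ⊓ E i) (U' ⊓ E i) (E i) inf_le_right inf_le_right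
        obtain ⟨x, hx, hx0⟩ := exists_ne_zero (W := (U ⊓ E i) ⊓ (U' ⊓ E i)) (by omega)
        have h2 : U' = U := hD.eq_of_mem hU' hU hp0 (hpE x hx.1.2 hx0) hpU' hx.2.1 hpU hx.1.1
        rw [h2]
    · push Not at hex
      exact ⟨⊥, by simp, fun U hU hpU hU2 => absurd (hex U hU hpU) (by omega)⟩
  let S : Finset V := Finset.univ.filter fun v => v ∈ E i ∧ v ∉ L ⊓ E i
  let T : Finset V := (Finset.univ.filter fun v => v ∈ A ∧ v ∉ K ∙ p) ∪
    (Finset.univ.filter fun v => v ∈ C ∧ v ∉ K ∙ p)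
  let R : V → V → Prop := fun x w => ∃ U ∈ D, p ∈ U ∧ x ∈ U ∧ w ∈ U
  have hcount := Finset.sum_card_bipartiteAbove_eq_sum_card_bipartiteBelow (s := S) (t := T) R
  have hq3 : (3 : ℤ) ≤ Nat.card K := by exact_mod_cast hE.card_K hji
  have hS : (Nat.card K : ℤ) ^ 3 - (Nat.card K : ℤ) ^ 2 ≤ (S.card : ℤ) := by
    rw [card_diff inf_le_right, hi]
    have h1 : finrank K (L ⊓ E i : Submodule K V) ≤ 2 := (finrank_mono inf_le_left).trans hLf
    have h2 : (Nat.card K : ℤ) ^ finrank K (L ⊓ E i : Submodule K V) ≤ (Nat.card K : ℤ) ^ 2 :=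
      pow_le_pow_right₀ (by linarith) h1
    linarith
  have hT : (T.card : ℤ) ≤ (Nat.card K : ℤ) ^ 3 + (Nat.card K : ℤ) ^ 2 -
      2 * (Nat.card K : ℤ) := by
    have h1 : (T.card : ℤ) ≤ ((Finset.univ.filter fun v => v ∈ A ∧ v ∉ K ∙ p).card : ℤ) +
        ((Finset.univ.filter fun v => v ∈ C ∧ v ∉ K ∙ p).card : ℤ) := by
      exact_mod_cast Finset.card_union_le _ _
    rw [card_diff ((span_singleton_le_iff_mem p A).2 hpA),
      card_diff (le_sup_right : (K ∙ p) ≤ C), hp1, hCf, pow_one] at h1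
    have h2 : finrank K (E k1) = 1 ∨ finrank K (E k1) = 2 := by omega
    rcases h2 with h2 | h2
    · have h3 : finrank K A = 3 := by omega
      rw [h2, h3] at h1
      norm_num at h1
      linarith
    · have h3 : finrank K A = 2 := by omega
      rw [h2, h3] at h1
      norm_num at h1
      linarith
  -- for fixed `x`
  have h1 : ∀ x ∈ S, (Nat.card K : ℤ) ^ 2 - (Nat.card K : ℤ) ≤
      ((T.bipartiteAbove R x).card : ℤ) := by
    intro x hx
    simp only [S, Finset.mem_filter, Finset.mem_univ, true_and, mem_inf, not_and] at hx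
    obtain ⟨hxE, hxL⟩ := hx
    have hx0 : x ≠ 0 := by
      rintro rfl
      exact hxL (zero_mem _) (zero_mem _)
    have hxp := hpE x hxE hx0
    obtain ⟨U, hU, hpU, hxU, hinv, k, z, hzk, hzU, hz⟩ := hE.block hπ hD hp hxE hp0 hxp
    have hU2 : finrank K (U ⊓ E i : Submodule K V) ≤ 1 := by
      by_contra hcon
      exact hxL (hL U hU hpU (by omega) ⟨hxU, hxE⟩) hxE
    -- `z` is not in `E i`
    have hki : k ≠ i := by
      rintro rfl
      have h2 : finrank K (span K {x, z}) = 2 := by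
        refine finrank_pair hx0 fun h => hz ?_
        exact (span_mono (by simp)) h
      have h3 := finrank_mono (pair_le (W := U ⊓ E k) ⟨hxU, hxE⟩ ⟨hzU, hzk⟩)
      omega
    have hzp : z ∉ K ∙ p := fun h => hz ((span_mono (by simp)) h)
    have hMle : (K ∙ p) ≤ span K {p, z} := span_mono (by simp)
    -- `p` and `z` lie in `A` or in `C`
    have hAC : span K {p, z} ≤ A ∨ span K {p, z} ≤ C := by
      by_cases hkk : k = k1
      · right
        exact pair_le (mem_sup_right (mem_span_singleton_self p))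
          (mem_sup_left (hkk ▸ hzk))
      · left
        exact pair_le hpA ⟨hπ.mem_ker (Ne.symm hki) hzk, hπ.mem_ker (Ne.symm hkk) hzk⟩
    have hsub : (Finset.univ.filter fun v => v ∈ span K {p, z} ∧ v ∉ K ∙ p) ⊆
        T.bipartiteAbove R x := by
      intro v hv
      simp only [Finset.mem_filter, Finset.mem_univ, true_and] at hv
      simp only [T, Finset.bipartiteAbove, Finset.mem_filter, Finset.mem_univ, true_and, R,
        Finset.mem_union]
      refine ⟨?_, U, hU, hpU, hxU, pair_le hpU hzU hv.1⟩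
      rcases hAC with h | h
      · exact Or.inl ⟨h hv.1, hv.2⟩
      · exact Or.inr ⟨h hv.1, hv.2⟩
    have h2 := Finset.card_le_card hsub
    have h3 : ((Finset.univ.filter fun v => v ∈ span K {p, z} ∧ v ∉ K ∙ p).card : ℤ) =
        (Nat.card K : ℤ) ^ 2 - (Nat.card K : ℤ) := by
      rw [card_diff hMle, finrank_pair hp0 hzp, hp1, pow_one]
    rw [← h3]
    exact_mod_cast h2
  -- for fixed `w`
  have h2 : ∀ w ∈ T, ((S.bipartiteBelow R w).card : ℤ) ≤ (Nat.card K : ℤ) - 1 := by
    intro w hw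
    have hwp : w ∉ K ∙ p := by
      simp only [T, Finset.mem_filter, Finset.mem_univ, true_and, Finset.mem_union] at hw
      rcases hw with h | h
      · exact h.2
      · exact h.2
    obtain ⟨U, hU, hpU, hwU⟩ := hD.exists_block hp0 hwp
    by_cases hU2 : 2 ≤ finrank K (U ⊓ E i : Submodule K V)
    · have he : S.bipartiteBelow R w = ∅ := by
        rw [Finset.eq_empty_iff_forall_notMem]
        intro x hx
        simp only [S, Finset.bipartiteBelow, Finset.mem_filter, Finset.mem_univ, true_and, R,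
          mem_inf, not_and] at hx
        obtain ⟨⟨hxE, hxL⟩, U', hU', hpU', hxU', hwU'⟩ := hx
        have : U = U' := hD.eq_of_mem hU hU' hp0 hwp hpU hwU hpU' hwU'
        exact hxL (hL U hU hpU hU2 ⟨this ▸ hxU', hxE⟩) hxE
      rw [he, Finset.card_empty]
      push_cast
      linarith
    · have hsub : S.bipartiteBelow R w ⊆
          Finset.univ.filter fun v => v ∈ U ⊓ E i ∧ v ∉ (⊥ : Submodule K V) := by
        intro x hx
        simp only [S, Finset.bipartiteBelow, Finset.mem_filter, Finset.mem_univ, true_and, R,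
          mem_inf, not_and] at hx
        obtain ⟨⟨hxE, hxL⟩, U', hU', hpU', hxU', hwU'⟩ := hx
        have : U = U' := hD.eq_of_mem hU hU' hp0 hwp hpU hwU hpU' hwU'
        simp only [Finset.mem_filter, Finset.mem_univ, true_and, mem_inf, mem_bot]
        refine ⟨⟨this ▸ hxU', hxE⟩, ?_⟩
        rintro rfl
        exact hxL (zero_mem _) (zero_mem _)
      have h3 := Finset.card_le_card hsub
      have h4 : ((Finset.univ.filter fun v => v ∈ U ⊓ E i ∧ v ∉ (⊥ : Submodule K V)).card : ℤ) ≤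
          (Nat.card K : ℤ) - 1 := by
        rw [card_diff bot_le, finrank_bot, pow_zero]
        have h5 : (Nat.card K : ℤ) ^ finrank K (U ⊓ E i : Submodule K V) ≤
            (Nat.card K : ℤ) ^ 1 := pow_le_pow_right₀ (by linarith) (by omega)
        rw [pow_one] at h5
        linarith
      refine le_trans ?_ h4
      exact_mod_cast h3
  have h3 : (S.card : ℤ) * ((Nat.card K : ℤ) ^ 2 - (Nat.card K : ℤ)) ≤
      ((∑ a ∈ S, (T.bipartiteAbove R a).card : ℕ) : ℤ) := by
    push_cast
    rw [← nsmul_eq_mul, ← Finset.sum_const]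
    exact Finset.sum_le_sum h1
  have h4 : ((∑ b ∈ T, (S.bipartiteBelow R b).card : ℕ) : ℤ) ≤
      (T.card : ℤ) * ((Nat.card K : ℤ) - 1) := by
    push_cast
    rw [← nsmul_eq_mul, ← Finset.sum_const]
    exact Finset.sum_le_sum h2
  rw [hcount] at h3
  have h5 := h3.trans h4
  generalize (Nat.card K : ℤ) = q at h5 hS hT hq3
  have h6 : (q ^ 3 - q ^ 2) * (q ^ 2 - q) ≤ (q ^ 3 + q ^ 2 - 2 * q) * (q - 1) := by
    have h7 : 0 ≤ q ^ 2 - q := by nlinarith
    have h8 : 0 ≤ q - 1 := by linarith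
    exact (mul_le_mul_of_nonneg_right hS h7).trans (h5.trans (mul_le_mul_of_nonneg_right hT h8))
  have h7 : (q ^ 3 - q ^ 2) * (q ^ 2 - q) - (q ^ 3 + q ^ 2 - 2 * q) * (q - 1) =
      q * (q - 1) ^ 2 * (q ^ 2 - q - 2) := by ring
  have h8 : 0 < q * (q - 1) ^ 2 * (q ^ 2 - q - 2) := by
    have h9 : 0 < q ^ 2 - q - 2 := by nlinarith
    have h10 : 0 < q - 1 := by linarith
    positivity
  linarith

/-- the pigeonhole argument: `c` is a homogeneous vector, `E b` a summand of dimension `2`; every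
block through `c` and a vector of `E b` contains `E l` for some `l` in `S`. -/
theorem pig (hπ : Proj E π) (hD : IsQFano D) {b j : ι} (hb : finrank K (E b) = 2) {c : V}
    (hjb : j ≠ b) (hc : c ∈ E j) (hc0 : c ≠ 0) (S : Finset ι)
    (hS : ∀ x ∈ E b, x ≠ 0 → ∀ U ∈ D, c ∈ U → x ∈ U → ¬ E b ≤ U ∧
      ∃ l ∈ S, l ≠ j ∧ finrank K (E l) = 1 ∧ ∃ y ∈ E l, y ≠ 0 ∧ y ∈ U) :
    (Nat.card K : ℤ) + 1 ≤ S.card := by
  classical
  have : Finite V := Module.finite_of_finite K
  let _ : Fintype V := Fintype.ofFinite V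
  have hq : (2 : ℤ) ≤ Nat.card K := by exact_mod_cast two_le_card (K := K)
  let X : Finset V := Finset.univ.filter fun v => v ∈ E b ∧ v ∉ (⊥ : Submodule K V)
  have hX : (X.card : ℤ) = (Nat.card K : ℤ) ^ 2 - 1 := by
    rw [card_diff bot_le, hb, finrank_bot, pow_zero]
  have hXmem : ∀ x ∈ X, x ∈ E b ∧ x ≠ 0 := by
    intro x hx
    simpa only [X, Finset.mem_filter, Finset.mem_univ, true_and, mem_bot] using hx
  have hblk : ∀ x, x ∈ E b → x ≠ 0 → ∃ U ∈ D, c ∈ U ∧ x ∈ U := by
    intro x hx hx0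
    exact hD.exists_block hc0 (not_mem_span_of_ne hπ hjb hc hx hx0)
  have hch : ∀ x : V, ∃ l : ι, x ∈ X → l ∈ S ∧ l ≠ j ∧ finrank K (E l) = 1 ∧
      ∃ U ∈ D, c ∈ U ∧ x ∈ U ∧ ¬ E b ≤ U ∧ ∃ y ∈ E l, y ≠ 0 ∧ y ∈ U := by
    intro x
    by_cases hx : x ∈ X
    · obtain ⟨hxE, hx0⟩ := hXmem x hx
      obtain ⟨U, hU, hcU, hxU⟩ := hblk x hxE hx0
      obtain ⟨hnot, l, hlS, hlj, hl1, y, hy, hy0, hyU⟩ := hS x hxE hx0 U hU hcU hxU
      exact ⟨l, fun _ => ⟨hlS, hlj, hl1, U, hU, hcU, hxU, hnot, y, hy, hy0, hyU⟩⟩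
    · exact ⟨j, fun h => absurd h hx⟩
  choose f hf using hch
  have h1 : X.card ≤ (Nat.card K - 1) * S.card := by
    refine Finset.card_le_mul_card_image_of_maps_to (f := f) (fun x hx => (hf x hx).1) _ ?_
    intro l _
    rcases (X.filter fun a => f a = l).eq_empty_or_nonempty with he | ⟨x0, hx0⟩
    · rw [he]
      simp
    · rw [Finset.mem_filter] at hx0
      obtain ⟨hx0X, hfx0⟩ := hx0
      obtain ⟨-, hlj, hl1, U, hU, hcU, hx0U, hnot, y, hy, hy0, hyU⟩ := hf x0 hx0X
      rw [hfx0] at hl1 hy hlj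
      have hsub : (X.filter fun a => f a = l) ⊆
          Finset.univ.filter fun v => v ∈ U ⊓ E b ∧ v ∉ (⊥ : Submodule K V) := by
        intro x hx
        rw [Finset.mem_filter] at hx
        obtain ⟨hxX, hfx⟩ := hx
        obtain ⟨hxE, hxne⟩ := hXmem x hxX
        obtain ⟨-, -, -, U', hU', hcU', hxU', -, y', hy', hy'0, hy'U'⟩ := hf x hxX
        rw [hfx] at hy'
        have hyc : y ∉ K ∙ c := not_mem_span_of_ne hπ (Ne.symm hlj) hc hy hy0
        have hyU' : y ∈ U' := by
          have h2 : (K ∙ y') = E l := by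
            refine eq_of_le_of_finrank_eq ((span_singleton_le_iff_mem _ _).2 hy') ?_
            rw [finrank_span_singleton hy'0, hl1]
          have h3 : y ∈ K ∙ y' := by rw [h2]; exact hy
          exact ((span_singleton_le_iff_mem _ _).2 hy'U') h3
        have h2 : U = U' := hD.eq_of_mem hU hU' hc0 hyc hcU hyU hcU' hyU'
        simp only [Finset.mem_filter, Finset.mem_univ, true_and, mem_inf, mem_bot]
        exact ⟨⟨h2 ▸ hxU', hxE⟩, hxne⟩
      have h2 := Finset.card_le_card hsub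
      have h3 : finrank K (U ⊓ E b : Submodule K V) ≤ 1 := by
        have h4 := finrank_lt_of_not_le hnot
        rw [inf_comm, hb] at h4
        omega
      have h4 : ((Finset.univ.filter fun v => v ∈ U ⊓ E b ∧ v ∉ (⊥ : Submodule K V)).card : ℤ) ≤
          (Nat.card K : ℤ) - 1 := by
        rw [card_diff bot_le, finrank_bot, pow_zero]
        have h5 : (Nat.card K : ℤ) ^ finrank K (U ⊓ E b : Submodule K V) ≤
            (Nat.card K : ℤ) ^ 1 := pow_le_pow_right₀ (by linarith) h3
        rw [pow_one] at h5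
        linarith
      have h5 : ((X.filter fun a => f a = l).card : ℤ) ≤ (Nat.card K : ℤ) - 1 := by
        refine le_trans ?_ h4
        exact_mod_cast h2
      omega
  have h2 : (X.card : ℤ) ≤ ((Nat.card K : ℤ) - 1) * S.card := by
    have h3 : ((Nat.card K - 1 : ℕ) : ℤ) = (Nat.card K : ℤ) - 1 := by
      have := two_le_card (K := K)
      omega
    rw [← h3]
    exact_mod_cast h1
  rw [hX] at h2
  generalize (Nat.card K : ℤ) = q at h2 hq
  have h3 : 0 < q - 1 := by linarith
  have h4 : q ^ 2 - 1 = (q - 1) * (q + 1) := by ring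
  rw [h4] at h2
  exact le_of_mul_le_mul_left h2 h3

end

end Pool.Agent.QFano
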