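import Pool.Agent.QFano.PartC3

/-!
# MP_b24993_co: automorphisms of prime order `r`, `r` does not divide `q (q - 1)`: preparations
-/

set_option autoImplicit false
set_option linter.unusedSectionVars false

namespace Pool.Agent.QFano

open Module Submodule

section Averaging

variable {K V : Type*} [Field K] [AddCommGroup V] [Module K V]

/-- the projection onto the fixed vectors -/
noncomputable def av (g : End K V) (r : ℕ) : End K V := (r : K)⁻¹ • ∑ i ∈ Finset.range r, g ^ i

variable {g : End K V} {r : ℕ}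

theorem sh_one_mul (hg : g ^ r = 1) : sh g 1 * av g r = 0 := by
  rw [av, mul_smul_comm, sh, map_one, mul_geom_sum, hg, sub_self, smul_zero]

theorem mul_sh_one (hg : g ^ r = 1) : av g r * sh g 1 = 0 := by
  rw [av, smul_mul_assoc, sh, map_one, geom_sum_mul, hg, sub_self, smul_zero]

theorem av_mem (hg : g ^ r = 1) (v : V) : av g r v ∈ LinearMap.ker (sh g 1) := by
  rw [LinearMap.mem_ker, ← Module.End.mul_apply, sh_one_mul hg, LinearMap.zero_apply]

theorem av_fix (hr : (r : K) ≠ 0) {v : V} (hv : v ∈ LinearMap.ker (sh g 1)) : av g r v = v := by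
  have h1 : g v = v := by
    have := mem_ker_sh.1 hv
    rwa [one_smul] at this
  have h2 : ∀ i : ℕ, (g ^ i) v = v := by
    intro i
    induction i with
    | zero => simp
    | succ i ih => rw [pow_succ, Module.End.mul_apply, h1, ih]
  rw [av, LinearMap.smul_apply, LinearMap.sum_apply, Finset.sum_congr rfl fun i _ => h2 i,
    Finset.sum_const, Finset.card_range, ← Nat.cast_smul_eq_nsmul K, smul_smul,
    inv_mul_cancel₀ hr, one_smul]

theorem sub_av_mem (hg : g ^ r = 1) (hr : (r : K) ≠ 0) (v : V) :
    v - av g r v ∈ LinearMap.ker (av g r) := by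
  rw [LinearMap.mem_ker, map_sub, av_fix hr (av_mem hg v), sub_self]

theorem Inv.pow {U : Submodule K V} (h : Inv g U) (i : ℕ) : Inv (g ^ i) U := by
  induction i with
  | zero => intro u hu; simpa using hu
  | succ i ih =>
    intro u hu
    rw [pow_succ, Module.End.mul_apply]
    exact ih _ (h u hu)

theorem Inv.av {U : Submodule K V} (h : Inv g U) {u : V} (hu : u ∈ U) : av g r u ∈ U := by
  rw [QFano.av, LinearMap.smul_apply, LinearMap.sum_apply]
  exact U.smul_mem _ (sum_mem fun i _ => h.pow i u hu)

theorem fix_disj (hr : (r : K) ≠ 0) {v : V} (h1 : v ∈ LinearMap.ker (sh g 1))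
    (h2 : v ∈ LinearMap.ker (av g r)) : v = 0 := by
  rw [← av_fix hr h1]
  exact LinearMap.mem_ker.1 h2

variable [FiniteDimensional K V]

/-- an invariant subspace is the sum of its intersections with the two parts -/
theorem split_of_inv {U : Submodule K V} (h : Inv g U) (hg : g ^ r = 1)
    (hr : (r : K) ≠ 0) :
    finrank K (U ⊓ LinearMap.ker (sh g 1) : Submodule K V) +
      finrank K (U ⊓ LinearMap.ker (av g r) : Submodule K V) = finrank K U := by
  have h1 := finrank_sup_add_finrank_inf_eq (U ⊓ LinearMap.ker (sh g 1))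
    (U ⊓ LinearMap.ker (av g r))
  have h2 : (U ⊓ LinearMap.ker (sh g 1)) ⊓ (U ⊓ LinearMap.ker (av g r)) = ⊥ := by
    rw [eq_bot_iff]
    rintro v ⟨⟨-, h3⟩, -, h4⟩
    exact fix_disj hr h3 h4
  have h3 : (U ⊓ LinearMap.ker (sh g 1)) ⊔ (U ⊓ LinearMap.ker (av g r)) = U := by
    apply le_antisymm (sup_le inf_le_left inf_le_left)
    intro u hu
    have h4 : u = av g r u + (u - av g r u) := by abel
    rw [h4]
    exact add_mem (mem_sup_left ⟨h.av hu, av_mem hg u⟩)
      (mem_sup_right ⟨U.sub_mem hu (h.av hu), sub_av_mem hg hr u⟩)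
  rw [h2, h3, finrank_bot] at h1
  omega

theorem finrank_split (hg : g ^ r = 1) (hr : (r : K) ≠ 0) :
    finrank K (LinearMap.ker (sh g 1)) + finrank K (LinearMap.ker (av g r)) =
      finrank K V := by
  have h : Inv g (⊤ : Submodule K V) := fun _ _ => trivial
  have := split_of_inv h hg hr
  rwa [top_inf_eq, top_inf_eq, finrank_top] at this

theorem inv_av (hg : g ^ r = 1) : Inv g (LinearMap.ker (av g r)) := by
  intro v hv
  have h1 : av g r (sh g 1 v) = 0 := by
    rw [← Module.End.mul_apply, mul_sh_one hg, LinearMap.zero_apply]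
  rw [sh_apply, one_smul, map_sub, LinearMap.mem_ker.1 hv, sub_zero] at h1
  exact h1

/-- the fixed points of a map of order `r` -/
theorem modEq_fixed {α : Type*} [Fintype α] [DecidableEq α] (f : α → α) {r : ℕ} (hr : r.Prime)
    (hf : ∀ x, f^[r] x = x) :
    Fintype.card α ≡ (Finset.univ.filter fun x => f x = x).card [MOD r] := by
  have : Fact r.Prime := ⟨hr⟩
  let F : Function.End α := f
  have h1 : F ^ r ^ 1 = 1 := by
    rw [pow_one]
    funext x
    have h2 : ∀ n : ℕ, (F ^ n) x = f^[n] x := by
      intro n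
      induction n with
      | zero => rfl
      | succ n ih =>
        rw [pow_succ', Function.iterate_succ_apply', ← ih]
        rfl
    rw [h2]
    exact hf x
  have h2 := Equiv.Perm.card_fixedPoints_modEq h1
  have h3 : Fintype.card (Function.fixedPoints F) =
      (Finset.univ.filter fun x => f x = x).card := by
    rw [← Fintype.card_subtype]
    rfl
  rw [h3] at h2
  exact h2

variable [Finite K]

/-- `g` acts freely on the nonzero vectors of the complement of the fixed space -/
theorem free_dvd (hinj : Function.Injective g) (hrp : r.Prime) (hg : g ^ r = 1)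
    (hr : (r : K) ≠ 0) {U : Submodule K V} (hU : Inv g U) (hUW : U ≤ LinearMap.ker (av g r)) :
    (r : ℤ) ∣ (Nat.card K : ℤ) ^ finrank K U - 1 := by
  classical
  have : Finite V := Module.finite_of_finite K
  let _ : Fintype V := Fintype.ofFinite V
  let f : {v : V // v ∈ U ∧ v ∉ (⊥ : Submodule K V)} → {v : V // v ∈ U ∧ v ∉ (⊥ : Submodule K V)} :=
    fun v => ⟨g v.1, hU _ v.2.1, fun h => v.2.2 (by
      rw [mem_bot] at h ⊢
      exact hinj (by rw [h, map_zero]))⟩
  have hiter : ∀ (n : ℕ) v, (f^[n] v).1 = (g ^ n) v.1 := by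
    intro n
    induction n with
    | zero => intro v; rfl
    | succ n ih =>
      intro v
      rw [Function.iterate_succ_apply', pow_succ', Module.End.mul_apply, ← ih]
  have h1 := modEq_fixed f hrp (fun v => Subtype.ext (by rw [hiter, hg]; rfl))
  have h2 : (Finset.univ.filter fun x => f x = x) = ∅ := by
    rw [Finset.eq_empty_iff_forall_notMem]
    intro x hx
    rw [Finset.mem_filter] at hx
    have h3 : g x.1 = x.1 := congrArg Subtype.val hx.2
    apply x.2.2
    rw [mem_bot]
    refine fix_disj hr (mem_ker_sh.2 ?_) (hUW x.2.1)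
    rw [one_smul, h3]
  rw [h2, Finset.card_empty, Fintype.card_subtype] at h1
  have h3 : (r : ℤ) ∣ ((Finset.univ.filter fun v => v ∈ U ∧ v ∉ (⊥ : Submodule K V)).card : ℤ) := by
    exact_mod_cast (Nat.modEq_zero_iff_dvd.1 h1)
  rw [card_diff bot_le, finrank_bot, pow_zero] at h3
  exact h3

end Averaging

section Blocks

variable {K V : Type*} [Field K] [Finite K] [AddCommGroup V] [Module K V] [FiniteDimensional K V]
  {D : Set (Submodule K V)}

/-- the number of the blocks through a point -/
theorem IsQFano.card_through (hD : IsQFano D) [Fintype (Submodule K V)]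
    [DecidablePred fun U => U ∈ D] {p : V} [DecidablePred fun U : Submodule K V => U ∈ D ∧ p ∈ U]
    (hp : p ≠ 0) :
    ((Finset.univ.filter fun U : Submodule K V => U ∈ D ∧ p ∈ U).card : ℤ) =
      (Nat.card K : ℤ) ^ 4 + (Nat.card K : ℤ) ^ 2 + 1 := by
  classical
  have : Finite V := Module.finite_of_finite K
  let _ : Fintype V := Fintype.ofFinite V
  have hp1 : finrank K (K ∙ p) = 1 := finrank_span_singleton hp
  let S : Finset V := Finset.univ.filter fun v => v ∈ (⊤ : Submodule K V) ∧ v ∉ K ∙ p
  let T : Finset (Submodule K V) := Finset.univ.filter fun U : Submodule K V => U ∈ D ∧ p ∈ U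
  let R : V → Submodule K V → Prop := fun v U => v ∈ U
  have hcount := Finset.sum_card_bipartiteAbove_eq_sum_card_bipartiteBelow (s := S) (t := T) R
  have hS : (S.card : ℤ) = (Nat.card K : ℤ) ^ 7 - (Nat.card K : ℤ) := by
    rw [card_diff le_top, hp1, finrank_top, hD.dim, pow_one]
  have h1 : ∀ v ∈ S, (T.bipartiteAbove R v).card = 1 := by
    intro v hv
    simp only [S, Finset.mem_filter, Finset.mem_univ, true_and, mem_top] at hv
    obtain ⟨U, hU, hpU, hvU⟩ := hD.exists_block hp hv
    rw [Finset.card_eq_one]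
    refine ⟨U, ?_⟩
    ext U'
    simp only [T, Finset.bipartiteAbove, Finset.mem_filter, Finset.mem_univ, true_and, R,
      Finset.mem_singleton]
    constructor
    · rintro ⟨⟨hU', hpU'⟩, hvU'⟩
      exact hD.eq_of_mem hU' hU hp hv hpU' hvU' hpU hvU
    · rintro rfl
      exact ⟨⟨hU, hpU⟩, hvU⟩
  have h2 : ∀ U ∈ T, ((S.bipartiteBelow R U).card : ℤ) =
      (Nat.card K : ℤ) ^ 3 - (Nat.card K : ℤ) := by
    intro U hU
    simp only [T, Finset.mem_filter, Finset.mem_univ, true_and] at hU
    have he : S.bipartiteBelow R U = Finset.univ.filter fun v => v ∈ U ∧ v ∉ K ∙ p := by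
      ext v
      simp only [S, Finset.bipartiteBelow, Finset.mem_filter, Finset.mem_univ, true_and, R,
        mem_top]
      exact and_comm
    rw [he, card_diff ((span_singleton_le_iff_mem _ _).2 hU.2), hD.block U hU.1, hp1, pow_one]
  have h3 : ((∑ a ∈ S, (T.bipartiteAbove R a).card : ℕ) : ℤ) =
      (Nat.card K : ℤ) ^ 7 - (Nat.card K : ℤ) := by
    rw [Finset.sum_congr rfl h1, Finset.sum_const, smul_eq_mul, mul_one, hS]
  have h4 : ((∑ b ∈ T, (S.bipartiteBelow R b).card : ℕ) : ℤ) =
      (T.card : ℤ) * ((Nat.card K : ℤ) ^ 3 - (Nat.card K : ℤ)) := by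
    push_cast
    rw [Finset.sum_congr rfl h2, Finset.sum_const, nsmul_eq_mul]
  rw [hcount, h4] at h3
  have hq : (2 : ℤ) ≤ Nat.card K := by exact_mod_cast two_le_card (K := K)
  change (T.card : ℤ) = _
  generalize (Nat.card K : ℤ) = q at h3 hq
  have h5 : 0 < q ^ 3 - q := by
    have h7 : q ^ 3 - q = q * ((q - 1) * (q + 1)) := by ring
    rw [h7]
    have : 0 < q - 1 := by linarith
    positivity
  have h6 : (T.card : ℤ) * (q ^ 3 - q) = (q ^ 4 + q ^ 2 + 1) * (q ^ 3 - q) := by
    rw [h3]
    ring
  exact mul_right_cancel₀ h5.ne' h6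

/-- the number of the blocks -/
theorem IsQFano.card_blocks (hD : IsQFano D) [Fintype (Submodule K V)]
    [DecidablePred fun U => U ∈ D] :
    ((Finset.univ.filter fun U : Submodule K V => U ∈ D).card : ℤ) * ((Nat.card K : ℤ) - 1) =
      ((Nat.card K : ℤ) ^ 2 - (Nat.card K : ℤ) + 1) * ((Nat.card K : ℤ) ^ 7 - 1) := by
  classical
  have : Finite V := Module.finite_of_finite K
  let _ : Fintype V := Fintype.ofFinite V
  let S : Finset V := Finset.univ.filter fun v => v ∈ (⊤ : Submodule K V) ∧
    v ∉ (⊥ : Submodule K V)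
  let T : Finset (Submodule K V) := Finset.univ.filter fun U : Submodule K V => U ∈ D
  let R : V → Submodule K V → Prop := fun v U => v ∈ U
  have hcount := Finset.sum_card_bipartiteAbove_eq_sum_card_bipartiteBelow (s := S) (t := T) R
  have hS : (S.card : ℤ) = (Nat.card K : ℤ) ^ 7 - 1 := by
    rw [card_diff le_top, finrank_bot, finrank_top, hD.dim, pow_zero]
  have h1 : ∀ v ∈ S, ((T.bipartiteAbove R v).card : ℤ) =
      (Nat.card K : ℤ) ^ 4 + (Nat.card K : ℤ) ^ 2 + 1 := by
    intro v hv
    simp only [S, Finset.mem_filter, Finset.mem_univ, true_and, mem_top, mem_bot] at hv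
    rw [← hD.card_through hv]
    congr 2
    ext U
    simp only [T, Finset.bipartiteAbove, Finset.mem_filter, Finset.mem_univ, true_and, R]
  have h2 : ∀ U ∈ T, ((S.bipartiteBelow R U).card : ℤ) = (Nat.card K : ℤ) ^ 3 - 1 := by
    intro U hU
    simp only [T, Finset.mem_filter, Finset.mem_univ, true_and] at hU
    have he : S.bipartiteBelow R U =
        Finset.univ.filter fun v => v ∈ U ∧ v ∉ (⊥ : Submodule K V) := by
      ext v
      simp only [S, Finset.bipartiteBelow, Finset.mem_filter, Finset.mem_univ, true_and, R,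
        mem_top]
      exact and_comm
    rw [he, card_diff bot_le, hD.block U hU, finrank_bot, pow_zero]
  have h3 : ((∑ a ∈ S, (T.bipartiteAbove R a).card : ℕ) : ℤ) =
      ((Nat.card K : ℤ) ^ 7 - 1) * ((Nat.card K : ℤ) ^ 4 + (Nat.card K : ℤ) ^ 2 + 1) := by
    push_cast
    rw [Finset.sum_congr rfl h1, Finset.sum_const, nsmul_eq_mul, hS]
  have h4 : ((∑ b ∈ T, (S.bipartiteBelow R b).card : ℕ) : ℤ) =
      (T.card : ℤ) * ((Nat.card K : ℤ) ^ 3 - 1) := by
    push_cast
    rw [Finset.sum_congr rfl h2, Finset.sum_const, nsmul_eq_mul]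
  rw [hcount, h4] at h3
  have hq : (2 : ℤ) ≤ Nat.card K := by exact_mod_cast two_le_card (K := K)
  change (T.card : ℤ) * _ = _
  generalize (Nat.card K : ℤ) = q at h3 hq
  have h5 : 0 < q ^ 2 + q + 1 := by positivity
  have h6 : ((T.card : ℤ) * (q - 1)) * (q ^ 2 + q + 1) =
      ((q ^ 2 - q + 1) * (q ^ 7 - 1)) * (q ^ 2 + q + 1) := by
    have h7 : ((T.card : ℤ) * (q - 1)) * (q ^ 2 + q + 1) = (T.card : ℤ) * (q ^ 3 - 1) := by ring
    rw [h7, h3]
    ring
  exact mul_right_cancel₀ h5.ne' h6

/-- the action on a set of blocks -/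
theorem fixed_blocks [Fintype (Submodule K V)] {g : End K V} {r : ℕ} (hrp : r.Prime)
    (hgr : g ^ r = 1) (P : Submodule K V → Prop) [DecidablePred P]
    [DecidablePred fun U : Submodule K V => P U ∧ Inv g U]
    (hP : ∀ U, P U → P (U.map g)) :
    (Finset.univ.filter P).card ≡ (Finset.univ.filter fun U => P U ∧ Inv g U).card [MOD r] := by
  classical
  have hinj : Function.Injective g := by
    have h1 : Function.LeftInverse (g ^ (r - 1)) g := by
      intro v
      rw [← Module.End.mul_apply, ← pow_succ, Nat.sub_add_cancel hrp.one_le, hgr]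
      rfl
    exact h1.injective
  let f : {U : Submodule K V // P U} → {U : Submodule K V // P U} :=
    fun U => ⟨U.1.map g, hP _ U.2⟩
  have hiter : ∀ (n : ℕ) U, (f^[n] U).1 = U.1.map (g ^ n) := by
    intro n
    induction n with
    | zero =>
      intro U
      rw [pow_zero]
      exact (Submodule.map_id U.1).symm
    | succ n ih =>
      intro U
      rw [Function.iterate_succ_apply', pow_succ']
      change (f^[n] U).1.map g = _
      rw [ih, ← Submodule.map_comp]
      rfl
  have h1 := modEq_fixed f hrp (fun U => Subtype.ext (by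
    rw [hiter, hgr]
    exact Submodule.map_id U.1))
  rw [Fintype.card_subtype] at h1
  refine h1.trans ?_
  have h2 : (Finset.univ.filter fun x => f x = x).card =
      (Finset.univ.filter fun U => P U ∧ Inv g U).card := by
    refine Finset.card_bij (fun U _ => U.1) ?_ ?_ ?_
    · intro U hU
      rw [Finset.mem_filter] at hU ⊢
      refine ⟨Finset.mem_univ _, U.2, ?_⟩
      have h3 : U.1.map g = U.1 := congrArg Subtype.val hU.2
      intro u hu
      rw [← h3]
      exact ⟨u, hu, rfl⟩
    · intro U _ U' _ h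
      exact Subtype.ext h
    · intro U hU
      rw [Finset.mem_filter] at hU
      refine ⟨⟨U, hU.2.1⟩, ?_, rfl⟩
      rw [Finset.mem_filter]
      refine ⟨Finset.mem_univ _, Subtype.ext ?_⟩
      change U.map g = U
      refine eq_of_le_of_finrank_eq ?_ ?_
      · rintro _ ⟨u, hu, rfl⟩
        exact hU.2.2 u hu
      · exact LinearEquiv.finrank_eq (Submodule.equivMapOfInjective g hinj U).symm
  rw [h2]

end Blocks

end Pool.Agent.QFano
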