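import Pool.Agent.QFano.PartD

/-!
# MP_b24993_co: automorphisms of prime order `r`, `r` does not divide `q (q - 1)`
-/

set_option autoImplicit false
set_option linter.unusedSectionVars false

namespace Pool.Agent.QFano

open Module Submodule

section

variable {K V : Type*} [Field K] [Finite K] [AddCommGroup V] [Module K V] [FiniteDimensional K V]
  {D : Set (Submodule K V)} {g : End K V} {r : ℕ}

theorem cast_ne_zero (hrp : r.Prime) (h : ¬ r ∣ Nat.card K) : (r : K) ≠ 0 := by
  intro h0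
  have : Fintype K := Fintype.ofFinite K
  obtain ⟨p, hp⟩ := CharP.exists K
  obtain ⟨n, hpp, hn⟩ := FiniteField.card K p
  have h1 : p ∣ r := (CharP.cast_eq_zero_iff K p r).1 h0
  have h2 : p = r := (Nat.prime_dvd_prime_iff_eq hpp hrp).1 h1
  apply h
  rw [Nat.card_eq_fintype_card, hn, h2]
  exact dvd_pow_self r n.ne_zero

theorem inj_of_pow (hrp : r.Prime) (hgr : g ^ r = 1) : Function.Injective g := by
  have h1 : Function.LeftInverse (g ^ (r - 1)) g := by
    intro v
    rw [← Module.End.mul_apply, ← pow_succ, Nat.sub_add_cancel hrp.one_le, hgr]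
    rfl
  exact h1.injective

theorem inv_inf {U W : Submodule K V} (hU : Inv g U) (hW : Inv g W) : Inv g (U ⊓ W) :=
  fun u hu => ⟨hU u hu.1, hW u hu.2⟩

/-- there is no invariant subspace of dimension one in the complement of the fixed space -/
theorem no_one (hrp : r.Prime) (hgr : g ^ r = 1) (hr : (r : K) ≠ 0)
    (hq1 : ¬ (r : ℤ) ∣ (Nat.card K : ℤ) - 1) {U : Submodule K V} (hU : Inv g U)
    (hUW : U ≤ LinearMap.ker (av g r)) : finrank K U ≠ 1 := by
  intro h
  have h1 := free_dvd (inj_of_pow hrp hgr) hrp hgr hr hU hUW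
  rw [h, pow_one] at h1
  exact hq1 h1

theorem inv_ker_sh (g : End K V) (s : K) : Inv g (LinearMap.ker (sh g s)) :=
  inv_of_le_ker (s := s) le_rfl

/-- fixed space of dimension three and `r ∣ q + 1`: impossible -/
theorem IsQFano.K2 (hD : IsQFano D) (hg : IsAut D g) (hrp : r.Prime) (hgr : g ^ r = 1)
    (hr : (r : K) ≠ 0) (hrq : ¬ r ∣ Nat.card K) (hq1 : ¬ (r : ℤ) ∣ (Nat.card K : ℤ) - 1)
    (h3 : finrank K (LinearMap.ker (sh g 1)) = 3) (hk : (r : ℤ) ∣ (Nat.card K : ℤ) + 1) :
    False := by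
  classical
  have : Finite V := Module.finite_of_finite K
  let _ : Fintype V := Fintype.ofFinite V
  have hfin : Finite (Submodule K V) :=
    Finite.of_injective (fun U : Submodule K V => (U : Set V)) SetLike.coe_injective
  let _ : Fintype (Submodule K V) := Fintype.ofFinite _
  have : Fact r.Prime := ⟨hrp⟩
  have hdim := hD.dim
  set F := LinearMap.ker (sh g 1) with hF
  set W := LinearMap.ker (av g r) with hW
  have hW4 : finrank K W = 4 := by
    have := finrank_split hgr hr
    rw [← hF, ← hW] at this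
    omega
  have hFinv : Inv g F := inv_ker_sh g 1
  have hWinv : Inv g W := inv_av hgr
  have hno : ∀ U : Submodule K V, Inv g U → U ≤ W → finrank K U ≠ 1 := fun U hU hUW =>
    no_one hrp hgr hr hq1 hU hUW
  have hsplit : ∀ U : Submodule K V, Inv g U → finrank K (U ⊓ F : Submodule K V) +
      finrank K (U ⊓ W : Submodule K V) = finrank K U := fun U hU => split_of_inv hU hgr hr
  -- `F` is a block
  have hFD : F ∈ D := by
    obtain ⟨x, hxF, hx0⟩ := exists_ne_zero (W := F) (by omega)
    obtain ⟨y, hyF, hyx⟩ := exists_pair (W := F) (by omega) x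
    obtain ⟨U, hU, hxU, hyU⟩ := hD.exists_block hx0 hyx
    have h4 := finrank_mono (pair_le (W := U ⊓ F) ⟨hxU, hxF⟩ ⟨hyU, hyF⟩)
    rw [finrank_pair hx0 hyx] at h4
    have hUinv : Inv g U := hD.inv_block' hg h4 inf_le_left hU
      (inv_of_le_ker (s := 1) inf_le_right)
    have h5 := hsplit U hUinv
    have h6 := hD.block U hU
    have h7 := hno (U ⊓ W) (inv_inf hUinv hWinv) inf_le_right
    have h8 : finrank K (U ⊓ F : Submodule K V) = 3 := by omega
    have h9 : U ⊓ F = U := eq_of_le_of_finrank_eq inf_le_left (by omega)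
    have h10 : U ⊓ F = F := eq_of_le_of_finrank_eq inf_le_right (by omega)
    rw [← h10, h9]
    exact hU
  -- the other fixed blocks through a vector of `F`
  have hform : ∀ U ∈ D, Inv g U → U ≠ F → ∀ p ∈ F, p ≠ 0 → p ∈ U →
      finrank K (U ⊓ F : Submodule K V) = 1 ∧ finrank K (U ⊓ W : Submodule K V) = 2 := by
    intro U hU hUinv hUF p hp hp0 hpU
    have h4 : 1 ≤ finrank K (U ⊓ F : Submodule K V) := by
      by_contra hcon
      have h5 : U ⊓ F = ⊥ := Submodule.finrank_eq_zero.1 (by omega)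
      have h6 : p ∈ U ⊓ F := ⟨hpU, hp⟩
      rw [h5, mem_bot] at h6
      exact hp0 h6
    have h5 : ¬ 2 ≤ finrank K (U ⊓ F : Submodule K V) := fun h =>
      hUF (hD.eq_of_finrank hU hFD h)
    have h6 := hsplit U hUinv
    have h7 := hD.block U hU
    omega
  -- at least two other fixed blocks through every point of `F`
  have htwo : ∀ p ∈ F, p ≠ 0 → ∃ U1 ∈ D, ∃ U2 ∈ D, U1 ≠ U2 ∧ U1 ≠ F ∧ U2 ≠ F ∧ Inv g U1 ∧
      Inv g U2 ∧ p ∈ U1 ∧ p ∈ U2 := by
    intro p hp hp0
    have hgp : g p = p := by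
      have := mem_ker_sh.1 hp
      rwa [one_smul] at this
    have h4 := fixed_blocks hrp hgr (fun U : Submodule K V => U ∈ D ∧ p ∈ U)
      (fun U hU => ⟨hg.2 U hU.1, ⟨p, hU.2, hgp⟩⟩)
    have h5 := hD.card_through hp0
    set f := (Finset.univ.filter fun U : Submodule K V => (U ∈ D ∧ p ∈ U) ∧ Inv g U) with hf
    have h6 : ((f.card : ℕ) : ZMod r) = 3 := by
      rw [← (ZMod.natCast_eq_natCast_iff _ _ _).2 h4]
      have h7 : (((Finset.univ.filter fun U : Submodule K V => U ∈ D ∧ p ∈ U).card : ℤ) :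
          ZMod r) = (((Nat.card K : ℤ) ^ 4 + (Nat.card K : ℤ) ^ 2 + 1 : ℤ) : ZMod r) := by
        rw [h5]
      have h8 : (((Nat.card K : ℤ) + 1 : ℤ) : ZMod r) = 0 :=
        (ZMod.intCast_zmod_eq_zero_iff_dvd _ _).2 hk
      push_cast at h7 h8
      rw [h7]
      have h9 : (Nat.card K : ZMod r) = -1 := eq_neg_of_add_eq_zero_left h8
      rw [h9]
      ring
    have h2 : (2 : ZMod r) ≠ 0 := by
      intro h
      have h7 : (((2 : ℕ)) : ZMod r) = 0 := by exact_mod_cast h
      rw [ZMod.natCast_eq_zero_iff] at h7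
      have h8 : r = 2 := (Nat.prime_dvd_prime_iff_eq hrp Nat.prime_two).1 h7
      subst h8
      have h9 : ¬ (2 : ℤ) ∣ (Nat.card K : ℤ) := by exact_mod_cast hrq
      push_cast at hq1 hk
      omega
    have hFf : F ∈ f := by
      rw [hf, Finset.mem_filter]
      exact ⟨Finset.mem_univ _, ⟨hFD, hp⟩, hFinv⟩
    have h7 : 3 ≤ f.card := by
      by_contra hcon
      have h8 : 0 < f.card := Finset.card_pos.2 ⟨F, hFf⟩
      have h9 : f.card = 1 ∨ f.card = 2 := by omega
      rcases h9 with h9 | h9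
      · rw [h9] at h6
        apply h2
        have : (2 : ZMod r) = 3 - 1 := by norm_num
        rw [this, ← h6]
        push_cast
        ring
      · rw [h9] at h6
        have : (1 : ZMod r) = 3 - 2 := by norm_num
        have h10 : (1 : ZMod r) = 0 := by
          rw [this, ← h6]
          push_cast
          ring
        exact one_ne_zero h10
    have h8 : 1 < (f.erase F).card := by
      rw [Finset.card_erase_of_mem hFf]
      omega
    obtain ⟨U1, hU1, U2, hU2, h12⟩ := Finset.one_lt_card.1 h8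
    rw [Finset.mem_erase, hf, Finset.mem_filter] at hU1 hU2
    exact ⟨U1, hU1.2.2.1.1, U2, hU2.2.2.1.1, h12, hU1.1, hU2.1, hU1.2.2.2, hU2.2.2.2,
      hU1.2.2.1.2, hU2.2.2.1.2⟩
  let S : Finset V := Finset.univ.filter fun v => v ∈ F ∧ v ∉ (⊥ : Submodule K V)
  let T : Finset V := Finset.univ.filter fun v => v ∈ W ∧ v ∉ (⊥ : Submodule K V)
  let R : V → V → Prop := fun p w => ∃ U ∈ D, Inv g U ∧ U ≠ F ∧ p ∈ U ∧ w ∈ U
  have hcount := Finset.sum_card_bipartiteAbove_eq_sum_card_bipartiteBelow (s := S) (t := T) R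
  have hS : (S.card : ℤ) = (Nat.card K : ℤ) ^ 3 - 1 := by
    rw [card_diff bot_le, h3, finrank_bot, pow_zero]
  have hT : (T.card : ℤ) = (Nat.card K : ℤ) ^ 4 - 1 := by
    rw [card_diff bot_le, hW4, finrank_bot, pow_zero]
  have hq : (2 : ℤ) ≤ Nat.card K := by exact_mod_cast two_le_card (K := K)
  have h1 : ∀ p ∈ S, 2 * ((Nat.card K : ℤ) ^ 2 - 1) ≤ ((T.bipartiteAbove R p).card : ℤ) := by
    intro p hp
    simp only [S, Finset.mem_filter, Finset.mem_univ, true_and, mem_bot] at hp
    obtain ⟨U1, hU1, U2, hU2, h12, h1F, h2F, hi1, hi2, hp1, hp2⟩ := htwo p hp.1 hp.2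
    have hsub : (Finset.univ.filter fun v => v ∈ U1 ⊓ W ∧ v ∉ (⊥ : Submodule K V)) ∪
        (Finset.univ.filter fun v => v ∈ U2 ⊓ W ∧ v ∉ (⊥ : Submodule K V)) ⊆
        T.bipartiteAbove R p := by
      intro v hv
      simp only [Finset.mem_union, Finset.mem_filter, Finset.mem_univ, true_and, mem_inf] at hv
      simp only [T, Finset.bipartiteAbove, Finset.mem_filter, Finset.mem_univ, true_and, R]
      rcases hv with hv | hv
      · exact ⟨⟨hv.1.2, hv.2⟩, U1, hU1, hi1, h1F, hp1, hv.1.1⟩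
      · exact ⟨⟨hv.1.2, hv.2⟩, U2, hU2, hi2, h2F, hp2, hv.1.1⟩
    have hdisj : Disjoint
        (Finset.univ.filter fun v => v ∈ U1 ⊓ W ∧ v ∉ (⊥ : Submodule K V))
        (Finset.univ.filter fun v => v ∈ U2 ⊓ W ∧ v ∉ (⊥ : Submodule K V)) := by
      rw [Finset.disjoint_left]
      intro v hv1 hv2
      simp only [Finset.mem_filter, Finset.mem_univ, true_and, mem_inf, mem_bot] at hv1 hv2
      have hvp : v ∉ K ∙ p := by
        intro h
        have h4 : v ∈ F := ((span_singleton_le_iff_mem p F).2 hp.1) h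
        exact hv1.2 (fix_disj hr h4 hv1.1.2)
      exact h12 (hD.eq_of_mem hU1 hU2 hp.2 hvp hp1 hv1.1.1 hp2 hv2.1.1)
    have h4 := Finset.card_le_card hsub
    rw [Finset.card_union_of_disjoint hdisj] at h4
    have h5 : ((Finset.univ.filter fun v => v ∈ U1 ⊓ W ∧ v ∉ (⊥ : Submodule K V)).card : ℤ) =
        (Nat.card K : ℤ) ^ 2 - 1 := by
      rw [card_diff bot_le, (hform U1 hU1 hi1 h1F p hp.1 hp.2 hp1).2, finrank_bot, pow_zero]
    have h6 : ((Finset.univ.filter fun v => v ∈ U2 ⊓ W ∧ v ∉ (⊥ : Submodule K V)).card : ℤ) =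
        (Nat.card K : ℤ) ^ 2 - 1 := by
      rw [card_diff bot_le, (hform U2 hU2 hi2 h2F p hp.1 hp.2 hp2).2, finrank_bot, pow_zero]
    have h7 : (((Finset.univ.filter fun v => v ∈ U1 ⊓ W ∧ v ∉ (⊥ : Submodule K V)).card +
        (Finset.univ.filter fun v => v ∈ U2 ⊓ W ∧ v ∉ (⊥ : Submodule K V)).card : ℕ) : ℤ) ≤
        ((T.bipartiteAbove R p).card : ℤ) := by exact_mod_cast h4
    push_cast at h7
    linarith
  have h2 : ∀ w ∈ T, ((S.bipartiteBelow R w).card : ℤ) ≤ (Nat.card K : ℤ) - 1 := by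
    intro w hw
    simp only [T, Finset.mem_filter, Finset.mem_univ, true_and, mem_bot] at hw
    rcases (S.bipartiteBelow R w).eq_empty_or_nonempty with he | ⟨p0, hp0⟩
    · rw [he, Finset.card_empty]
      push_cast
      linarith
    · simp only [S, Finset.bipartiteBelow, Finset.mem_filter, Finset.mem_univ, true_and, R,
        mem_bot] at hp0
      obtain ⟨⟨hp0F, hp00⟩, U0, hU0, hi0, hU0F, hp0U, hwU0⟩ := hp0
      have hf0 := hform U0 hU0 hi0 hU0F p0 hp0F hp00 hp0U
      have hsub : S.bipartiteBelow R w ⊆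
          Finset.univ.filter fun v => v ∈ U0 ⊓ F ∧ v ∉ (⊥ : Submodule K V) := by
        intro p hp
        simp only [S, Finset.bipartiteBelow, Finset.mem_filter, Finset.mem_univ, true_and, R,
          mem_bot] at hp
        obtain ⟨⟨hpF, hpne⟩, U, hU, hi, hUF, hpU, hwU⟩ := hp
        have hf := hform U hU hi hUF p hpF hpne hpU
        have h4 : 1 ≤ finrank K ((U ⊓ W) ⊓ (U0 ⊓ W) : Submodule K V) := by
          by_contra hcon
          have h5 : (U ⊓ W) ⊓ (U0 ⊓ W) = ⊥ := Submodule.finrank_eq_zero.1 (by omega)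
          have h6 : w ∈ (U ⊓ W) ⊓ (U0 ⊓ W) := ⟨⟨hwU, hw.1⟩, hwU0, hw.1⟩
          rw [h5, mem_bot] at h6
          exact hw.2 h6
        have h5 := hno ((U ⊓ W) ⊓ (U0 ⊓ W))
          (inv_inf (inv_inf hi hWinv) (inv_inf hi0 hWinv)) (inf_le_left.trans inf_le_right)
        have h6 : finrank K ((U ⊓ W) ⊓ (U0 ⊓ W) : Submodule K V) ≤
            finrank K (U ⊓ U0 : Submodule K V) :=
          finrank_mono (inf_le_inf inf_le_left inf_le_left)
        have h7 : U = U0 := hD.eq_of_finrank hU hU0 (by omega)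
        simp only [Finset.mem_filter, Finset.mem_univ, true_and, mem_inf, mem_bot]
        exact ⟨⟨h7 ▸ hpU, hpF⟩, hpne⟩
      have h4 := Finset.card_le_card hsub
      have h5 : ((Finset.univ.filter fun v => v ∈ U0 ⊓ F ∧ v ∉ (⊥ : Submodule K V)).card : ℤ) =
          (Nat.card K : ℤ) - 1 := by
        rw [card_diff bot_le, hf0.1, finrank_bot, pow_zero, pow_one]
      rw [← h5]
      exact_mod_cast h4
  have h4 : (S.card : ℤ) * (2 * ((Nat.card K : ℤ) ^ 2 - 1)) ≤
      ((∑ a ∈ S, (T.bipartiteAbove R a).card : ℕ) : ℤ) := by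
    push_cast
    rw [← nsmul_eq_mul, ← Finset.sum_const]
    exact Finset.sum_le_sum h1
  have h5 : ((∑ b ∈ T, (S.bipartiteBelow R b).card : ℕ) : ℤ) ≤
      (T.card : ℤ) * ((Nat.card K : ℤ) - 1) := by
    push_cast
    rw [← nsmul_eq_mul, ← Finset.sum_const]
    exact Finset.sum_le_sum h2
  rw [hcount] at h4
  have h6 := h4.trans h5
  rw [hS, hT] at h6
  generalize (Nat.card K : ℤ) = q at h6 hq
  have h7 : (q ^ 3 - 1) * (2 * (q ^ 2 - 1)) - (q ^ 4 - 1) * (q - 1) =
      (q - 1) * ((q - 1) * (q + 1)) * (q + 1) ^ 2 := by ring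
  have h8 : 0 < (q - 1) * ((q - 1) * (q + 1)) * (q + 1) ^ 2 := by
    have h9 : 0 < q - 1 := by linarith
    positivity
  linarith

/-- a polynomial in `g` which kills an invariant subspace -/
theorem exists_poly {U : Submodule K V} (hU : Inv g U) :
    ∃ p : Polynomial K, p.Monic ∧ p.natDegree = finrank K U ∧
      ∀ u ∈ U, Polynomial.aeval g p u = 0 := by
  let f : End K U := g.restrict hU
  refine ⟨f.charpoly, f.charpoly_monic, f.charpoly_natDegree, fun u hu => ?_⟩
  have h1 : ∀ (p : Polynomial K) (x : U), ((Polynomial.aeval f p x : U) : V) =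
      Polynomial.aeval g p x.1 := by
    intro p
    induction p using Polynomial.induction_on' with
    | add p q hp hq =>
      intro x
      rw [map_add, map_add, LinearMap.add_apply, LinearMap.add_apply, ← hp, ← hq]
      rfl
    | monomial n a =>
      intro x
      rw [Polynomial.aeval_monomial, Polynomial.aeval_monomial]
      have h2 : ∀ n : ℕ, (((f ^ n) x : U) : V) = (g ^ n) x.1 := by
        intro n
        induction n with
        | zero => rfl
        | succ n ih =>
          rw [pow_succ', pow_succ', Module.End.mul_apply, Module.End.mul_apply, ← ih]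
          rfl
      rw [Module.End.mul_apply, Module.End.mul_apply, ← h2]
      rfl
  have h2 := h1 f.charpoly ⟨u, hu⟩
  rw [LinearMap.aeval_self_charpoly] at h2
  rw [← h2]
  rfl

theorem inv_aeval {U : Submodule K V} (hU : Inv g U) (p : Polynomial K) {u : V} (hu : u ∈ U) :
    Polynomial.aeval g p u ∈ U := by
  induction p using Polynomial.induction_on' with
  | add p q hp hq =>
    rw [map_add, LinearMap.add_apply]
    exact U.add_mem hp hq
  | monomial n a =>
    rw [Polynomial.aeval_monomial, Module.End.mul_apply, Module.algebraMap_end_apply]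
    exact U.smul_mem _ (hU.pow n u hu)

theorem zmod_two_aux : ∀ y : ZMod 2, y ^ 2 + y + 1 ≠ 0 := by decide

/-- fixed space of dimension one and `r ∣ q ^ 2 + q + 1` -/
theorem IsQFano.K3 (hD : IsQFano D) (hg : IsAut D g) (hrp : r.Prime) (hgr : g ^ r = 1)
    (hr : (r : K) ≠ 0) (hrq : ¬ r ∣ Nat.card K) (hq1 : ¬ (r : ℤ) ∣ (Nat.card K : ℤ) - 1)
    (h1 : finrank K (LinearMap.ker (sh g 1)) = 1)
    (hk : (r : ℤ) ∣ (Nat.card K : ℤ) ^ 2 + (Nat.card K : ℤ) + 1) :
    ∃ p : Polynomial K, p.Monic ∧ p.natDegree = 3 ∧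
      Polynomial.aeval g ((Polynomial.X - 1) * p) = 0 := by
  classical
  have : Finite V := Module.finite_of_finite K
  let _ : Fintype V := Fintype.ofFinite V
  have hfin : Finite (Submodule K V) :=
    Finite.of_injective (fun U : Submodule K V => (U : Set V)) SetLike.coe_injective
  let _ : Fintype (Submodule K V) := Fintype.ofFinite _
  have : Fact r.Prime := ⟨hrp⟩
  have hdim := hD.dim
  set F := LinearMap.ker (sh g 1) with hF
  set W := LinearMap.ker (av g r) with hW
  have hW6 : finrank K W = 6 := by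
    have := finrank_split hgr hr
    rw [← hF, ← hW] at this
    omega
  have hWinv : Inv g W := inv_av hgr
  -- the residue `x` of `q`
  set x : ZMod r := (Nat.card K : ZMod r) with hx
  have hx1 : x - 1 ≠ 0 := by
    intro h
    apply hq1
    rw [← ZMod.intCast_zmod_eq_zero_iff_dvd]
    push_cast
    exact h
  have hx0 : x ≠ 0 := by
    intro h
    exact hrq ((ZMod.natCast_eq_zero_iff _ _).1 h)
  have hx2 : x ^ 2 + x + 1 = 0 := by
    have := (ZMod.intCast_zmod_eq_zero_iff_dvd _ _).2 hk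
    push_cast at this
    exact this
  have h2 : (2 : ZMod r) ≠ 0 := by
    intro h
    have h7 : (((2 : ℕ)) : ZMod r) = 0 := by exact_mod_cast h
    rw [ZMod.natCast_eq_zero_iff] at h7
    have h8 : r = 2 := (Nat.prime_dvd_prime_iff_eq hrp Nat.prime_two).1 h7
    subst h8
    exact zmod_two_aux x hx2
  have hno1 : ∀ U : Submodule K V, Inv g U → U ≤ W → finrank K U ≠ 1 := fun U hU hUW =>
    no_one hrp hgr hr hq1 hU hUW
  have hno2 : ∀ U : Submodule K V, Inv g U → U ≤ W → finrank K U ≠ 2 := by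
    intro U hU hUW h
    have h3 := free_dvd (inj_of_pow hrp hgr) hrp hgr hr hU hUW
    rw [h, ← ZMod.intCast_zmod_eq_zero_iff_dvd] at h3
    push_cast at h3
    have h4 : (x - 1) * (x + 1) = 0 := by
      rw [← hx] at h3
      linear_combination h3
    rcases mul_eq_zero.1 h4 with h5 | h5
    · exact hx1 h5
    · have h6 : (1 : ZMod r) = 0 := by linear_combination hx2 - x * h5
      exact one_ne_zero h6
  have hsplit : ∀ U : Submodule K V, Inv g U → finrank K (U ⊓ F : Submodule K V) +
      finrank K (U ⊓ W : Submodule K V) = finrank K U := fun U hU => split_of_inv hU hgr hr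
  have hfixW : ∀ U ∈ D, Inv g U → U ≤ W := by
    intro U hU hi
    have h3 := hsplit U hi
    have h4 := hD.block U hU
    have h5 : finrank K (U ⊓ F : Submodule K V) ≤ 1 := by
      rw [← h1]
      exact finrank_mono inf_le_right
    have h6 := hno2 (U ⊓ W) (inv_inf hi hWinv) inf_le_right
    have h7 : U ⊓ W = U := eq_of_le_of_finrank_eq inf_le_left (by omega)
    exact inf_eq_left.1 h7
  -- the number of the fixed blocks
  have h3 := fixed_blocks hrp hgr (fun U : Submodule K V => U ∈ D) (fun U hU => hg.2 U hU)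
  have h4 := hD.card_blocks
  set f := (Finset.univ.filter fun U : Submodule K V => U ∈ D ∧ Inv g U) with hf
  have h5 : ((f.card : ℕ) : ZMod r) = -2 * x := by
    rw [← (ZMod.natCast_eq_natCast_iff _ _ _).2 h3]
    have h6 := congrArg (fun z : ℤ => (z : ZMod r)) h4
    push_cast at h6
    rw [← hx] at h6
    have h7 : x ^ 3 = 1 := by linear_combination (x - 1) * hx2
    have h8 : ((Finset.univ.filter fun U : Submodule K V => U ∈ D).card : ZMod r) * (x - 1) =
        (-2 * x) * (x - 1) := by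
      rw [h6]
      have h9 : x ^ 7 = x := by
        calc x ^ 7 = x ^ 3 * x ^ 3 * x := by ring
          _ = x := by rw [h7]; ring
      rw [h9]
      linear_combination (x - 1) * hx2
    exact mul_right_cancel₀ hx1 h8
  have h6 : 2 < f.card := by
    by_contra hcon
    have h7 : f.card = 0 ∨ f.card = 1 ∨ f.card = 2 := by omega
    rcases h7 with h7 | h7 | h7
    · rw [h7] at h5
      push_cast at h5
      have h8 : 2 * x = 0 := by linear_combination h5
      rcases mul_eq_zero.1 h8 with h9 | h9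
      · exact h2 h9
      · exact hx0 h9
    · rw [h7] at h5
      push_cast at h5
      have h8 : (3 : ZMod r) = 0 := by
        linear_combination 4 * hx2 - (2 * x + 1) * h5
      have h9 : (x - 1) * (x - 1) = 0 := by linear_combination hx2 - x * h8
      exact hx1 (mul_self_eq_zero.1 h9)
    · rw [h7] at h5
      push_cast at h5
      have h8 : 2 * (x + 1) = 0 := by linear_combination h5
      rcases mul_eq_zero.1 h8 with h9 | h9
      · exact h2 h9
      · have h10 : (1 : ZMod r) = 0 := by linear_combination hx2 - x * h9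
        exact one_ne_zero h10
  obtain ⟨U1, hU1, U2, hU2, U3, hU3, h12, h13, h23⟩ := Finset.two_lt_card.1 h6
  rw [hf, Finset.mem_filter] at hU1 hU2 hU3
  obtain ⟨-, hD1, hi1⟩ := hU1
  obtain ⟨-, hD2, hi2⟩ := hU2
  obtain ⟨-, hD3, hi3⟩ := hU3
  have hdisj : ∀ A ∈ D, ∀ B ∈ D, Inv g A → Inv g B → A ≠ B → A ⊓ B = ⊥ := by
    intro A hA B hB hiA hiB hAB
    have h7 : ¬ 2 ≤ finrank K (A ⊓ B : Submodule K V) := fun h => hAB (hD.eq_of_finrank hA hB h)
    have h8 := hno1 (A ⊓ B) (inv_inf hiA hiB) (inf_le_left.trans (hfixW A hA hiA))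
    exact Submodule.finrank_eq_zero.1 (by omega)
  have d12 := hdisj U1 hD1 U2 hD2 hi1 hi2 h12
  have d13 := hdisj U1 hD1 U3 hD3 hi1 hi3 h13
  have d23 := hdisj U2 hD2 U3 hD3 hi2 hi3 h23
  have hsup : ∀ A ∈ D, ∀ B ∈ D, Inv g A → Inv g B → A ⊓ B = ⊥ → W ≤ A ⊔ B := by
    intro A hA B hB hiA hiB hAB
    have h7 := finrank_sup_add_finrank_inf_eq A B
    rw [hAB, finrank_bot, hD.block A hA, hD.block B hB] at h7
    exact (eq_of_le_of_finrank_eq (sup_le (hfixW A hA hiA) (hfixW B hB hiB))
      (by omega)).ge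
  obtain ⟨p, hp, hpd, hpU⟩ := exists_poly hi1
  rw [hD.block U1 hD1] at hpd
  refine ⟨p, hp, hpd, ?_⟩
  have hpU2 : ∀ v ∈ U2, Polynomial.aeval g p v = 0 := by
    intro v hv
    obtain ⟨a, ha, b, hb, hab⟩ := mem_sup.1 (hsup U1 hD1 U3 hD3 hi1 hi3 d13
      (hfixW U2 hD2 hi2 hv))
    have h7 : Polynomial.aeval g p v ∈ U2 ⊓ U3 := by
      refine ⟨inv_aeval hi2 p hv, ?_⟩
      rw [← hab, map_add, hpU a ha, zero_add]
      exact inv_aeval hi3 p hb
    rw [d23, mem_bot] at h7
    exact h7
  have hpW : ∀ w ∈ W, Polynomial.aeval g p w = 0 := by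
    intro w hw
    obtain ⟨a, ha, b, hb, rfl⟩ := mem_sup.1 (hsup U1 hD1 U2 hD2 hi1 hi2 d12 hw)
    rw [map_add, hpU a ha, hpU2 b hb, add_zero]
  ext v
  rw [map_mul, LinearMap.zero_apply]
  have h7 : v = av g r v + (v - av g r v) := by abel
  rw [h7, map_add]
  have h8 : (Polynomial.aeval g (Polynomial.X - 1 : Polynomial K) * Polynomial.aeval g p)
      (v - av g r v) = 0 := by
    rw [Module.End.mul_apply, hpW _ (sub_av_mem hgr hr v), map_zero]
  have h9 : (Polynomial.aeval g (Polynomial.X - 1 : Polynomial K) * Polynomial.aeval g p)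
      (av g r v) = 0 := by
    rw [← map_mul, mul_comm, map_mul, Module.End.mul_apply]
    have h10 : Polynomial.aeval g (Polynomial.X - 1 : Polynomial K) (av g r v) = 0 := by
      have h11 := av_mem hgr v
      rw [LinearMap.mem_ker, sh_apply, one_smul] at h11
      simpa using h11
    rw [h10, map_zero]
  rw [h8, h9, add_zero]

end

end Pool.Agent.QFano
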