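import Pool.Agent.QFano.PartD2
import Pool.Agent.QFano.PartC3
import Pool.Agent.QFano.PartB

set_option autoImplicit false

/-!
# Automorphisms of prime order

The list of the possible prime orders, and the cyclic shift of the coordinates.
-/

namespace Pool.Agent.QFano

open Module Submodule

section

variable {K V : Type*} [Field K] [Finite K] [AddCommGroup V] [Module K V]
  [FiniteDimensional K V] {D : Set (Submodule K V)} {g : End K V} {r : ℕ}

/-- **(D)** Automorphisms of prime order `r`, for `r` prime to `q (q - 1)`. -/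
theorem IsQFano.primeOrder (hD : IsQFano D) (hg : IsAut D g) (hrp : r.Prime) (hgr : g ^ r = 1)
    (hg1 : g ≠ 1) (hrq : ¬ r ∣ Nat.card K) (hq1 : ¬ (r : ℤ) ∣ (Nat.card K : ℤ) - 1) :
    (finrank K (LinearMap.ker (sh g 1)) = 0 ∧
      (r : ℤ) ∣ ∑ i ∈ Finset.range 7, (Nat.card K : ℤ) ^ i) ∨
    (finrank K (LinearMap.ker (sh g 1)) = 3 ∧ (r : ℤ) ∣ (Nat.card K : ℤ) ^ 2 + 1) ∨
    (finrank K (LinearMap.ker (sh g 1)) = 1 ∧
      ((r : ℤ) ∣ (Nat.card K : ℤ) + 1 ∨ (r : ℤ) ∣ (Nat.card K : ℤ) ^ 2 - (Nat.card K : ℤ) + 1 ∨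
        ((r : ℤ) ∣ (Nat.card K : ℤ) ^ 2 + (Nat.card K : ℤ) + 1 ∧
          ∃ p : Polynomial K, p.Monic ∧ p.natDegree = 3 ∧
            Polynomial.aeval g ((Polynomial.X - 1) * p) = 0))) := by
  have hr : (r : K) ≠ 0 := cast_ne_zero hrp hrq
  have hdim := hD.dim
  have hsum := finrank_split (g := g) hgr hr
  have hinj := inj_of_pow hrp hgr
  have hdvd := free_dvd hinj hrp hgr hr (inv_av hgr) le_rfl
  have hrp' : Prime (r : ℤ) := Nat.prime_iff_prime_int.1 hrp
  set F := LinearMap.ker (sh g 1) with hF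
  set W := LinearMap.ker (av g r) with hW
  set q : ℤ := (Nat.card K : ℤ) with hq
  have hF7 : finrank K F ≤ 7 := by omega
  by_cases h5 : 5 ≤ finrank K F
  · exfalso
    apply hg1
    ext v
    have := hD.A1 hg 1 h5 v
    rw [this, one_smul, Module.End.one_apply]
  by_cases h4 : finrank K F = 4
  · exfalso
    obtain ⟨m, hm⟩ := hD.A2 hg 1 h4
    have hW3 : finrank K W = 3 := by omega
    obtain ⟨w, hw, hw0⟩ := exists_ne_zero (W := W) (by omega)
    have h1 : g w - m • w = 0 := by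
      refine fix_disj (g := g) (r := r) hr (hm w) ?_
      exact W.sub_mem (inv_av hgr w hw) (W.smul_mem m hw)
    refine no_one hrp hgr hr hq1 (U := K ∙ w) ?_ ?_ (finrank_span_singleton hw0)
    · intro u hu
      obtain ⟨c, rfl⟩ := mem_span_singleton.1 hu
      rw [map_smul, sub_eq_zero.1 h1]
      exact smul_mem _ _ (smul_mem _ _ (mem_span_singleton_self w))
    · rw [span_singleton_le_iff_mem]
      exact hw
  by_cases h2 : finrank K F = 2
  · exfalso
    obtain ⟨U, ⟨hU, hFU⟩, -⟩ := hD.cover F h2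
    have hi : Inv g U := hD.inv_block hg h2 hFU hU (inv_of_le_ker le_rfl)
    have h3 := split_of_inv hi hgr hr
    rw [← hF, ← hW, inf_eq_right.2 hFU, hD.block U hU, h2] at h3
    have h4 : finrank K (U ⊓ W : Submodule K V) = 1 := by omega
    exact no_one hrp hgr hr hq1 (inv_inf hi (inv_av hgr)) inf_le_right h4
  have hcases : finrank K F = 0 ∨ finrank K F = 1 ∨ finrank K F = 3 := by omega
  rcases hcases with h | h | h
  · left
    refine ⟨h, ?_⟩
    have hW7 : finrank K W = 7 := by omega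
    rw [hW7] at hdvd
    have h3 : q ^ 7 - 1 = (q - 1) * ∑ i ∈ Finset.range 7, q ^ i := by
      simp only [Finset.sum_range_succ, Finset.sum_range_zero]
      ring
    rw [h3] at hdvd
    exact (hrp'.dvd_or_dvd hdvd).resolve_left hq1
  · right; right
    refine ⟨h, ?_⟩
    have hW6 : finrank K W = 6 := by omega
    rw [hW6] at hdvd
    have h3 : q ^ 6 - 1 = (q - 1) * ((q + 1) * ((q ^ 2 - q + 1) * (q ^ 2 + q + 1))) := by ring
    rw [h3] at hdvd
    have h4 := (hrp'.dvd_or_dvd hdvd).resolve_left hq1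
    rcases hrp'.dvd_or_dvd h4 with h5 | h5
    · exact Or.inl h5
    rcases hrp'.dvd_or_dvd h5 with h6 | h6
    · exact Or.inr (Or.inl h6)
    · exact Or.inr (Or.inr ⟨h6, hD.K3 hg hrp hgr hr hrq hq1 h h6⟩)
  · right; left
    refine ⟨h, ?_⟩
    have hW4 : finrank K W = 4 := by omega
    rw [hW4] at hdvd
    have h3 : q ^ 4 - 1 = (q - 1) * ((q + 1) * (q ^ 2 + 1)) := by ring
    rw [h3] at hdvd
    have h4 := (hrp'.dvd_or_dvd hdvd).resolve_left hq1
    rcases hrp'.dvd_or_dvd h4 with h5 | h5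
    · exact (hD.K2 hg hrp hgr hr hrq hq1 h h5).elim
    · exact h5

end

end Pool.Agent.QFano
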