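import Pool.Agent.QFano.PartD3

set_option autoImplicit false

/-!
# Automorphisms of order seven
-/

namespace Pool.Agent.QFano

open Module Submodule

section

variable {K V : Type*} [Field K] [Finite K] [AddCommGroup V] [Module K V]
  [FiniteDimensional K V] {D : Set (Submodule K V)} {g : End K V}

/-- automorphisms of order seven, for `q = 2, 4` modulo `7` -/
theorem IsQFano.seven (hD : IsQFano D) (hg : IsAut D g) (hgr : g ^ 7 = 1) (hg1 : g ≠ 1)
    (hq : Nat.card K % 7 = 2 ∨ Nat.card K % 7 = 4) :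
    ∃ p : Polynomial K, p.Monic ∧ p.natDegree = 3 ∧
      Polynomial.aeval g ((Polynomial.X - 1) * p) = 0 := by
  have hdvd : ∀ F : ℤ → ℤ, ((7 : ℕ) : ℤ) ∣ F (Nat.card K : ℤ) ↔
      F (Nat.card K : ℤ) ≡ 0 [ZMOD 7] := by
    intro F
    rw [Int.modEq_zero_iff_dvd]
    rfl
  have hq' : (Nat.card K : ℤ) ≡ 2 [ZMOD 7] ∨ (Nat.card K : ℤ) ≡ 4 [ZMOD 7] := by
    rcases hq with h | h
    · left
      unfold Int.ModEq
      omega
    · right
      unfold Int.ModEq
      omega
  have hno : ∀ F : ℤ → ℤ, (∀ a b : ℤ, a ≡ b [ZMOD 7] → F a ≡ F b [ZMOD 7]) →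
      ¬ F 2 ≡ 0 [ZMOD 7] → ¬ F 4 ≡ 0 [ZMOD 7] → ¬ ((7 : ℕ) : ℤ) ∣ F (Nat.card K : ℤ) := by
    intro F hF h2 h4 h
    rw [hdvd] at h
    rcases hq' with h' | h'
    · exact h2 ((hF _ _ h').symm.trans h)
    · exact h4 ((hF _ _ h').symm.trans h)
  have h7 : Nat.Prime 7 := by norm_num
  rcases hD.primeOrder hg h7 hgr hg1 (by omega)
    (hno (fun z => z - 1) (fun a b h => h.sub_right 1) (by decide) (by decide)) with
    ⟨-, h⟩ | ⟨-, h⟩ | ⟨-, h | h | ⟨-, h⟩⟩
  · exfalso
    refine hno (fun z => ∑ i ∈ Finset.range 7, z ^ i) ?_ (by decide) (by decide) h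
    intro a b hab
    simp only [Finset.sum_range_succ, Finset.sum_range_zero]
    gcongr
  · exfalso
    refine hno (fun z => z ^ 2 + 1) ?_ (by decide) (by decide) h
    intro a b hab
    gcongr
  · exfalso
    refine hno (fun z => z + 1) ?_ (by decide) (by decide) h
    intro a b hab
    gcongr
  · exfalso
    refine hno (fun z => z ^ 2 - z + 1) ?_ (by decide) (by decide) h
    intro a b hab
    gcongr
  · exact h

end

section

variable (K : Type*) [Field K]

/-- the cyclic shift of the coordinates -/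
def shift : (Fin 7 → K) →ₗ[K] (Fin 7 → K) := LinearMap.funLeft K K fun i => i + 1

theorem shift_apply (v : Fin 7 → K) (i : Fin 7) : shift K v i = v (i + 1) := rfl

theorem shift_pow_apply (j : ℕ) (v : Fin 7 → K) (i : Fin 7) :
    ((shift K) ^ j) v i = v ((fun k : Fin 7 => k + 1)^[j] i) := by
  induction j generalizing i with
  | zero => simp
  | succ j ih =>
    rw [pow_succ', Module.End.mul_apply, shift_apply, ih, Function.iterate_succ_apply]

theorem shift_pow_seven : (shift K) ^ 7 = 1 := by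
  refine LinearMap.ext fun v => funext fun i => ?_
  have h : (fun k : Fin 7 => k + 1)^[7] i = i := by
    revert i
    decide
  rw [shift_pow_apply, h, Module.End.one_apply]

/-- For `q = 2, 4` modulo `7` a design is not invariant under the cyclic shift of the
coordinates. -/
theorem IsQFano.not_shift [Finite K] {D : Set (Submodule K (Fin 7 → K))} (hD : IsQFano D)
    (hq : Nat.card K % 7 = 2 ∨ Nat.card K % 7 = 4) :
    ¬ ∀ U ∈ D, U.map (shift K) ∈ D := by
  intro h
  have h1 : shift K ≠ 1 := by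
    intro h0
    have h2 := congrFun (LinearMap.congr_fun h0 (Pi.single 0 1)) 0
    rw [shift_apply] at h2
    simp at h2
  have hinj := inj_of_pow (by norm_num : Nat.Prime 7) (shift_pow_seven K)
  obtain ⟨p, hp, hpd, hP⟩ := hD.seven ⟨hinj, h⟩ (shift_pow_seven K) h1 hq
  set P := (Polynomial.X - 1) * p with hPdef
  have hX : (Polynomial.X - 1 : Polynomial K) = Polynomial.X - Polynomial.C 1 := by simp
  have hPm : P.Monic := by
    rw [hPdef, hX]
    exact (Polynomial.monic_X_sub_C 1).mul hp
  have hPd : P.natDegree = 4 := by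
    rw [hPdef, hX, (Polynomial.monic_X_sub_C (1 : K)).natDegree_mul hp,
      Polynomial.natDegree_X_sub_C, hpd]
  have h4 : P.coeff 4 = 1 := by
    rw [← hPd]
    exact hPm
  rw [Polynomial.aeval_eq_sum_range, hPd] at hP
  have h5 := congrFun (LinearMap.congr_fun hP (Pi.single 0 1)) 3
  simp only [Finset.sum_range_succ, Finset.sum_range_zero, zero_add, LinearMap.add_apply,
    LinearMap.smul_apply, Pi.add_apply, Pi.smul_apply, shift_pow_apply, LinearMap.zero_apply,
    Pi.zero_apply, smul_eq_mul] at h5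
  have e0 : (fun k : Fin 7 => k + 1)^[0] 3 = 3 := by decide
  have e1 : (fun k : Fin 7 => k + 1)^[1] 3 = 4 := by decide
  have e2 : (fun k : Fin 7 => k + 1)^[2] 3 = 5 := by decide
  have e3 : (fun k : Fin 7 => k + 1)^[3] 3 = 6 := by decide
  have e4 : (fun k : Fin 7 => k + 1)^[4] 3 = 0 := by decide
  rw [e0, e1, e2, e3, e4, h4] at h5
  simp at h5

end

end Pool.Agent.QFano
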