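import Pool.Agent.QFano.PartD4

set_option autoImplicit false
set_option linter.unusedSectionVars false

/-!
# Designs invariant under a Singer cycle
-/

namespace Pool.Agent.QFano

open Module Submodule

section

variable {K F : Type*} [Field K] [Finite K] [Field F] [Algebra K F] [FiniteDimensional K F]
  {D : Set (Submodule K F)}

/-- The elements which stabilise a block are in the base field. -/
theorem IsQFano.mem_base (hD : IsQFano D) {U : Submodule K F} (hU : U ∈ D) {z : F}
    (hz : ∀ u ∈ U, z * u ∈ U) : ∃ a : K, algebraMap K F a = z := by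
  have hdim := hD.dim
  have h7 : Nat.Prime 7 := by norm_num
  have hmul := finrank_mul_finrank K (IntermediateField.adjoin K {z}) F
  rw [hdim] at hmul
  have hdvd : finrank K (IntermediateField.adjoin K {z}) ∣ 7 := ⟨_, hmul.symm⟩
  rcases (Nat.dvd_prime h7).1 hdvd with h | h
  · rw [IntermediateField.finrank_eq_one_iff, IntermediateField.adjoin_simple_eq_bot_iff,
      IntermediateField.mem_bot] at h
    exact h
  · exfalso
    rw [h] at hmul
    have h1 : finrank (IntermediateField.adjoin K {z}) F = 1 := by omega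
    rw [IntermediateField.finrank_eq_one_iff_eq_top] at h1
    let S : Subalgebra K F :=
      { carrier := {w | ∀ u ∈ U, w * u ∈ U}
        mul_mem' := fun {a b} ha hb u hu => by
          rw [mul_assoc]
          exact ha _ (hb u hu)
        add_mem' := fun {a b} ha hb u hu => by
          rw [add_mul]
          exact U.add_mem (ha u hu) (hb u hu)
        algebraMap_mem' := fun a u hu => by
          rw [← Algebra.smul_def]
          exact U.smul_mem a hu }
    have h2 : Algebra.adjoin K {z} ≤ S := by
      rw [Algebra.adjoin_le_iff]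
      rintro _ rfl
      exact hz
    have h3 : (IntermediateField.adjoin K {z}).toSubalgebra = Algebra.adjoin K {z} :=
      IntermediateField.adjoin_simple_toSubalgebra_of_isAlgebraic
        (Algebra.IsAlgebraic.isAlgebraic z)
    have h4 : ∀ w : F, w ∈ S := by
      intro w
      apply h2
      rw [← h3, h1]
      exact Algebra.mem_top
    obtain ⟨u, hu, hu0⟩ := exists_ne_zero (W := U) (by rw [hD.block U hU]; norm_num)
    have h5 : U = ⊤ := by
      rw [eq_top_iff]
      intro x _
      have h6 := h4 (x / u) u hu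
      rwa [div_mul_cancel₀ x hu0] at h6
    have h6 := hD.block U hU
    rw [h5, finrank_top, hdim] at h6
    omega

/-- A design invariant under multiplications: the Sidon property of the blocks. -/
theorem IsQFano.sidon (hD : IsQFano D)
    (hS : ∀ z : F, z ≠ 0 → ∀ U ∈ D, U.map (LinearMap.mulLeft K z) ∈ D)
    {U : Submodule K F} (hU : U ∈ D) {s1 s2 A1 A2 : F} (h1 : s1 ∈ U) (h2 : s2 ∈ U)
    (hA1 : A1 ∈ U) (hA2 : A2 ∈ U) (hs1 : s1 ≠ 0) (hs2 : s2 ≠ 0) (h : s1 * A1 = s2 * A2)
    (hind : A1 ∉ K ∙ s2) : s2 ∈ K ∙ s1 := by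
  set z := s2 / s1 with hz
  have hz0 : z ≠ 0 := div_ne_zero hs2 hs1
  have e1 : z * s1 = s2 := div_mul_cancel₀ s2 hs1
  have e2 : z * A2 = A1 := by
    rw [hz, div_mul_eq_mul_div, ← h, mul_div_assoc, mul_comm, div_mul_cancel₀ A1 hs1]
  have hU' := hS z hz0 U hU
  have h3 : U.map (LinearMap.mulLeft K z) = U := by
    refine hD.eq_of_mem hU' hU (x := s2) (y := A1) hs2 hind ?_ ?_ h2 hA1
    · exact ⟨s1, h1, e1⟩
    · exact ⟨A2, hA2, e2⟩
  obtain ⟨a, ha⟩ := hD.mem_base hU (z := z) (fun u hu => by
    rw [← h3]
    exact ⟨u, hu, rfl⟩)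
  rw [mem_span_singleton]
  refine ⟨a, ?_⟩
  rw [Algebra.smul_def, ha, e1]

end

end Pool.Agent.QFano
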