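import Pool.Agent.QFano.PartE1

set_option autoImplicit false
set_option linter.unusedSectionVars false

/-!
# Orbits of a Singer cycle on the blocks
-/

namespace Pool.Agent.QFano

open Module Submodule

section

variable (K F : Type*) [Field K] [Fintype K] [Field F] [Algebra K F]

/-- the Frobenius map as a linear map -/
noncomputable abbrev fr : End K F := (FiniteField.frobeniusAlgHom K F).toLinearMap

variable {K F}

theorem fr_apply (x : F) : fr K F x = x ^ Fintype.card K := rfl

theorem fr_mul (x y : F) : fr K F (x * y) = fr K F x * fr K F y := by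
  rw [fr_apply, fr_apply, fr_apply, mul_pow]

theorem fr_algebraMap (a : K) : fr K F (algebraMap K F a) = algebraMap K F a := by
  rw [fr_apply, ← map_pow, FiniteField.pow_card]

theorem fr_pow_apply (j : ℕ) (x : F) : ((fr K F) ^ j) x = x ^ (Fintype.card K ^ j) := by
  induction j with
  | zero => simp
  | succ j ih =>
    rw [pow_succ', Module.End.mul_apply, ih, fr_apply, ← pow_mul, pow_succ]

variable [FiniteDimensional K F]

theorem fr_pow_seven (h : finrank K F = 7) : (fr K F) ^ 7 = 1 := by
  have : Finite F := Module.finite_of_finite K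
  let _ : Fintype F := Fintype.ofFinite F
  refine LinearMap.ext fun x => ?_
  rw [fr_pow_apply, ← h, ← Module.card_eq_pow_finrank (K := K) (V := F), FiniteField.pow_card]
  rfl

theorem fr_fixed {x : F} (h : fr K F x = x) : ∃ a : K, algebraMap K F a = x := by
  classical
  by_contra hcon
  have hq : 1 < Fintype.card K := Fintype.one_lt_card
  have h0 := FiniteField.X_pow_card_sub_X_ne_zero F hq
  have h1 : (insert x (Finset.univ.image (algebraMap K F))) ⊆
      (Polynomial.X ^ Fintype.card K - Polynomial.X : Polynomial F).roots.toFinset := by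
    intro y hy
    rw [Multiset.mem_toFinset, Polynomial.mem_roots h0, Polynomial.IsRoot.def]
    rw [Finset.mem_insert, Finset.mem_image] at hy
    rcases hy with rfl | ⟨a, -, rfl⟩
    · rw [fr_apply] at h
      simp [h]
    · have := fr_algebraMap (F := F) a
      rw [fr_apply] at this
      simp [this]
  have h2 := (Finset.card_le_card h1).trans (Multiset.toFinset_card_le _)
  have h3 := (Polynomial.X ^ Fintype.card K - Polynomial.X : Polynomial F).card_roots'
  rw [FiniteField.X_pow_card_sub_X_natDegree_eq F hq] at h3
  rw [Finset.card_insert_of_notMem, Finset.card_image_of_injective _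
    (algebraMap K F).injective, Finset.card_univ] at h2
  · omega
  · rw [Finset.mem_image]
    rintro ⟨a, -, ha⟩
    exact hcon ⟨a, ha⟩

end

section

variable {K F : Type} [Field K] [Fintype K] [Field F] [Algebra K F] [FiniteDimensional K F]
  {D : Set (Submodule K F)}

theorem map_fr_ml (U : Submodule K F) (z : F) :
    (U.map (LinearMap.mulLeft K z)).map (fr K F) =
      (U.map (fr K F)).map (LinearMap.mulLeft K (fr K F z)) := by
  rw [← Submodule.map_comp, ← Submodule.map_comp]
  congr 1
  refine LinearMap.ext fun x => ?_
  simp only [LinearMap.comp_apply, LinearMap.mulLeft_apply]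
  exact fr_mul z x

theorem map_ml_ml (U : Submodule K F) (z w : F) :
    (U.map (LinearMap.mulLeft K z)).map (LinearMap.mulLeft K w) =
      U.map (LinearMap.mulLeft K (w * z)) := by
  rw [← Submodule.map_comp, LinearMap.mulLeft_mul]

/-- The multiplicative group acts on the blocks. -/
@[reducible]
def act (hS : ∀ z : F, z ≠ 0 → ∀ U ∈ D, U.map (LinearMap.mulLeft K z) ∈ D) :
    MulAction Fˣ {U : Submodule K F // U ∈ D} where
  smul := fun z U => ⟨U.1.map (LinearMap.mulLeft K (z : F)), hS z z.ne_zero U.1 U.2⟩
  one_smul := fun U => by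
    apply Subtype.ext
    change U.1.map (LinearMap.mulLeft K ((1 : Fˣ) : F)) = U.1
    rw [Units.val_one, LinearMap.mulLeft_one, Submodule.map_id]
  mul_smul := fun z w U => by
    apply Subtype.ext
    change U.1.map (LinearMap.mulLeft K ((z * w : Fˣ) : F)) =
      (U.1.map (LinearMap.mulLeft K (w : F))).map (LinearMap.mulLeft K (z : F))
    rw [map_ml_ml, Units.val_mul]

theorem card_base_units [Fintype Fˣ] [DecidablePred fun z : Fˣ => ∃ a : K, algebraMap K F a = z] :
    ((Finset.univ.filter fun z : Fˣ => ∃ a : K, algebraMap K F a = z).card : ℤ) =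
      (Fintype.card K : ℤ) - 1 := by
  classical
  have h1 : (Finset.univ.filter fun z : Fˣ => ∃ a : K, algebraMap K F a = z) =
      Finset.univ.image (Units.map (algebraMap K F : K →* F)) := by
    ext z
    rw [Finset.mem_filter, Finset.mem_image]
    constructor
    · rintro ⟨-, a, ha⟩
      have ha0 : a ≠ 0 := by
        rintro rfl
        rw [map_zero] at ha
        exact z.ne_zero ha.symm
      exact ⟨Units.mk0 a ha0, Finset.mem_univ _, Units.ext ha⟩
    · rintro ⟨a, -, rfl⟩
      exact ⟨Finset.mem_univ _, a, rfl⟩
  have hinj : Function.Injective (Units.map (algebraMap K F : K →* F)) := fun a b h =>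
    Units.ext ((algebraMap K F).injective (congrArg Units.val h))
  rw [h1, Finset.card_image_of_injective _ hinj, Finset.card_univ, Fintype.card_units,
    Nat.cast_sub Fintype.card_pos]
  rfl

/-- The number of the orbits of the multiplicative group on the blocks. -/
theorem IsQFano.card_orbits (hD : IsQFano D)
    (hS : ∀ z : F, z ≠ 0 → ∀ U ∈ D, U.map (LinearMap.mulLeft K z) ∈ D)
    [Fintype (Quotient (@MulAction.orbitRel Fˣ {U : Submodule K F // U ∈ D} _ (act hS)))] :
    (Fintype.card (Quotient (@MulAction.orbitRel Fˣ {U : Submodule K F // U ∈ D} _ (act hS))) : ℤ)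
      = (Fintype.card K : ℤ) ^ 2 - (Fintype.card K : ℤ) + 1 := by
  classical
  have hfF : Finite F := Module.finite_of_finite K
  let _ : Fintype F := Fintype.ofFinite F
  have hfin : Finite (Submodule K F) :=
    Finite.of_injective (fun U : Submodule K F => (U : Set F)) SetLike.coe_injective
  let _ : Fintype (Submodule K F) := Fintype.ofFinite _
  let A := act hS
  have hdim := hD.dim
  have hb := MulAction.sum_card_fixedBy_eq_card_orbits_mul_card_group Fˣ
    {U : Submodule K F // U ∈ D}
  have h1 : ∀ z : Fˣ, Fintype.card (MulAction.fixedBy {U : Submodule K F // U ∈ D} z) =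
      if (∃ a : K, algebraMap K F a = z) then Fintype.card {U : Submodule K F // U ∈ D} else 0 := by
    intro z
    split_ifs with h
    · obtain ⟨a, ha⟩ := h
      have h2 : MulAction.fixedBy {U : Submodule K F // U ∈ D} z = Set.univ := by
        rw [Set.eq_univ_iff_forall]
        intro U
        rw [MulAction.mem_fixedBy]
        apply Subtype.ext
        change U.1.map (LinearMap.mulLeft K (z : F)) = U.1
        have ha0 : a ≠ 0 := by
          rintro rfl
          rw [map_zero] at ha
          exact z.ne_zero ha.symm
        ext x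
        rw [mem_map]
        constructor
        · rintro ⟨y, hy, rfl⟩
          rw [LinearMap.mulLeft_apply, ← ha, ← Algebra.smul_def]
          exact U.1.smul_mem a hy
        · intro hx
          refine ⟨a⁻¹ • x, U.1.smul_mem _ hx, ?_⟩
          rw [LinearMap.mulLeft_apply, ← ha, ← Algebra.smul_def, smul_inv_smul₀ ha0]
      rw [← Set.toFinset_card]
      simp [h2]
    · rw [Fintype.card_eq_zero_iff]
      refine ⟨fun U => h ?_⟩
      have h3 := U.2
      rw [MulAction.mem_fixedBy] at h3
      have h4 : U.1.1.map (LinearMap.mulLeft K (z : F)) = U.1.1 := congrArg Subtype.val h3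
      refine hD.mem_base U.1.2 (z := (z : F)) fun u hu => ?_
      rw [← h4]
      exact ⟨u, hu, rfl⟩
  simp only [h1] at hb
  rw [← Finset.sum_filter, Finset.sum_const, smul_eq_mul] at hb
  have h2 := card_base_units (K := K) (F := F)
  have h3 := hD.card_blocks
  have h4 : Fintype.card {U : Submodule K F // U ∈ D} =
      (Finset.univ.filter fun U : Submodule K F => U ∈ D).card := Fintype.card_subtype _
  have h5 : (Fintype.card Fˣ : ℤ) = (Fintype.card K : ℤ) ^ 7 - 1 := by
    rw [Fintype.card_units, Nat.cast_sub Fintype.card_pos, Module.card_eq_pow_finrank (K := K)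
      (V := F), hdim]
    push_cast
    ring
  have h6 : (Fintype.card K : ℤ) ^ 7 - 1 ≠ 0 := by
    have h7 : 1 < Fintype.card K := Fintype.one_lt_card
    have h8 : (1 : ℤ) < (Fintype.card K : ℤ) ^ 7 := by
      have : 1 < Fintype.card K ^ 7 := Nat.one_lt_pow (by norm_num) h7
      exact_mod_cast this
    omega
  rw [Nat.card_eq_fintype_card] at h3
  apply mul_right_cancel₀ h6
  rw [← h3, ← h4, ← h5, ← h2, mul_comm (_ : ℤ) ((Finset.card _ : ℕ) : ℤ)]
  have h9 := congrArg (fun n : ℕ => (n : ℤ)) hb
  push_cast at h9
  rw [h9]

end

end Pool.Agent.QFano
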