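import Pool.Agent.QFano.PartE2

set_option autoImplicit false
set_option linter.unusedSectionVars false

/-!
# A block which is invariant under the Frobenius map
-/

namespace Pool.Agent.QFano

open Module Submodule

section

variable {K F : Type} [Field K] [Fintype K] [Field F] [Algebra K F] [FiniteDimensional K F]
  {D : Set (Submodule K F)}

/-- A block whose image under the Frobenius map is in its orbit. -/
theorem IsQFano.exists_fixed_orbit (hD : IsQFano D)
    (hS : ∀ z : F, z ≠ 0 → ∀ U ∈ D, U.map (LinearMap.mulLeft K z) ∈ D)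
    (hF : ∀ U ∈ D, U.map (fr K F) ∈ D)
    (hq : ¬ (7 : ℤ) ∣ (Fintype.card K : ℤ) ^ 2 - (Fintype.card K : ℤ) + 1) :
    ∃ U ∈ D, ∃ c : Fˣ, U.map (fr K F) = U.map (LinearMap.mulLeft K (c : F)) := by
  classical
  have hfF : Finite F := Module.finite_of_finite K
  have hfin : Finite (Submodule K F) :=
    Finite.of_injective (fun U : Submodule K F => (U : Set F)) SetLike.coe_injective
  let A := act hS
  let X := {U : Submodule K F // U ∈ D}
  let Q := Quotient (MulAction.orbitRel Fˣ X)
  have hfQ : Finite Q := Quotient.finite _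
  let _ : Fintype Q := Fintype.ofFinite Q
  have hcard := hD.card_orbits hS
  let f : X → X := fun U => ⟨U.1.map (fr K F), hF U.1 U.2⟩
  have hrel : ∀ U U' : X, (MulAction.orbitRel Fˣ X) U U' →
      (MulAction.orbitRel Fˣ X) (f U) (f U') := by
    rintro U U' ⟨z, hz⟩
    have hz0 : fr K F (z : F) ≠ 0 := pow_ne_zero _ z.ne_zero
    refine ⟨Units.mk0 _ hz0, ?_⟩
    apply Subtype.ext
    change (U'.1.map (fr K F)).map (LinearMap.mulLeft K (fr K F (z : F))) = U.1.map (fr K F)
    have h1 : U'.1.map (LinearMap.mulLeft K (z : F)) = U.1 := congrArg Subtype.val hz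
    rw [← map_fr_ml, h1]
  let φ : Q → Q := Quotient.map f hrel
  have hφ : ∀ (j : ℕ) (U : X), φ^[j] (Quotient.mk _ U) = Quotient.mk _ (f^[j] U) := by
    intro j
    induction j with
    | zero => intro U; rfl
    | succ j ih =>
      intro U
      rw [Function.iterate_succ_apply, Function.iterate_succ_apply, ← ih]
      rfl
  have hf : ∀ (j : ℕ) (U : X), (f^[j] U).1 = U.1.map ((fr K F) ^ j) := by
    intro j
    induction j with
    | zero =>
      intro U
      rw [pow_zero]
      exact (Submodule.map_id U.1).symm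
    | succ j ih =>
      intro U
      rw [Function.iterate_succ_apply', pow_succ']
      change (f^[j] U).1.map (fr K F) = U.1.map ((fr K F).comp ((fr K F) ^ j))
      rw [ih, Submodule.map_comp]
  have hφ7 : ∀ x : Q, φ^[7] x = x := by
    intro x
    induction x using Quotient.inductionOn with
    | h U =>
      rw [hφ]
      congr 1
      apply Subtype.ext
      rw [hf, fr_pow_seven hD.dim]
      exact Submodule.map_id U.1
  have hmod := modEq_fixed φ (by norm_num : Nat.Prime 7) hφ7
  have hne : (Finset.univ.filter fun x : Q => φ x = x).Nonempty := by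
    rw [Finset.nonempty_iff_ne_empty]
    intro h0
    rw [h0, Finset.card_empty, Nat.modEq_zero_iff_dvd] at hmod
    apply hq
    rw [← hcard]
    exact_mod_cast hmod
  obtain ⟨x, hx⟩ := hne
  rw [Finset.mem_filter] at hx
  obtain ⟨-, hx⟩ := hx
  induction x using Quotient.inductionOn with
  | h U =>
    have h1 : (Quotient.mk (MulAction.orbitRel Fˣ X) (f U)) = Quotient.mk _ U := hx
    obtain ⟨z, hz⟩ := Quotient.exact h1
    refine ⟨U.1, U.2, z, ?_⟩
    exact (congrArg Subtype.val hz).symm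

/-- A block which is invariant under the Frobenius map. -/
theorem IsQFano.exists_inv_fr (hD : IsQFano D)
    (hS : ∀ z : F, z ≠ 0 → ∀ U ∈ D, U.map (LinearMap.mulLeft K z) ∈ D)
    (hF : ∀ U ∈ D, U.map (fr K F) ∈ D)
    (hq : ¬ (7 : ℤ) ∣ (Fintype.card K : ℤ) ^ 2 - (Fintype.card K : ℤ) + 1)
    (hq1 : ¬ (7 : ℤ) ∣ (Fintype.card K : ℤ) - 1) :
    ∃ U ∈ D, Inv (fr K F) U := by
  classical
  have hfF : Finite F := Module.finite_of_finite K
  let _ : Fintype F := Fintype.ofFinite F
  obtain ⟨U, hU, c, hc⟩ := hD.exists_fixed_orbit hS hF hq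
  set q : ℤ := (Fintype.card K : ℤ) with hqdef
  have hN : IsCoprime (∑ i ∈ Finset.range 7, q ^ i) (q - 1) := by
    have h1 : ∑ i ∈ Finset.range 7, q ^ i =
        7 + (q - 1) * (q ^ 5 + 2 * q ^ 4 + 3 * q ^ 3 + 4 * q ^ 2 + 5 * q + 6) := by
      simp only [Finset.sum_range_succ, Finset.sum_range_zero]
      ring
    rw [h1]
    refine IsCoprime.add_mul_left_left ?_ _
    exact (Prime.coprime_iff_not_dvd (by norm_num : Prime (7 : ℤ))).2 hq1
  obtain ⟨u, v, huv⟩ := hN
  -- the norm of `c`
  set k : Fˣ := c ^ (∑ i ∈ Finset.range 7, q ^ i) with hk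
  have hkq : k ^ (q - 1) = 1 := by
    rw [hk, ← zpow_mul]
    have h1 : (∑ i ∈ Finset.range 7, q ^ i) * (q - 1) = ((Fintype.card Fˣ : ℕ) : ℤ) := by
      rw [Fintype.card_units, Nat.cast_sub Fintype.card_pos, Module.card_eq_pow_finrank (K := K)
        (V := F), hD.dim]
      simp only [Finset.sum_range_succ, Finset.sum_range_zero]
      push_cast
      rw [← hqdef]
      ring
    rw [h1, zpow_natCast, pow_card_eq_one]
  have hku : (k ^ u) ^ (q - 1) = 1 := by
    rw [← zpow_mul, mul_comm, zpow_mul, hkq, one_zpow]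
  have hkK : fr K F ((k ^ u : Fˣ) : F) = ((k ^ u : Fˣ) : F) := by
    rw [fr_apply, ← Units.val_pow_eq_pow_val]
    congr 1
    have h1 : (k ^ u) ^ (q : ℤ) = k ^ u := by
      have h2 : (q : ℤ) = (q - 1) + 1 := by ring
      rw [h2, zpow_add, hku, one_mul, zpow_one]
    rw [hqdef, zpow_natCast] at h1
    exact h1
  obtain ⟨a, ha⟩ := fr_fixed hkK
  set d : Fˣ := c ^ (-v) with hd
  have hdc : d ^ q * c = k ^ u * d := by
    rw [hd, hk, ← zpow_mul, ← zpow_mul]
    have h1 : c ^ (-v * q) * c = c ^ (-v * q + 1) := by rw [zpow_add, zpow_one]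
    rw [h1, ← zpow_add]
    congr 1
    linear_combination -huv
  refine ⟨U.map (LinearMap.mulLeft K (d : F)), hS _ d.ne_zero U hU, ?_⟩
  rintro _ ⟨x, hx, rfl⟩
  rw [LinearMap.mulLeft_apply, fr_mul]
  have h1 : fr K F x ∈ U.map (LinearMap.mulLeft K (c : F)) := by
    rw [← hc]
    exact ⟨x, hx, rfl⟩
  obtain ⟨y, hy, hyx⟩ := h1
  rw [LinearMap.mulLeft_apply] at hyx
  rw [← hyx]
  have h2 : fr K F (d : F) * ((c : F) * y) = (d : F) * (a • y) := by
    have h3 : fr K F (d : F) * (c : F) = ((k ^ u : Fˣ) : F) * (d : F) := by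
      have h4 : d ^ Fintype.card K * c = k ^ u * d := by
        rw [← hdc, hqdef, zpow_natCast]
      rw [fr_apply, ← Units.val_pow_eq_pow_val, ← Units.val_mul, ← Units.val_mul, h4]
    rw [← mul_assoc, h3, ← ha, Algebra.smul_def]
    ring
  rw [h2]
  exact ⟨a • y, U.smul_mem a hy, rfl⟩

end

end Pool.Agent.QFano
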