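import Pool.Agent.QFano.PartE3

set_option autoImplicit false
set_option linter.unusedSectionVars false

/-!
# No design is invariant under the normaliser of a Singer cycle, for `q = 0, 2, 4` modulo `7`
-/

namespace Pool.Agent.QFano

open Module Submodule

section

variable {K F : Type} [Field K] [Fintype K] [Field F] [Algebra K F] [FiniteDimensional K F]
  {D : Set (Submodule K F)}

theorem fr_injective : Function.Injective (fr K F) := by
  intro x y h
  exact (FiniteField.frobeniusAlgHom K F).injective h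

theorem fr_ne_one (h : finrank K F = 7) : fr K F ≠ 1 := by
  intro h1
  have hall : ∀ x : F, ∃ a : K, algebraMap K F a = x := fun x => fr_fixed (by
    rw [h1]
    rfl)
  have h2 : Module.finrank K F ≤ 1 := by
    have := finrank_le_one (R := K) (M := F) 1 (fun w => by
      obtain ⟨a, ha⟩ := hall w
      refine ⟨a, ?_⟩
      rw [Algebra.smul_def, ha, mul_one])
    exact this
  omega

/-- the case `q = 2, 4` -/
theorem IsQFano.no_singer24 (hD : IsQFano D)
    (hF : ∀ U ∈ D, U.map (fr K F) ∈ D)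
    (hq : Nat.card K % 7 = 2 ∨ Nat.card K % 7 = 4) : False := by
  have hfF : Finite F := Module.finite_of_finite K
  have hdim := hD.dim
  obtain ⟨p, hp, hpd, hP⟩ := hD.seven ⟨fr_injective, hF⟩ (fr_pow_seven hdim)
    (fr_ne_one hdim) hq
  have hX : (Polynomial.X - 1 : Polynomial K) = Polynomial.X - Polynomial.C 1 := by simp
  have hPm : ((Polynomial.X - 1) * p).Monic := by
    rw [hX]
    exact (Polynomial.monic_X_sub_C 1).mul hp
  have hPd : ((Polynomial.X - 1) * p).natDegree = 4 := by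
    rw [hX, (Polynomial.monic_X_sub_C (1 : K)).natDegree_mul hp,
      Polynomial.natDegree_X_sub_C, hpd]
  have h1 := minpoly.min K (fr K F) hPm hP
  rw [FiniteField.minpoly_frobeniusAlgHom, hdim, Polynomial.degree_eq_natDegree hPm.ne_zero,
    hPd] at h1
  have h2 : (Polynomial.X ^ 7 - 1 : Polynomial K).degree = 7 := by
    have := Polynomial.degree_X_pow_sub_C (R := K) (n := 7) (by norm_num) 1
    rw [Polynomial.C_1] at this
    exact_mod_cast this
  rw [h2] at h1
  norm_num at h1

/-- going down along a nilpotent map -/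
theorem exists_descend {V : Type*} [AddCommGroup V] [Module K V] {N : End K V}
    {U M : Submodule K V} (hU : Inv N U) {u : V} (hu : u ∈ U) (huM : u ∉ M) {n : ℕ}
    (hn : (N ^ n) u = 0) : ∃ w ∈ U, w ∉ M ∧ N w ∈ M := by
  classical
  have hex : ∃ i, (N ^ i) u ∈ M := ⟨n, by rw [hn]; exact M.zero_mem⟩
  have h1 := Nat.find_spec hex
  have h2 : Nat.find hex ≠ 0 := by
    intro h0
    rw [h0, pow_zero] at h1
    exact huM h1
  obtain ⟨j, hj⟩ := Nat.exists_eq_succ_of_ne_zero h2
  refine ⟨(N ^ j) u, hU.pow j u hu, Nat.find_min hex (by omega), ?_⟩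
  rw [hj, pow_succ'] at h1
  exact h1

theorem ker_fr {x : F} (h : x ∈ LinearMap.ker (sh (fr K F) 1)) :
    ∃ a : K, algebraMap K F a = x := by
  rw [mem_ker_sh, one_smul] at h
  exact fr_fixed h

/-- the case `q = 0` -/
theorem IsQFano.no_singer0 (hD : IsQFano D)
    (hS : ∀ z : F, z ≠ 0 → ∀ U ∈ D, U.map (LinearMap.mulLeft K z) ∈ D)
    (hF : ∀ U ∈ D, U.map (fr K F) ∈ D) (hq : Nat.card K % 7 = 0) : False := by
  have hfF : Finite F := Module.finite_of_finite K
  have hdim := hD.dim
  have h7 : Nat.Prime 7 := by norm_num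
  have hf7 : Fact (Nat.Prime 7) := ⟨h7⟩
  have hc7 : (7 : ℤ) ∣ (Fintype.card K : ℤ) := by
    rw [Nat.card_eq_fintype_card] at hq
    omega
  obtain ⟨U, hU, hUi⟩ := hD.exists_inv_fr hS hF (by
    obtain ⟨c, hc⟩ := hc7
    rw [hc]
    intro h
    have h1 : (7 : ℤ) ∣ 1 := by
      have h2 : (1 : ℤ) = ((7 * c) ^ 2 - 7 * c + 1) - 7 * (7 * c ^ 2 - c) := by ring
      rw [h2]
      exact dvd_sub h (dvd_mul_right _ _)
    omega) (by omega)
  -- the characteristic is seven
  have hchar : CharP K 7 := by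
    obtain ⟨p, hp⟩ := CharP.exists K
    obtain ⟨n, hpp, hn⟩ := FiniteField.card K p
    have h1 : 7 ∣ Fintype.card K := by exact_mod_cast hc7
    rw [hn] at h1
    have h2 : 7 = p := (Nat.prime_dvd_prime_iff_eq h7 hpp).1 (h7.dvd_of_dvd_pow h1)
    rw [h2]
    exact hp
  have h2K : (2 : K) ≠ 0 := by
    intro h0
    have h1 : ((2 : ℕ) : K) = 0 := by exact_mod_cast h0
    rw [CharP.cast_eq_zero_iff K 7] at h1
    omega
  set N : End K F := sh (fr K F) 1 with hN
  have hN7 : N ^ 7 = 0 := by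
    have h1 := sub_pow_char (R := Polynomial K) (p := 7) Polynomial.X 1
    have h2 := congrArg (Polynomial.aeval (fr K F)) h1
    rw [map_pow, map_sub, map_sub, map_pow, Polynomial.aeval_X, map_pow, map_one, one_pow,
      fr_pow_seven hdim, sub_self] at h2
    rw [← h2, hN]
    congr 1
    ext x
    simp
  have hNv : ∀ x : F, (N ^ 7) x = 0 := fun x => by rw [hN7]; rfl
  have hNapp : ∀ x : F, N x = fr K F x - x := fun x => by
    rw [hN, sh_apply, one_smul]
  have hNa : ∀ a : K, N (algebraMap K F a) = 0 := fun a => by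
    rw [hNapp, fr_algebraMap, sub_self]
  have hker : ∀ x : F, N x = 0 → ∃ a : K, algebraMap K F a = x := fun x hx => ker_fr hx
  have hUN : Inv N U := hUi.sh 1
  -- `1 ∈ U`
  obtain ⟨u, hu, hu0⟩ := exists_ne_zero (W := U) (by rw [hD.block U hU]; norm_num)
  obtain ⟨u1, hu1, hu1', hNu1⟩ := exists_descend (M := ⊥) hUN hu
    (by rw [mem_bot]; exact hu0) (hNv u)
  rw [mem_bot] at hu1' hNu1
  obtain ⟨a1, ha1⟩ := hker u1 hNu1
  have ha10 : a1 ≠ 0 := by
    rintro rfl
    rw [map_zero] at ha1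
    exact hu1' ha1.symm
  have h1U : (1 : F) ∈ U := by
    have h1 : (1 : F) = a1⁻¹ • u1 := by
      rw [← ha1, Algebra.smul_def, ← map_mul, inv_mul_cancel₀ ha10, map_one]
    rw [h1]
    exact U.smul_mem _ hu1
  -- `t ∈ U`
  obtain ⟨v, hv, hv1⟩ := exists_pair (W := U) (by rw [hD.block U hU]; norm_num) (1 : F)
  obtain ⟨t0, ht0, ht0', hNt0⟩ := exists_descend (M := K ∙ (1 : F)) hUN hv hv1 (hNv v)
  obtain ⟨b, hb⟩ := mem_span_singleton.1 hNt0
  have hb0 : b ≠ 0 := by
    rintro rfl
    rw [zero_smul] at hb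
    obtain ⟨a, ha⟩ := hker t0 hb.symm
    apply ht0'
    rw [mem_span_singleton]
    exact ⟨a, by rw [Algebra.smul_def, mul_one, ha]⟩
  set t : F := b⁻¹ • t0 with ht
  have htU : t ∈ U := U.smul_mem _ ht0
  have hNt : fr K F t = t + 1 := by
    have h1 : N t = 1 := by
      rw [ht, map_smul, ← hb, smul_smul, inv_mul_cancel₀ hb0, one_smul]
    rw [hNapp] at h1
    linear_combination h1
  have htK : ∀ a : K, algebraMap K F a ≠ t := by
    intro a ha
    have h1 := hNa a
    rw [ha, hNapp, hNt] at h1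
    simp at h1
  have hNt2 : N (t * t) = 2 * t + 1 := by
    rw [hNapp, fr_mul, hNt]
    ring
  -- `t ^ 2 ∈ U`
  have h3 : ¬ U ≤ span K {1, t} := by
    intro h
    have h4 := Submodule.finrank_mono h
    rw [hD.block U hU, finrank_pair one_ne_zero (by
      rw [mem_span_singleton]
      rintro ⟨a, ha⟩
      rw [Algebra.smul_def, mul_one] at ha
      exact htK a ha)] at h4
    omega
  obtain ⟨w, hw, hw'⟩ := SetLike.not_le_iff_exists.1 h3
  obtain ⟨w0, hw0, hw0', hNw0⟩ := exists_descend hUN hw hw' (hNv w)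
  obtain ⟨α, β, hαβ⟩ := mem_span_pair.1 hNw0
  rw [Algebra.smul_def, Algebra.smul_def, mul_one] at hαβ
  have h2inv : algebraMap K F 2 * algebraMap K F (2⁻¹) = 1 := by
    rw [← map_mul, mul_inv_cancel₀ h2K, map_one]
  have h2F : algebraMap K F 2 = 2 := map_ofNat (algebraMap K F) 2
  rw [h2F] at h2inv
  obtain ⟨c, hc⟩ := hker (w0 - (β * 2⁻¹) • (t * t) - (α - β * 2⁻¹) • t) (by
    have hNt1 : N t = 1 := by
      rw [hNapp, hNt]
      ring
    rw [map_sub, map_sub, map_smul, map_smul, hNt2, hNt1, ← hαβ, Algebra.smul_def,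
      Algebra.smul_def, map_sub, map_mul]
    linear_combination (-algebraMap K F β * t) * h2inv)
  have hβ : β ≠ 0 := by
    rintro rfl
    apply hw0'
    rw [mem_span_pair]
    refine ⟨c, α, ?_⟩
    rw [zero_mul, zero_smul, sub_zero, sub_zero] at hc
    rw [Algebra.smul_def c, mul_one, hc]
    abel
  have ht2U : t * t ∈ U := by
    have h5 : t * t = (2 * β⁻¹) • (w0 - (α - β * 2⁻¹) • t - c • (1 : F)) := by
      have h6 : w0 - (α - β * 2⁻¹) • t - c • (1 : F) = (β * 2⁻¹) • (t * t) := by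
        rw [Algebra.smul_def c, mul_one, hc]
        abel
      rw [h6, smul_smul]
      have h7 : 2 * β⁻¹ * (β * 2⁻¹) = 1 := by
        field_simp
      rw [h7, one_smul]
    rw [h5]
    exact U.smul_mem _ (U.sub_mem (U.sub_mem hw0 (U.smul_mem _ htU)) (U.smul_mem _ h1U))
  -- the Sidon property
  have ht0F : t ≠ 0 := by
    intro h0
    exact htK 0 (by rw [map_zero, h0])
  have h5 := hD.sidon hS hU h1U htU ht2U htU one_ne_zero ht0F (by ring) (by
    rw [mem_span_singleton]
    rintro ⟨a, ha⟩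
    rw [Algebra.smul_def] at ha
    exact htK a (mul_right_cancel₀ ht0F ha))
  obtain ⟨a, ha⟩ := mem_span_singleton.1 h5
  rw [Algebra.smul_def, mul_one] at ha
  exact htK a ha

end

end Pool.Agent.QFano
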