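import Pool.Agent.QFano.PartE4

set_option autoImplicit false
set_option linter.unusedSectionVars false

/-!
# No design is invariant under the normaliser of a Singer cycle: the case `q = 6` modulo `7`
-/

namespace Pool.Agent.QFano

open Module Submodule

section

variable {K F : Type} [Field K] [Fintype K] [Field F] [Algebra K F] [FiniteDimensional K F]
  {D : Set (Submodule K F)}

/-- values of a binary quadratic form -/
theorem exists_form (t c : K) (ht : t ^ 2 ≠ 4) : ∃ a b : K, a ^ 2 - t * a * b + b ^ 2 = c := by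
  by_cases h2 : ringChar K = 2
  · obtain ⟨a, ha⟩ := FiniteField.isSquare_of_char_two h2 c
    exact ⟨a, 0, by rw [ha]; ring⟩
  · have h2K : (2 : K) ≠ 0 := Ring.two_ne_zero h2
    have hodd := FiniteField.odd_card_of_char_ne_two h2
    have h4 : (4 : K) ≠ 0 := by
      have : (4 : K) = 2 * 2 := by norm_num
      rw [this]
      exact mul_ne_zero h2K h2K
    have hlead : (1 - t ^ 2 / 4 : K) ≠ 0 := by
      intro h0
      apply ht
      field_simp at h0
      linear_combination -h0
    have hd1 : (Polynomial.X ^ 2 : Polynomial K).degree = 2 := Polynomial.degree_X_pow 2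
    have hd2 : (Polynomial.C (1 - t ^ 2 / 4) * Polynomial.X ^ 2 + Polynomial.C 0 * Polynomial.X +
        Polynomial.C (-c) : Polynomial K).degree = 2 := Polynomial.degree_quadratic hlead
    obtain ⟨a, b, hab⟩ := FiniteField.exists_root_sum_quadratic hd1 hd2 hodd
    simp only [Polynomial.eval_pow, Polynomial.eval_X, Polynomial.eval_add, Polynomial.eval_mul,
      Polynomial.eval_C] at hab
    refine ⟨a + t * b / 2, b, ?_⟩
    field_simp
    field_simp at hab
    linear_combination hab

/-- the case `q = 6` -/
theorem IsQFano.no_singer6 (hD : IsQFano D)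
    (hS : ∀ z : F, z ≠ 0 → ∀ U ∈ D, U.map (LinearMap.mulLeft K z) ∈ D)
    (hF : ∀ U ∈ D, U.map (fr K F) ∈ D) (hq : Nat.card K % 7 = 6) : False := by
  have hfF : Finite F := Module.finite_of_finite K
  have hdim := hD.dim
  have h7 : Nat.Prime 7 := by norm_num
  have hqm : (Fintype.card K : ℤ) ≡ -1 [ZMOD 7] := by
    rw [Nat.card_eq_fintype_card] at hq
    unfold Int.ModEq
    omega
  have hq1 : ¬ (7 : ℤ) ∣ (Fintype.card K : ℤ) - 1 := by
    rw [Nat.card_eq_fintype_card] at hq
    omega
  obtain ⟨U, hU, hUi⟩ := hD.exists_inv_fr hS hF (by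
    intro h
    have h1 := (Int.modEq_zero_iff_dvd.2 h)
    have h2 : (Fintype.card K : ℤ) ^ 2 - (Fintype.card K : ℤ) + 1 ≡ (-1) ^ 2 - (-1) + 1
      [ZMOD 7] := by gcongr
    exact absurd (h2.symm.trans h1) (by decide)) hq1
  have hrq : ¬ 7 ∣ Nat.card K := by omega
  have hr : ((7 : ℕ) : K) ≠ 0 := cast_ne_zero h7 hrq
  have hgr := fr_pow_seven hdim
  have hq1' : ¬ ((7 : ℕ) : ℤ) ∣ (Nat.card K : ℤ) - 1 := by
    rw [Nat.card_eq_fintype_card]
    exact hq1
  set W := LinearMap.ker (av (fr K F) 7) with hW
  set Φ := LinearMap.ker (sh (fr K F) 1) with hΦ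
  have hWi : Inv (fr K F) W := inv_av hgr
  have hΦ1 : finrank K Φ ≤ 1 := by
    have h1 : Φ ≤ K ∙ (1 : F) := by
      intro x hx
      obtain ⟨a, ha⟩ := ker_fr hx
      rw [mem_span_singleton]
      exact ⟨a, by rw [Algebra.smul_def, mul_one, ha]⟩
    exact (Submodule.finrank_mono h1).trans (finrank_span_singleton (one_ne_zero (α := F))).le
  have h3 := split_of_inv hUi hgr hr
  rw [hD.block U hU, ← hW, ← hΦ] at h3
  have h4 : finrank K (U ⊓ Φ : Submodule K F) ≤ 1 :=
    (Submodule.finrank_mono inf_le_right).trans hΦ1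
  have h5 : finrank K (U ⊓ W : Submodule K F) ≠ 3 := by
    intro h
    have h6 := free_dvd fr_injective h7 hgr hr (inv_inf hUi hWi) inf_le_right
    rw [h, Nat.card_eq_fintype_card] at h6
    have h7 : (Fintype.card K : ℤ) ^ 3 - 1 ≡ (-1) ^ 3 - 1 [ZMOD 7] := by gcongr
    exact absurd (h7.symm.trans (Int.modEq_zero_iff_dvd.2 h6)) (by decide)
  have hUW : finrank K (U ⊓ W : Submodule K F) = 2 := by omega
  have hUΦ : finrank K (U ⊓ Φ : Submodule K F) = 1 := by omega
  -- `1 ∈ U`
  have h1U : (1 : F) ∈ U := by
    obtain ⟨u, hu, hu0⟩ := exists_ne_zero (W := U ⊓ Φ) (by omega)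
    obtain ⟨a, ha⟩ := ker_fr hu.2
    have ha0 : a ≠ 0 := by
      rintro rfl
      rw [map_zero] at ha
      exact hu0 ha.symm
    have h8 : (1 : F) = a⁻¹ • u := by
      rw [← ha, Algebra.smul_def, ← map_mul, inv_mul_cancel₀ ha0, map_one]
    rw [h8]
    exact U.smul_mem _ hu.1
  have h1Φ : ∀ a : K, algebraMap K F a ∈ Φ := fun a => by
    rw [hΦ, mem_ker_sh, one_smul, fr_algebraMap]
  have hno : ∀ y ∈ W, ∀ a : K, fr K F y = a • y → y = 0 := by
    intro y hy a hya
    by_contra hy0
    refine no_one h7 hgr hr hq1' (U := K ∙ y) ?_ ?_ (finrank_span_singleton hy0)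
    · intro u hu
      obtain ⟨c, rfl⟩ := mem_span_singleton.1 hu
      rw [map_smul, hya]
      exact smul_mem _ _ (smul_mem _ _ (mem_span_singleton_self y))
    · rw [span_singleton_le_iff_mem]
      exact hy
  -- the plane
  obtain ⟨x, hx, hx0⟩ := exists_ne_zero (W := U ⊓ W) (by omega)
  set x' := fr K F x with hx'
  have hxW : x ∈ W := hx.2
  have hxU : x ∈ U := hx.1
  have hx'W : x' ∈ W := hWi x hxW
  have hx'U : x' ∈ U := hUi x hxU
  have hxx' : x' ∉ K ∙ x := by
    intro h
    obtain ⟨a, ha⟩ := mem_span_singleton.1 h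
    exact hx0 (hno x hxW a ha.symm)
  have hspan : span K {x, x'} = U ⊓ W := by
    refine eq_of_le_of_finrank_eq (pair_le hx ⟨hx'U, hx'W⟩) ?_
    rw [finrank_pair hx0 hxx', hUW]
  have hx'' : fr K F x' ∈ span K {x, x'} := by
    rw [hspan]
    exact ⟨hUi x' hx'U, hWi x' hx'W⟩
  obtain ⟨d', t, hdt⟩ := mem_span_pair.1 hx''
  set d : K := -d' with hd
  have hrec : fr K F x' = algebraMap K F t * x' - algebraMap K F d * x := by
    rw [← hdt, hd, map_neg, Algebra.smul_def, Algebra.smul_def]
    ring
  -- the determinant is one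
  set w : F := x * fr K F x' - x' * x' with hw
  have hfw : fr K F w = algebraMap K F d * w := by
    have h8 : fr K F (fr K F x') = algebraMap K F t * fr K F x' - algebraMap K F d * x' := by
      conv_lhs => rw [hrec]
      rw [map_sub, fr_mul, fr_mul, fr_algebraMap, fr_algebraMap, ← hx']
    rw [hw, map_sub, fr_mul, fr_mul, ← hx', h8]
    linear_combination (-fr K F x') * hrec
  have hw0 : w ≠ 0 := by
    intro h0
    have h8 : fr K F (x' / x) = x' / x := by
      have h9 : fr K F (x' / x) = fr K F x' / x' := by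
        rw [fr_apply, div_pow, ← fr_apply, ← fr_apply, ← hx']
      have hx'0 : x' ≠ 0 := by
        rintro h10
        exact hxx' (by rw [h10]; exact zero_mem _)
      rw [h9, div_eq_div_iff hx'0 hx0]
      rw [hw] at h0
      linear_combination h0
    obtain ⟨a, ha⟩ := fr_fixed h8
    apply hxx'
    rw [mem_span_singleton]
    exact ⟨a, by rw [Algebra.smul_def, ha, div_mul_cancel₀ _ hx0]⟩
  have hdj : ∀ j : ℕ, ((fr K F) ^ j) w = algebraMap K F (d ^ j) * w := by
    intro j
    induction j with
    | zero => simp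
    | succ j ih =>
      rw [pow_succ', Module.End.mul_apply, ih, fr_mul, fr_algebraMap, hfw, pow_succ, map_mul]
      ring
  have hd7 : d ^ 7 = 1 := by
    have h8 := hdj 7
    rw [hgr, Module.End.one_apply] at h8
    have h9 : algebraMap K F (d ^ 7) = algebraMap K F 1 := by
      rw [map_one]
      apply mul_right_cancel₀ hw0
      rw [← h8, one_mul]
    exact (algebraMap K F).injective h9
  have hd1 : d = 1 := by
    have hd0 : d ≠ 0 := by
      rintro h0
      rw [h0] at hd7
      norm_num at hd7
    have h8 : d ^ (Fintype.card K - 1) = 1 := FiniteField.pow_card_sub_one_eq_one d hd0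
    have h9 : Nat.Coprime 7 (Fintype.card K - 1) := by
      rw [h7.coprime_iff_not_dvd]
      rw [Nat.card_eq_fintype_card] at hq
      omega
    have h10 := pow_gcd_eq_one.2 ⟨hd7, h8⟩
    rw [h9.gcd_eq_one, pow_one] at h10
    exact h10
  rw [hd1, map_one, one_mul] at hfw hrec
  obtain ⟨c, hc⟩ := fr_fixed hfw
  -- the discriminant
  have ht : t ^ 2 ≠ 4 := by
    intro ht
    by_cases h2 : (2 : K) = 0
    · have h4 : (4 : K) = 0 := by
        have : (4 : K) = 2 * 2 := by norm_num
        rw [this, h2, zero_mul]
      have ht0 : t = 0 := by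
        rw [h4] at ht
        exact pow_eq_zero_iff (two_ne_zero) |>.1 ht
      have h8 : x' + x = 0 := by
        refine hno _ (W.add_mem hx'W hxW) 1 ?_
        have h9 : (2 : F) = 0 := by
          have := congrArg (algebraMap K F) h2
          rwa [map_ofNat, map_zero] at this
        rw [map_add, hrec, ht0, map_zero, ← hx', one_smul]
        linear_combination (-x) * h9
      apply hxx'
      rw [mem_span_singleton]
      exact ⟨-1, by rw [neg_smul, one_smul]; linear_combination -h8⟩
    · set s := t / 2 with hs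
      have hs2 : s ^ 2 = 1 := by
        rw [hs, div_pow, ht]
        have : (2 : K) ^ 2 = 4 := by norm_num
        rw [this, div_self]
        rw [← this]
        exact pow_ne_zero 2 h2
      have hts : t = 2 * s := by rw [hs, mul_div_cancel₀ _ h2]
      have h8 : x' - algebraMap K F s * x = 0 := by
        refine hno _ (W.sub_mem hx'W ?_) s ?_
        · rw [← Algebra.smul_def]
          exact W.smul_mem s hxW
        · have h9 : algebraMap K F s ^ 2 = 1 := by rw [← map_pow, hs2, map_one]
          rw [map_sub, fr_mul, fr_algebraMap, hrec, ← hx', Algebra.smul_def, hts, map_mul,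
            map_ofNat]
          linear_combination x * h9
      apply hxx'
      rw [mem_span_singleton]
      exact ⟨s, by rw [Algebra.smul_def]; linear_combination -h8⟩
  obtain ⟨a, b, hab⟩ := exists_form t (-c) ht
  -- independence
  have hind : ∀ α β γ : K, algebraMap K F α + algebraMap K F β * x + algebraMap K F γ * x' = 0 →
      α = 0 ∧ β = 0 ∧ γ = 0 := by
    intro α β γ h
    have hβγ : β • x + γ • x' ∈ W := W.add_mem (W.smul_mem β hxW) (W.smul_mem γ hx'W)
    have h8 : β • x + γ • x' = algebraMap K F (-α) := by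
      rw [Algebra.smul_def, Algebra.smul_def, map_neg]
      linear_combination h
    have h9 : β • x + γ • x' = 0 := by
      refine fix_disj (g := fr K F) (r := 7) hr ?_ hβγ
      rw [h8]
      exact h1Φ (-α)
    have h10 : γ = 0 := by
      by_contra hγ
      apply hxx'
      rw [mem_span_singleton]
      refine ⟨-(γ⁻¹ * β), ?_⟩
      have h11 : x' = γ⁻¹ • (γ • x') := by rw [smul_smul, inv_mul_cancel₀ hγ, one_smul]
      have h12 : γ • x' = -(β • x) := by
        rw [← add_eq_zero_iff_eq_neg, add_comm]
        exact h9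
      rw [h11, h12, smul_neg, smul_smul, neg_smul]
    have h11 : β = 0 := by
      rw [h10, zero_smul, add_zero] at h9
      exact (smul_eq_zero.1 h9).resolve_right hx0
    refine ⟨?_, h11, h10⟩
    rw [h9] at h8
    have h12 : algebraMap K F (-α) = algebraMap K F 0 := by rw [← h8, map_zero]
    have := (algebraMap K F).injective h12
    rwa [neg_eq_zero] at this
  have hsm : ∀ (e : K), algebraMap K F e ∈ U := fun e => by
    have h8 : algebraMap K F e = e • (1 : F) := by rw [Algebra.smul_def, mul_one]
    rw [h8]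
    exact U.smul_mem e h1U
  have hmx : ∀ (e : K), algebraMap K F e * x ∈ U := fun e => by
    rw [← Algebra.smul_def]
    exact U.smul_mem e hxU
  have hmx' : ∀ (e : K), algebraMap K F e * x' ∈ U := fun e => by
    rw [← Algebra.smul_def]
    exact U.smul_mem e hx'U
  have hs1 : x - algebraMap K F a ≠ 0 := by
    intro h0
    have := hind (-a) 1 0 (by rw [map_neg, map_one, map_zero]; linear_combination h0)
    exact one_ne_zero this.2.1
  have hs2 : x' - algebraMap K F b ≠ 0 := by
    intro h0
    have := hind (-b) 0 1 (by rw [map_neg, map_one, map_zero]; linear_combination h0)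
    exact one_ne_zero this.2.2
  have hkey : (x - algebraMap K F a) * (x - algebraMap K F t * x' + algebraMap K F a) =
      (x' - algebraMap K F b) * (-(x' + algebraMap K F b - algebraMap K F t * algebraMap K F a)) := by
    have h8 := congrArg (algebraMap K F) hab
    simp only [map_add, map_sub, map_mul, map_pow, map_neg] at h8
    rw [hc, hw, hrec] at h8
    linear_combination -h8
  have h8 := hD.sidon hS hU (s1 := x - algebraMap K F a) (s2 := x' - algebraMap K F b)
    (A1 := x - algebraMap K F t * x' + algebraMap K F a)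
    (A2 := -(x' + algebraMap K F b - algebraMap K F t * algebraMap K F a))
    (U.sub_mem hxU (hsm a)) (U.sub_mem hx'U (hsm b))
    (U.add_mem (U.sub_mem hxU (hmx' t)) (hsm a))
    (U.neg_mem (U.sub_mem (U.add_mem hx'U (hsm b)) (by
      rw [← map_mul]
      exact hsm _))) hs1 hs2 hkey (by
      rw [mem_span_singleton]
      rintro ⟨e, he⟩
      rw [Algebra.smul_def] at he
      have := hind (e * b + a) 1 (-t - e) (by
        rw [map_add, map_mul, map_one, map_sub, map_neg]
        linear_combination -he)
      exact one_ne_zero this.2.1)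
  obtain ⟨e, he⟩ := mem_span_singleton.1 h8
  rw [Algebra.smul_def] at he
  have := hind (-b + e * a) (-e) 1 (by
    rw [map_add, map_mul, map_one, map_neg, map_neg]
    linear_combination -he)
  exact one_ne_zero this.2.2

end

end Pool.Agent.QFano
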