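import Pool.Agent.QFano.Basic

set_option autoImplicit false

/-!
# The types of automorphisms of prime order: definitions
-/

namespace Pool.Agent.QFano

open Module Submodule Polynomial

section Linear

variable {K V : Type*} [Field K] [AddCommGroup V] [Module K V]

/-- the kernel of `f - s` -/
def eig (f : End K V) (s : K) : Submodule K V := LinearMap.ker (f - algebraMap K (End K V) s)

/-- the dimension of the kernel of `(f - s) ^ i` -/
noncomputable def kerDim (f : End K V) (s : K) (i : ℕ) : ℕ :=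
  finrank K (LinearMap.ker ((f - algebraMap K (End K V) s) ^ i))

/-- `r` divides `q`, `f - s` is nilpotent and `f` has Jordan type `(2, 2, 2, 1)`, or `(4, 3)` and
`r` is at least `5`, or `(6, 1)` or `(7)` and `r` is at least `7`. -/
def UnipType (f : End K V) (r : ℕ) : Prop :=
  r ∣ Nat.card K ∧ ∃ s : K,
    (∀ i, kerDim f s i = min 7 (4 * i)) ∨
    (5 ≤ r ∧ ∀ i, kerDim f s i = min 7 (2 * i)) ∨
    (7 ≤ r ∧ ∀ i, 0 < i → kerDim f s i = min 7 (i + 1)) ∨
    (7 ≤ r ∧ ∀ i, kerDim f s i = min 7 i)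

/-- `r` divides `q - 1` and `f` is diagonalisable with at most `r` eigenvalues and eigenspaces of
the dimensions `4, 3`, or `2, 2, 2, 1`, or `1, 1, 1, 1, 1, 1, 1`. -/
def DiagType (f : End K V) (r : ℕ) : Prop :=
  (r : ℤ) ∣ (Nat.card K : ℤ) - 1 ∧
    ∃ m ∈ ([[4, 3], [2, 2, 2, 1], [1, 1, 1, 1, 1, 1, 1]] : List (List ℕ)), m.length ≤ r ∧
      ∃ s : Fin m.length → K, Function.Injective s ∧ ∀ i, finrank K (eig f (s i)) = m.get i

/-- `r` divides `1 + q + ... + q ^ 6` and `f` has no proper nonzero invariant subspace. -/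
def SingerType (f : End K V) (r : ℕ) : Prop :=
  (r : ℤ) ∣ ∑ i ∈ Finset.range 7, (Nat.card K : ℤ) ^ i ∧
    ∀ U : Submodule K V, (∀ u ∈ U, f u ∈ U) → U = ⊥ ∨ U = ⊤

/-- Let `n` be the dimension of the eigenspace of `s` and `e` the order of `q` modulo `r`. Then
`(n, e) = (3, 4)` and the eigenspace is a block, or `(n, e) = (1, 2), (1, 6)`, or `(n, e) = (1, 3)`
and `(f - s) p(f) = 0` for a monic cubic polynomial `p`. -/
def CoprimeType (D : Set (Submodule K V)) (f : End K V) (r : ℕ) : Prop :=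
  ∃ s : K,
    (finrank K (eig f s) = 3 ∧ orderOf (Nat.card K : ZMod r) = 4 ∧ eig f s ∈ D) ∨
    (finrank K (eig f s) = 1 ∧
      (orderOf (Nat.card K : ZMod r) = 2 ∨ orderOf (Nat.card K : ZMod r) = 6 ∨
        (orderOf (Nat.card K : ZMod r) = 3 ∧
          ∃ p : K[X], p.Monic ∧ p.natDegree = 3 ∧ aeval f ((X - C s) * p) = 0)))

end Linear

section Semilinear

/-- the fixed field of `σ` -/
abbrev fixedSub {K : Type*} [Field K] (σ : K →+* K) : Subfield K :=
  σ.eqLocusField (RingHom.id K)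

variable {K V : Type*} [Field K] [AddCommGroup V] [Module K V]

/-- the intersections with `V₀` of the members of `D` which are invariant under `g` -/
def SubDesign {K₀ : Type*} [Field K₀] [Module K₀ V] (D : Set (Submodule K V)) (g : V → V)
    (V₀ : Submodule K₀ V) : Set (Submodule K₀ V₀) :=
  {B₀ | ∃ B ∈ D, (∀ u ∈ B, g u ∈ B) ∧ ∀ v : V₀, v ∈ B₀ ↔ (v : V) ∈ B}

/-- The vectors `v` with `g v = a • v` form a `K₀`-subspace `V₀` of `V` which spans `V` over `K`,
and the invariant members of `D` give a design over `K₀` on `V₀`. -/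
def IsBaer (K₀ : Type*) [Field K₀] [Module K₀ V] (D : Set (Submodule K V)) (g : V → V)
    (a : K) : Prop :=
  ∃ V₀ : Submodule K₀ V, (∀ v, v ∈ V₀ ↔ g v = a • v) ∧ span K (V₀ : Set V) = ⊤ ∧
    IsQFano (SubDesign D g V₀)

/-- `K` has degree `r` over the fixed field of `σ`, and `g` induces a design over this field. -/
def BaerType (D : Set (Submodule K V)) {σ : K →+* K} (g : V →ₛₗ[σ] V) (r : ℕ) : Prop :=
  finrank (fixedSub σ) K = r ∧ ∃ a : K, a ≠ 0 ∧ IsBaer (fixedSub σ) D g a

end Semilinear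

end Pool.Agent.QFano
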